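import Pool.Agent.W5h86.MW.Lead

/-!
# The hard Lefschetz property of the leading part
-/

set_option autoImplicit false
set_option linter.unusedSectionVars false
set_option linter.unusedVariables false

open Module

namespace Pool.Agent.W5h86.MW

open Pool.Agent.H914 (Sl2 IsHom grZ HardLef)

variable {K : Type*} [Field K] [CharZero K] {V : Type*} [AddCommGroup V] [Module K V]

lemma grZ_neg {gr : ℕ → Submodule K V} {i : ℤ} (hi : i < 0) : grZ gr i = ⊥ := by
  rw [Pool.Agent.H914.grZ, if_neg (by omega)]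

lemma grZ_nat {gr : ℕ → Submodule K V} {i : ℤ} (hi : 0 ≤ i) : grZ gr i = gr i.toNat := by
  rw [Pool.Agent.H914.grZ, if_pos hi]

/-- The `sl(2)`-triple attached to a `ℤ`-graded space with an operator of degree `-2` with the hard
Lefschetz property. -/
lemma exists_triple [Module.Finite K V] {C : ℤ → Submodule K V} (hC : DirectSum.IsInternal C)
    {L : Module.End K V} (hL : ∀ c x, x ∈ C c → L x ∈ C (c - 2))
    (inj : ∀ (c : ℕ) x, x ∈ C c → (L ^ c) x = 0 → x = 0)
    (surj : ∀ (c : ℕ) y, y ∈ C (-c) → ∃ x ∈ C c, (L ^ c) x = y) :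
    ∃ f : Module.End K V, Sl2 (-(dia hC (fun c => (c : K)))) L f := by
  -- a bound for the degrees
  obtain ⟨n, hn⟩ : ∃ n : ℕ, ∀ c : ℤ, (n : ℤ) < |c| → C c = ⊥ := by
    have hind : iSupIndep C :=
      ((DirectSum.isInternal_submodule_iff_iSupIndep_and_iSup_eq_top C).1 hC).1
    have hfin : Set.Finite {c | C c ≠ ⊥} :=
      WellFoundedGT.finite_ne_bot_of_iSupIndep hind
    refine ⟨∑ c ∈ hfin.toFinset, c.natAbs, fun c hc => ?_⟩
    by_contra hne
    have h1 : c.natAbs ≤ ∑ c ∈ hfin.toFinset, c.natAbs :=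
      Finset.single_le_sum (f := fun c : ℤ => c.natAbs) (fun _ _ => Nat.zero_le _)
        (hfin.mem_toFinset.2 hne)
    have h2 : (c.natAbs : ℤ) = |c| := Int.natCast_natAbs c
    omega
  let gr : ℕ → Submodule K V := fun j => C (n - j)
  have hgr : ∀ j, gr j = C (n - j) := fun j => rfl
  have hint : DirectSum.IsInternal gr := by
    rw [DirectSum.isInternal_submodule_iff_iSupIndep_and_iSup_eq_top]
    constructor
    · exact ((DirectSum.isInternal_submodule_iff_iSupIndep_and_iSup_eq_top C).1 hC).1.comp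
        (f := fun j : ℕ => (n : ℤ) - j) (fun a b h => by
          have : (n : ℤ) - a = n - b := h
          omega)
    · rw [eq_top_iff, ← hC.submodule_iSup_eq_top]
      apply iSup_le
      intro c
      by_cases hc : (n : ℤ) < |c|
      · rw [hn c hc]; exact bot_le
      · have h2 := abs_le.1 (not_lt.1 hc)
        refine le_trans (le_of_eq ?_) (le_iSup gr (n - c).toNat)
        rw [hgr]
        congr 1
        omega
  have hom : IsHom gr 2 L := by
    intro i a ha
    by_cases hi : 0 ≤ i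
    · rw [grZ_nat hi] at ha
      rw [grZ_nat (by omega), hgr]
      have := hL _ _ ha
      rwa [show (n : ℤ) - i.toNat - 2 = n - ((i + 2).toNat : ℕ) by omega] at this
    · rw [grZ_neg (by omega)] at ha
      rw [(Submodule.mem_bot _).1 ha, map_zero]
      exact zero_mem _
  have hbd : ∀ i, 2 * n + 1 ≤ i → gr i = ⊥ := by
    intro i hi
    rw [hgr]
    apply hn
    rw [lt_abs]
    right
    omega
  have hHL : HardLef gr n L := by
    intro i hi
    constructor
    · intro a ha h0
      have e : (n : ℤ) - i = ((n - i : ℕ) : ℤ) := by omega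
      rw [hgr, e] at ha
      exact inj _ _ ha h0
    · intro b hb
      rw [hgr, show (n : ℤ) - ((2 * n - i : ℕ) : ℤ) = -((n - i : ℕ) : ℤ) by omega] at hb
      obtain ⟨x, hx, hxy⟩ := surj _ _ hb
      refine ⟨x, ?_, hxy⟩
      rw [hgr, show (n : ℤ) - i = ((n - i : ℕ) : ℤ) by omega]
      exact hx
  obtain ⟨f, hf, -⟩ := Pool.Agent.H914.exists_sl2 hint hom hbd hHL
  refine ⟨f, ?_⟩
  have hwt : Pool.Agent.H914.wt hint n = -(dia hC (fun c => (c : K))) := by
    apply gr_ext hint
    intro j a ha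
    have h1 : dia hC (fun c => (c : K)) a = (((n : ℤ) - j : ℤ) : K) • a := dia_apply hC _ ha
    rw [LinearMap.neg_apply, h1, Pool.Agent.H914.wt, Pool.Agent.H914.scal_apply hint _ ha,
      ← neg_smul, Pool.Agent.H914.node]
    congr 1
    push_cast
    ring
  rw [← hwt]
  exact hf

namespace Setup

variable {U M E : ℤ → Submodule K V} {N₁ N₂ : Module.End K V} (s : Setup U M E N₁ N₂)

/-- The second degree. -/
noncomputable def Z : Module.End K V := s.T - s.Y

/-- The eigenspaces of the second degree. -/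
noncomputable def C (c : ℤ) : Submodule K V := s.Z.eigenspace (c : K)

lemma mem_C {b a : ℤ} {x : V} (hx : x ∈ E b) (hx' : x ∈ U a) : x ∈ s.C (a - b) := by
  rw [C, Module.End.mem_eigenspace_iff, Z, LinearMap.sub_apply, s.T_apply hx', s.Y_apply hx,
    ← sub_smul]
  push_cast
  rfl

lemma C_int : DirectSum.IsInternal s.C := by
  apply isInternal_eig s.Z (c := fun c : ℤ => (c : K)) (fun _ _ h => Int.cast_injective h)
  rw [eq_top_iff]
  intro x _
  apply mem_of_prj_mem s.S.int
  intro b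
  apply mem_of_prj_mem s.D.int
  intro a
  exact Submodule.mem_iSup_of_mem (a - b)
    (s.mem_C (s.hE b a _ (prj_mem s.S.int b x)) (prj_mem _ _ _))

lemma prj_C {c : ℤ} {x : V} (hx : x ∈ s.C c) (b : ℤ) : prj s.S.int b x ∈ U (b + c) := by
  apply s.mem_U
  have h1 : s.T x = (c : K) • x + s.Y x := by
    have := Module.End.mem_eigenspace_iff.1 hx
    rw [Z, LinearMap.sub_apply] at this
    rw [← this]; abel
  rw [← s.prjE_T, h1, map_add, map_smul]
  have h2 : prj s.S.int b (s.Y x) = (b : K) • prj s.S.int b x := prj_dia _ _ _ _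
  rw [h2, ← add_smul]
  congr 1
  push_cast
  ring

lemma prj_L₂ (b : ℤ) (x : V) (k : ℕ) :
    prj s.S.int b ((s.L₂ ^ k) x) = (s.L₂ ^ k) (prj s.S.int b x) :=
  prj_map s.S.int s.S.int (s.L₂ ^ k) (s := id) Function.injective_id
    (fun i x hx => (s.L₂_pow hx k).1) b x

lemma C_L₂ (c : ℤ) (x : V) (hx : x ∈ s.C c) : s.L₂ x ∈ s.C (c - 2) := by
  have h1 := Module.End.mem_eigenspace_iff.1 hx
  rw [C, Module.End.mem_eigenspace_iff]
  rw [Z, LinearMap.sub_apply] at h1 ⊢
  rw [s.T_L₂, s.Y_L₂, show s.L₂ (s.T x) - (2 : K) • s.L₂ x - s.L₂ (s.Y x) =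
    s.L₂ (s.T x - s.Y x) - (2 : K) • s.L₂ x by rw [map_sub]; abel, h1, map_smul, ← sub_smul]
  push_cast
  rfl

lemma C_inj (c : ℕ) (x : V) (hx : x ∈ s.C c) (h : (s.L₂ ^ c) x = 0) : x = 0 := by
  apply eq_zero_of_prj s.S.int
  intro b
  apply s.HL2_inj b c (prj_mem _ _ _) (s.prj_C hx b)
  rw [← s.prj_L₂, h, map_zero]

lemma C_surj (c : ℕ) (y : V) (hy : y ∈ s.C (-c)) : ∃ x ∈ s.C c, (s.L₂ ^ c) x = y := by
  have h1 : ∀ b : ℤ, ∃ x ∈ E b, x ∈ U (b + c) ∧ (s.L₂ ^ c) x = prj s.S.int b y := by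
    intro b
    apply s.HL2_surj b c (prj_mem _ _ _)
    have := s.prj_C hy b
    rwa [show b + -(c : ℤ) = b - c by ring] at this
  choose z hz hz' hzy using h1
  have hmem : y ∈ ⨆ b, E b := by rw [s.S.int.submodule_iSup_eq_top]; trivial
  obtain ⟨g, hg, hgy⟩ := (Submodule.mem_iSup_iff_exists_finsupp _ _).1 hmem
  have h2 : ∀ b ∈ g.support, prj s.S.int b y = g b := by
    intro b hb
    rw [← hgy, Finsupp.sum, map_sum, Finset.sum_eq_single b]
    · exact prj_same _ (hg b)
    · intro j _ hj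
      exact prj_ne _ (hg j) hj
    · intro hn
      exact absurd hb hn
  refine ⟨∑ b ∈ g.support, z b, ?_, ?_⟩
  · apply Submodule.sum_mem
    intro b _
    have := s.mem_C (hz b) (hz' b)
    rwa [show b + (c : ℤ) - b = c by ring] at this
  · rw [map_sum, ← hgy, Finsupp.sum]
    apply Finset.sum_congr rfl
    intro b hb
    rw [hzy, h2 b hb]

/-- The hard Lefschetz property of the sum of the leading parts. -/
theorem bij [Module.Finite K V] (a : ℕ) :
    (∀ x, x ∈ U a → ((s.L₁ + s.L₂) ^ a) x = 0 → x = 0) ∧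
    ∀ y, y ∈ U (-a) → ∃ x ∈ U a, ((s.L₁ + s.L₂) ^ a) x = y := by
  obtain ⟨f₁, t₁⟩ := exists_triple s.S.int (L := s.L₁) (fun c x hx => s.L₁_E hx)
    (fun c x hx => s.HL1_inj c hx) (fun c y hy => s.HL1_surj c hy)
  obtain ⟨f₂, t₂⟩ := exists_triple s.C_int (L := s.L₂) s.C_L₂ s.C_inj s.C_surj
  have hZ : dia s.C_int (fun c => (c : K)) = s.Z := by
    apply gr_ext s.C_int
    intro c x hx
    rw [dia_apply _ _ hx]
    exact (Module.End.mem_eigenspace_iff.1 hx).symm
  rw [hZ] at t₂
  have hY : dia s.S.int (fun c => (c : K)) = s.Y := rfl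
  rw [hY] at t₁
  have hh : Commute (-s.Y) (-s.Z) := by
    apply Commute.neg_left
    apply Commute.neg_right
    apply LinearMap.ext
    intro x
    rw [Module.End.mul_apply, Module.End.mul_apply, Z, LinearMap.sub_apply, LinearMap.sub_apply,
      map_sub, s.Y_T]
  have he : Commute (-s.Y) s.L₂ := by
    apply Commute.neg_left
    apply LinearMap.ext
    intro x
    rw [Module.End.mul_apply, Module.End.mul_apply, s.Y_L₂]
  have eh : Commute s.L₁ (-s.Z) := by
    apply Commute.neg_right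
    apply LinearMap.ext
    intro x
    rw [Module.End.mul_apply, Module.End.mul_apply, Z, LinearMap.sub_apply, LinearMap.sub_apply,
      s.T_L₁, s.Y_L₁, map_sub]
    abel
  have ee : Commute s.L₁ s.L₂ := by
    apply LinearMap.ext
    intro x
    rw [Module.End.mul_apply, Module.End.mul_apply, s.L_comm]
  obtain ⟨h1, h2⟩ := sl2_two t₁ t₂ hh he eh ee a
  have hsum : ∀ x, (-s.Y + -s.Z) x = -(s.T x) := by
    intro x
    rw [Z, LinearMap.add_apply, LinearMap.neg_apply, LinearMap.neg_apply, LinearMap.sub_apply]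
    abel
  constructor
  · intro x hx h0
    apply h1 x _ h0
    rw [hsum, s.T_apply hx, neg_smul]
    push_cast
    rfl
  · intro y hy
    obtain ⟨x, hx, hxy⟩ := h2 y (by
      rw [hsum, s.T_apply hy, ← neg_smul]
      push_cast
      rw [neg_neg])
    refine ⟨x, ?_, hxy⟩
    apply s.mem_U
    rw [hsum, neg_smul, neg_inj] at hx
    rw [hx]
    push_cast
    rfl

end Setup

end Pool.Agent.W5h86.MW
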