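import Pool.Agent.W5h86.MW.Resc

/-!
# The hard Lefschetz property for almost all members of the pencil
-/

set_option autoImplicit false
set_option linter.unusedSectionVars false
set_option linter.unusedVariables false

open Module Polynomial

namespace Pool.Agent.W5h86.MW

variable {K : Type*} [Field K] [CharZero K] {V : Type*} [AddCommGroup V] [Module K V]

/-- At some parameter the operator `N₂ + t N₁` has the hard Lefschetz property. -/
lemma Two.exists_HLat [Module.Finite K V] {U M : ℤ → Submodule K V} {N₁ N₂ : Module.End K V}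
    (D : Two U M N₁ N₂) (a : ℕ) : ∃ t : K, HLat U a (N₂ + t • N₁) := by
  classical
  obtain ⟨E, S, hE⟩ := exists_split D
  let s : Setup U M E N₁ N₂ := ⟨D, S, hE⟩
  obtain ⟨n, hn⟩ := exists_bound S.int
  have h0 : HLat U a (s.R (2 * n + 1) 0) := by
    rw [s.R_zero (by omega)]
    exact s.bij a
  have hF : FF (2 * n + 1) (s.R (2 * n + 1)) := by
    have h1 : ∀ k : ℕ, PF k (fun ε : K => ε ^ k) := fun k => ⟨X ^ k, by simp, fun t => by simp⟩
    have h2 := FF.sum (d := 2 * n + 1) (Finset.range (2 * n + 1)) (A := fun k ε => ε ^ k • s.co k)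
      (fun k hk => FF.smul (e := 2 * n + 1) (d := 0) ((h1 k).mono (le_of_lt (Finset.mem_range.1 hk)))
        (FF.const 0 (s.co k)))
    exact h2
  obtain ⟨P, hP, -, hPe⟩ := pencil_HL hF (fun ε a x hx => s.R_U _ ε hx) a h0
  obtain ⟨ε, hε⟩ : ∃ ε : K, ε ∉ (P * X).roots.toFinset := Infinite.exists_notMem_finset _
  have hPX : P * X ≠ 0 := mul_ne_zero hP X_ne_zero
  rw [Multiset.mem_toFinset, mem_roots hPX, IsRoot.def, eval_mul, eval_X, mul_eq_zero, not_or] at hε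
  obtain ⟨hε1, hε2⟩ := hε
  obtain ⟨h1, h2⟩ := hPe ε hε1
  refine ⟨ε ^ (-2 : ℤ), ?_, ?_⟩
  · intro x hx h3
    have h4 := s.R_Dl_pow hn hε2 a x
    rw [h3, map_zero] at h4
    have h5 := h1 _ (s.Dl_U ε hx) h4
    have h6 := s.Dl_inv hε2 x
    rw [h5, map_zero] at h6
    exact h6.symm
  · intro y hy
    obtain ⟨x, hx, hxy⟩ := h2 _ (s.Dl_U ε hy)
    have hε3 : ε⁻¹ ≠ 0 := inv_ne_zero hε2
    refine ⟨s.Dl ε⁻¹ x, s.Dl_U _ hx, ?_⟩
    have h4 := s.R_Dl_pow hn hε2 a (s.Dl ε⁻¹ x)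
    have h5 : s.Dl ε (s.Dl ε⁻¹ x) = x := by
      have := s.Dl_inv hε3 x
      rwa [inv_inv] at this
    rw [h5, hxy] at h4
    have h6 := s.Dl_inv hε2 y
    have h7 := s.Dl_inv hε2 (((N₂ + (ε ^ (-2 : ℤ)) • N₁) ^ a) (s.Dl ε⁻¹ x))
    rw [← h7, ← h4, h6]

end Pool.Agent.W5h86.MW
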