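import Pool.Agent.W5h86.MW.Memb
import Pool.Agent.W5h86.MW.Main
import Pool.Agent.Y143.Pure

/-!
# Annuli with a mw pure component at one end
-/

set_option autoImplicit false
set_option linter.unusedSectionVars false
set_option linter.unusedVariables false
set_option linter.unusedTactic false

open Module

namespace Pool.Agent.W5h86.MW

open Pool.Agent.Y143 (IsWeilNumber IsMonodromyFiltration IsMWPure)
open Pool.Agent.Y163.MW (weil_unique)

universe u v

section Filt

variable {Ω : Type u} [Field Ω] [CharZero Ω] [IsAlgClosed Ω] {V : Type v} [AddCommGroup V]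
  [Module Ω V] [Module.Finite Ω V] {Q : ℕ} {F : Module.End Ω V} {W : ℤ → Submodule Ω V}

/-- A filtration with pure graded pieces. -/
structure PureFilt (Q : ℕ) (F : Module.End Ω V) (W : ℤ → Submodule Ω V) : Prop where
  mono : Monotone W
  bot : ∃ w, W w = ⊥
  top : ∃ w, W w = ⊤
  map : ∀ w x, x ∈ W w → F x ∈ W w
  weights : ∀ (w : ℤ) (α : Ω) (x : V), x ∈ W w → x ∉ W (w - 1) →
    F x - α • x ∈ W (w - 1) → IsWeilNumber Q w α

lemma PureFilt.allWeil (D : PureFilt Q F W) : AllWeil Q F := by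
  intro α x hx hxα
  obtain ⟨b, hb, hb'⟩ := exists_step D.mono D.bot D.top hx
  refine ⟨b, D.weights b α x hb hb' ?_⟩
  rw [hxα, sub_self]
  exact zero_mem _

lemma PureFilt.mem (hQ : 1 < Q) (D : PureFilt Q F W) {w : ℤ} {x : V} (hx : x ∈ ws Q F w) :
    x ∈ W w := by
  refine Submodule.iSup_induction _ (motive := fun x => x ∈ W w) hx ?_ (zero_mem _)
    (fun _ _ h1 h2 => add_mem h1 h2)
  rintro ⟨α, hα⟩ y hy
  by_contra hcon
  have hy0 : y ≠ 0 := fun h => hcon (h ▸ zero_mem _)
  obtain ⟨b, hb, hb'⟩ := exists_step D.mono D.bot D.top hy0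
  have hlt : w < b := by
    by_contra hle
    exact hcon (D.mono (by omega) hb)
  have hy' := (Module.End.mem_maxGenEigenspace _ _ _).1 hy
  classical
  have hex : ∃ k : ℕ, ((F - α • (1 : Module.End Ω V)) ^ k) y ∈ W (b - 1) := by
    obtain ⟨k, hk⟩ := hy'
    exact ⟨k, by change ((F - α • (1 : Module.End Ω V)) ^ k) y = 0 at hk; rw [hk]; exact zero_mem _⟩
  set k := Nat.find hex with hk
  have hk0 : ((F - α • (1 : Module.End Ω V)) ^ k) y ∈ W (b - 1) := Nat.find_spec hex
  have hk1 : k ≠ 0 := by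
    intro h
    rw [h] at hk0
    exact hb' (by simpa using hk0)
  obtain ⟨j, hj⟩ := Nat.exists_eq_succ_of_ne_zero hk1
  have hmem : ∀ i : ℕ, ((F - α • (1 : Module.End Ω V)) ^ i) y ∈ W b := by
    intro i
    induction i with
    | zero => simpa using hb
    | succ i ih =>
      rw [pow_succ', Module.End.mul_apply, LinearMap.sub_apply, LinearMap.smul_apply,
        Module.End.one_apply]
      exact sub_mem (D.map _ _ ih) (Submodule.smul_mem _ _ ih)
  have h1 : IsWeilNumber Q b α := by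
    refine D.weights b α _ (hmem j) (Nat.find_min hex (by rw [← hk]; omega)) ?_
    have := hk0
    rw [hj, Nat.succ_eq_add_one, pow_succ', Module.End.mul_apply, LinearMap.sub_apply,
      LinearMap.smul_apply, Module.End.one_apply] at this
    exact this
  have h2 := weil_unique hQ h1 hα
  omega

lemma PureFilt.disj (hQ : 1 < Q) (D : PureFilt Q F W) {w : ℤ} {x : V} (hx : x ∈ ws Q F w)
    (hx' : x ∈ W (w - 1)) : x = 0 := by
  by_contra h0
  obtain ⟨y, hy, hy0, β, hβ⟩ := exists_eig (Φ := F) (P := ws Q F w ⊓ W (w - 1))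
    (fun z hz => ⟨ws_stable hz.1, D.map _ _ hz.2⟩)
    (fun hb => h0 ((Submodule.mem_bot Ω).1 (hb ▸ ⟨hx, hx'⟩)))
  have h1 := ws_eig hy.1 hy0 hβ
  obtain ⟨b, hb, hb'⟩ := exists_step D.mono D.bot D.top hy0
  have h2 := D.weights b β y hb hb' (by rw [hβ, sub_self]; exact zero_mem _)
  have h3 := weil_unique hQ h1 h2
  exact hb' (D.mono (by omega) hy.2)

lemma PureFilt.prj_zero (hQ : 1 < Q) (D : PureFilt Q F W) {a w : ℤ} {x : V} (hx : x ∈ W a)
    (h : a < w) : prj (ws_internal hQ D.allWeil) w x = 0 :=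
  D.disj hQ (prj_mem _ _ _) (D.mono (by omega) (prj_ws_stable hQ D.allWeil (D.map a) w hx))

lemma PureFilt.of_prj (hQ : 1 < Q) (D : PureFilt Q F W) {a : ℤ} {x : V} (hx : x ∈ W a)
    (h : prj (ws_internal hQ D.allWeil) a x = 0) : x ∈ W (a - 1) := by
  apply mem_of_prj_mem (ws_internal hQ D.allWeil)
  intro w
  rcases lt_trichotomy w a with h1 | h1 | h1
  · exact D.mono (by omega) (D.mem hQ (prj_mem _ w x))
  · rw [h1, h]; exact zero_mem _
  · rw [D.prj_zero hQ hx h1]; exact zero_mem _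

/-- If `(F, N)` is mw pure, the weight filtration is the monodromy filtration. -/
lemma PureFilt.monodromy (hQ : 1 < Q) (D : PureFilt Q F W) {i : ℤ} {N : Module.End Ω V}
    (hN : ∀ x, N (F x) = (Q : Ω) • F (N x)) (hNW : ∀ w x, x ∈ W w → N x ∈ W (w - 2))
    (hp : IsMWPure Q i F N) : IsMonodromyFiltration N (fun b => W (i + b)) := by
  have HL := pure_HL hQ hN hp
  have hI := ws_internal hQ D.allWeil
  have hdeg : ∀ (k : ℕ) (w : ℤ), ∀ z ∈ ws Q F w, (N ^ k) z ∈ ws Q F (w - 2 * k) := by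
    intro k
    induction k with
    | zero => intro w z hz; simpa using hz
    | succ k ih =>
      intro w z hz
      rw [pow_succ', Module.End.mul_apply]
      have := N_ws hQ hN (ih w z hz)
      rwa [show w - 2 * (k : ℤ) - 2 = w - 2 * ((k + 1 : ℕ) : ℤ) by push_cast; ring] at this
  have hp' : ∀ (k : ℕ) (w : ℤ) x, prj hI (w - 2 * k) ((N ^ k) x) = (N ^ k) (prj hI w x) := by
    intro k w x
    exact prj_map hI hI (N ^ k) (s := fun a => a - 2 * k) (fun _ _ h => by simpa using h)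
      (hdeg k) w x
  refine ⟨fun a b hab => D.mono (by omega), ?_, ?_, ?_, ?_, ?_⟩
  · obtain ⟨w, hw⟩ := D.bot
    exact ⟨w - i, by rw [show i + (w - i) = w by ring, hw]⟩
  · obtain ⟨w, hw⟩ := D.top
    exact ⟨w - i, by rw [show i + (w - i) = w by ring, hw]⟩
  · intro a x hx
    change N x ∈ W (i + (a - 2))
    rw [show i + (a - 2) = i + a - 2 by ring]
    exact hNW _ _ hx
  · intro a x hx h0
    change x ∈ W (i + a) at hx
    change (N ^ a) x ∈ W (i + (-a - 1)) at h0
    change x ∈ W (i + (a - 1))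
    rw [show i + ((a : ℤ) - 1) = i + a - 1 by ring]
    apply D.of_prj hQ hx
    apply (HL a).1 _ (prj_mem _ _ _)
    rw [← hp']
    exact D.prj_zero hQ h0 (by omega)
  · intro a y hy
    change y ∈ W (i + -a) at hy
    obtain ⟨x, hx, hxy⟩ := (HL a).2 (prj hI (i + -a) y) (prj_mem _ _ _)
    refine ⟨x, D.mem hQ hx, ?_⟩
    change y - (N ^ a) x ∈ W (i + (-a - 1))
    rw [show i + (-(a : ℤ) - 1) = i + -a - 1 by ring]
    apply D.of_prj hQ
    · apply sub_mem hy
      rw [hxy]
      exact D.mem hQ (prj_mem _ _ _)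
    · rw [map_sub, hxy, prj_prj, sub_self]

end Filt

section Graph

variable {Ω : Type u} [Field Ω] [CharZero Ω] [IsAlgClosed Ω] {V E : Type v} [AddCommGroup V]
  [Module Ω V] [Module.Finite Ω V] [AddCommGroup E] [Module Ω E] [Module.Finite Ω E] {q : ℕ}
  {Φ : Module.End Ω V} {Ψ : Module.End Ω E} {s : Submodule Ω (V × E)}

lemma graph_allWeil (hΦ : AllWeil q Φ) (hΨ : AllWeil q Ψ) : AllWeil q (Φ.prodMap Ψ) := by
  rintro α ⟨v, x⟩ hne h
  have h1 : Φ v = α • v := congrArg Prod.fst h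
  have h2 : Ψ x = α • x := congrArg Prod.snd h
  by_cases hv : v = 0
  · have hx : x ≠ 0 := fun hx => hne (by rw [hv, hx]; rfl)
    exact hΨ α x hx h2
  · exact hΦ α v hv h1

lemma graph_prj (hq : 1 < q) (hΦ : AllWeil q Φ) (hΨ : AllWeil q Ψ) (hs : IsCompatibleWith s Φ Ψ)
    (w : ℤ) {v : V} {x : E} (h : (v, x) ∈ s) :
    (prj (ws_internal hq hΦ) w v, prj (ws_internal hq hΨ) w x) ∈ s := by
  have hT := graph_allWeil hΦ hΨ
  have hI := ws_internal hq hT
  have h1 := prj_ws_stable hq hT (P := s) (fun z hz => hs z.1 z.2 hz) w h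
  have h2 := prj_map hI (ws_internal hq hΦ) (LinearMap.fst Ω V E) (s := id) Function.injective_id
    (fun j z hz => by
      have := ws_map (by omega : q ≠ 0) (f := LinearMap.fst Ω V E) 0 (Φ' := Φ)
        (fun x => by rw [zpow_zero, one_smul]; rfl) hz
      rwa [show j + 2 * 0 = j by ring] at this) w (v, x)
  have h3 := prj_map hI (ws_internal hq hΨ) (LinearMap.snd Ω V E) (s := id) Function.injective_id
    (fun j z hz => by
      have := ws_map (by omega : q ≠ 0) (f := LinearMap.snd Ω V E) 0 (Φ' := Ψ)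
        (fun x => by rw [zpow_zero, one_smul]; rfl) hz
      rwa [show j + 2 * 0 = j by ring] at this) w (v, x)
  have h4 : (prj (ws_internal hq hΦ) w v, prj (ws_internal hq hΨ) w x) = prj hI w (v, x) :=
    Prod.ext h2 h3
  rw [h4]
  exact h1

lemma graph_pow {T : Module.End Ω V} {T' : Module.End Ω E} (hs : IsCompatibleWith s T T') (k : ℕ)
    {v : V} {x : E} (h : (v, x) ∈ s) : ((T ^ k) v, (T' ^ k) x) ∈ s := by
  induction k with
  | zero => simpa using h
  | succ k ih =>
    rw [pow_succ', Module.End.mul_apply, pow_succ', Module.End.mul_apply]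
    exact hs _ _ ih

end Graph

namespace Pencil

variable {Ω : Type u} [Field Ω] [CharZero Ω] [IsAlgClosed Ω] {q : ℕ} (P : Pencil.{u, v} Ω q)

/-- The hard Lefschetz property for some parameter. -/
def HasHL (i : ℤ) : Prop :=
  AllWeil q P.Φ ∧ ∀ a : ℕ, ∃ t : Ω, HLat (fun a => ws q P.Φ (i + a)) a (P.tot t)

variable {P}

lemma HasHL.radii (hq : 1 < q) {i : ℤ} (h : P.HasHL i) :
    ∃ X : Finset ℚ, 2 * X.card ≤ (finrank Ω P.V) ^ 2 ∧ P.IsPureOutside i X :=
  P.exists_radii hq h.1 h.2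

lemma HasHL.zero (hq : 1 < q) {i : ℤ} (h : P.HasHL i) (h2 : P.N₂ = 0) :
    P.IsPureOutside i {0} := by
  obtain ⟨hall, hex⟩ := h
  intro m hm e f Φ' N' hmem
  have hm0 : (m : Ω) ≠ 0 := by
    intro h0
    apply hm
    rw [Finset.mem_singleton]
    exact_mod_cast h0
  apply P.member_pure hq hall _ hmem
  intro a
  obtain ⟨t, ht⟩ := hex a
  have e1 : ∀ t : Ω, P.tot t = t • P.N₁ := by
    intro t
    rw [Pencil.tot, h2, zero_add]
  rw [e1] at ht ⊢
  by_cases h0 : t = 0
  · rw [h0, zero_smul] at ht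
    rcases Nat.eq_zero_or_pos a with ha | ha
    · subst ha
      exact ⟨fun x _ hx => by simpa using hx, fun y hy => ⟨y, by simpa using hy, by simp⟩⟩
    · have hz : (0 : Module.End Ω P.V) ^ a = 0 := zero_pow ha.ne'
      constructor
      · intro x hx _
        exact ht.1 x hx (by rw [hz]; rfl)
      · intro y hy
        obtain ⟨x, hx, hxy⟩ := ht.2 y hy
        rw [hz] at hxy
        exact ⟨0, zero_mem _, by rw [map_zero]; exact hxy⟩
  · have := HLat_smul (e := (m : Ω) * t⁻¹) (mul_ne_zero hm0 (inv_ne_zero h0)) ht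
    rwa [smul_smul, mul_assoc, inv_mul_cancel₀ h0, mul_one] at this

lemma HasPureMember.HL (hq : 1 < q) {i : ℤ} (h : P.HasPureMember i) : P.HasHL i := by
  obtain ⟨m, e, f, Φ', N', hm, hp⟩ := h
  obtain ⟨hall, h⟩ := P.HL_of_member hq hm hp
  exact ⟨hall, fun a => ⟨(m : Ω), h a⟩⟩

/-- An annulus with a mw pure component at one end. -/
lemma IsNearPureComponent.HL (hq : 1 < q) {i : ℤ} (h : P.IsNearPureComponent i) : P.HasHL i := by
  classical
  obtain ⟨D, hD, d, F, hF, hp⟩ := h
  have hQ : 1 < q ^ d := Nat.one_lt_pow hF.pos.ne' hq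
  have hPF : PureFilt (q ^ d) F D.W := ⟨hD.mono, hD.bot, hD.top, hF.map_W, hF.weights⟩
  have hmon := hPF.monodromy hQ hF.N₂_F hD.map_N₂ hp
  have hallG : ∀ w, AllWeil q (D.frob w) := fun w => pure_allWeil (hD.pure w)
  have hΦW : ∀ w x, x ∈ D.W w → P.Φ x ∈ D.W w := by
    intro w x hx
    obtain ⟨y, hy⟩ := (hD.graded w).left x hx
    exact (hD.graded w).mem _ _ (hD.gr_Φ w _ _ hy)
  have hN₁W : ∀ w x, x ∈ D.W w → P.N₁ x ∈ D.W w := by
    intro w x hx
    obtain ⟨y, hy⟩ := (hD.graded w).left x hx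
    exact (hD.graded w).mem _ _ (hD.gr_N₁ w _ _ hy)
  have hall : AllWeil q P.Φ := by
    intro α v hv hvα
    obtain ⟨b, hb, hb'⟩ := exists_step hD.mono hD.bot hD.top hv
    obtain ⟨x, hx⟩ := (hD.graded b).left v hb
    have hx0 : x ≠ 0 := fun h => hb' (((hD.graded b).ker v x hx).2 h)
    have h2 : (P.Φ v - α • v, D.frob b x - α • x) ∈ D.gr b :=
      sub_mem (hD.gr_Φ b _ _ hx) (Submodule.smul_mem _ α hx)
    have h3 : D.frob b x - α • x = 0 := by
      apply ((hD.graded b).ker _ _ h2).1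
      rw [hvα, sub_self]
      exact zero_mem _
    exact hallG b α x hx0 (sub_eq_zero.1 h3)
  have hI := ws_internal hq hall
  -- the relation of the local monodromy with the Frobenius on the graded pieces
  have hrel : ∀ w x, D.mon w (D.frob w x) = (q : Ω) • D.frob w (D.mon w x) := by
    intro w x
    obtain ⟨v, hv⟩ := (hD.graded w).right x
    have h1 := hD.gr_N₁ w _ _ (hD.gr_Φ w _ _ hv)
    have h2 := Submodule.smul_mem _ (q : Ω) (hD.gr_Φ w _ _ (hD.gr_N₁ w _ _ hv))
    have h3 := sub_mem h1 h2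
    rw [Prod.smul_mk, Prod.mk_sub_mk, P.N₁_Φ, sub_self] at h3
    exact sub_eq_zero.1 (((hD.graded w).ker _ _ h3).1 (zero_mem _))
  have HG : ∀ w (c : ℕ), HLat (fun a => ws q (D.frob w) (w + a)) c (D.mon w) :=
    fun w => pure_HL hq (hrel w) (hD.pure w)
  have T : Two (fun a => ws q P.Φ (i + a)) (fun b => D.W (i + b)) P.N₂ P.N₁ := by
    refine
      { int := shift_internal hI i
        mono := hmon.mono
        bot := hmon.bot
        top := hmon.top
        hom := ?_
        N1U := ?_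
        N2U := ?_
        comm := fun x => (P.comm x).symm
        N1M := hmon.map
        N2M := fun b x hx => hN₁W _ x hx
        inj1 := hmon.inj
        surj1 := hmon.surj
        inj2 := ?_
        surj2 := ?_ }
    · intro b a x hx
      rw [prj_shift]
      exact prj_ws_stable hq hall (hΦW _) _ hx
    · intro a x hx
      have := N_ws hq P.N₂_Φ hx
      rwa [show (i : ℤ) + a - 2 = i + (a - 2) by ring] at this
    · intro a x hx
      have := N_ws hq P.N₁_Φ hx
      rwa [show (i : ℤ) + a - 2 = i + (a - 2) by ring] at this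
    · intro b c x hx hxU h0
      change x ∈ D.W (i + b) at hx
      change x ∈ ws q P.Φ (i + (b + c)) at hxU
      change (P.N₁ ^ c) x ∈ D.W (i + (b - 1)) at h0
      change x ∈ D.W (i + (b - 1))
      rw [show i + (b - 1) = i + b - 1 by ring] at h0 ⊢
      rw [show i + (b + c) = i + b + c by ring] at hxU
      obtain ⟨y, hy⟩ := (hD.graded (i + b)).left x hx
      have h1 := graph_prj hq hall (hallG (i + b)) (hD.gr_Φ (i + b)) (i + b + c) hy
      rw [prj_same _ hxU] at h1
      have h2 := graph_pow (hD.gr_N₁ (i + b)) c h1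
      have h3 := ((hD.graded (i + b)).ker _ _ h2).1 h0
      have h4 := (HG (i + b) c).1 _ (prj_mem _ _ _) h3
      rw [h4] at h1
      exact ((hD.graded (i + b)).ker _ _ h1).2 rfl
    · intro b c y hy hyU
      change y ∈ D.W (i + b) at hy
      change y ∈ ws q P.Φ (i + (b - c)) at hyU
      rw [show i + (b - c) = i + b + -c by ring] at hyU
      obtain ⟨z, hz⟩ := (hD.graded (i + b)).left y hy
      have h1 := graph_prj hq hall (hallG (i + b)) (hD.gr_Φ (i + b)) (i + b + -c) hz
      rw [prj_same _ hyU] at h1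
      obtain ⟨x, hx, hxz⟩ := (HG (i + b) c).2 _ (prj_mem (ws_internal hq (hallG (i + b)))
        (i + b + -c) z)
      obtain ⟨v, hv⟩ := (hD.graded (i + b)).right x
      have h2 := graph_prj hq hall (hallG (i + b)) (hD.gr_Φ (i + b)) (i + b + c) hv
      rw [prj_same _ hx] at h2
      refine ⟨prj hI (i + b + c) v, (hD.graded (i + b)).mem _ _ h2, ?_, ?_⟩
      · have := prj_mem hI (i + b + c) v
        change prj hI (i + b + c) v ∈ ws q P.Φ (i + (b + c))
        rw [show i + (b + (c : ℤ)) = i + b + c by ring]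
        exact this
      · change y - (P.N₁ ^ c) (prj hI (i + b + c) v) ∈ D.W (i + (b - 1))
        rw [show i + (b - 1) = i + b - 1 by ring]
        have h3 := sub_mem h1 (graph_pow (hD.gr_N₁ (i + b)) c h2)
        rw [hxz, Prod.mk_sub_mk, sub_self] at h3
        exact ((hD.graded (i + b)).ker _ _ h3).2 rfl
  -- exchange the roles of the two operators
  have hN1 : ∀ a x, x ∈ ws q P.Φ (i + a) → P.N₁ x ∈ ws q P.Φ (i + (a - 2)) := T.N2U
  have hN2 : ∀ a x, x ∈ ws q P.Φ (i + a) → P.N₂ x ∈ ws q P.Φ (i + (a - 2)) := T.N1U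
  obtain ⟨X, -, hX⟩ := exists_exceptional (shift_internal hI i) hN2 hN1 (fun a => T.exists_HLat a)
  obtain ⟨t, ht⟩ := Infinite.exists_notMem_finset (insert 0 X)
  rw [Finset.mem_insert, not_or] at ht
  refine ⟨hall, fun a => ⟨t⁻¹, ?_⟩⟩
  have h1 := HLat_smul (inv_ne_zero ht.1) (hX t ht.2 a)
  rwa [smul_add, smul_smul, inv_mul_cancel₀ ht.1, one_smul, add_comm] at h1

end Pencil

end Pool.Agent.W5h86.MW
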