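import Pool.Agent.W5h86.MW.Main

/-!
# The number of exceptional parameters
-/

set_option autoImplicit false
set_option linter.unusedSectionVars false
set_option linter.unusedVariables false

open Module Polynomial

namespace Pool.Agent.W5h86.MW

variable {K : Type*} [Field K] [CharZero K] {V : Type*} [AddCommGroup V] [Module K V]

lemma sum_finrank_le [Module.Finite K V] {ι : Type*} {U : ι → Submodule K V} (hU : iSupIndep U)
    (s : Finset ι) : ∑ i ∈ s, finrank K (U i) ≤ finrank K V := by
  classical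
  let φ : (∀ i : s, U i) →ₗ[K] V := ∑ i : s, (U i).subtype ∘ₗ LinearMap.proj i
  have hφ : ∀ f, φ f = ∑ i : s, (f i : V) := by
    intro f
    simp only [φ, LinearMap.sum_apply]
    rfl
  have hinj : Function.Injective φ := by
    rw [← LinearMap.ker_eq_bot, LinearMap.ker_eq_bot']
    intro f hf
    rw [hφ] at hf
    let v : ι → V := fun i => if h : i ∈ s then (f ⟨i, h⟩ : V) else 0
    have hv : ∀ i ∈ s, v i ∈ U i := by
      intro i hi
      simp only [v, dif_pos hi]
      exact (f ⟨i, hi⟩).2
    have hsum : ∑ i ∈ s, v i = 0 := by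
      rw [← hf, ← Finset.sum_attach]
      apply Finset.sum_congr rfl
      intro i _
      simp only [v, dif_pos i.2]
    have h1 := (iSupIndep_iff_finsetSum_eq_zero_imp_eq_zero U).1 hU s v hv hsum
    funext i
    apply Subtype.ext
    have h2 := h1 i i.2
    simp only [v, dif_pos i.2] at h2
    exact h2
  have h3 := LinearMap.finrank_le_finrank_of_injective hinj
  rw [Module.finrank_pi_fintype] at h3
  rw [← Finset.sum_attach]
  exact h3

section

variable {U : ℤ → Submodule K V} {A : Module.End K V}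

lemma HLat.finrank_eq [Module.Finite K V] (hA : ∀ a x, x ∈ U a → A x ∈ U (a - 2)) {a : ℕ}
    (h : HLat U a A) : finrank K (U a) = finrank K (U (-a)) := by
  have hm : ∀ x ∈ U a, (A ^ a) x ∈ U (-a) := by
    intro x hx
    have := pow_deg hA a hx
    rwa [show (a : ℤ) - 2 * a = -a by ring] at this
  let B : U a →ₗ[K] U (-a) := (A ^ a).restrict hm
  have hb : Function.Bijective B := by
    constructor
    · rw [← LinearMap.ker_eq_bot, LinearMap.ker_eq_bot']
      rintro ⟨x, hx⟩ h0
      exact Subtype.ext (h.1 x hx (congrArg Subtype.val h0))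
    · rintro ⟨y, hy⟩
      obtain ⟨x, hx, hxy⟩ := h.2 y hy
      exact ⟨⟨x, hx⟩, Subtype.ext hxy⟩
  exact (LinearEquiv.ofBijective B hb).finrank_eq

lemma HLat.bound [Module.Finite K V] (hU : iSupIndep U) (hA : ∀ a x, x ∈ U a → A x ∈ U (a - 2))
    {a : ℕ} (h : HLat U a A) (hne : U a ≠ ⊥) : a + 1 ≤ finrank K V := by
  classical
  obtain ⟨x, hx, hx0⟩ := Submodule.exists_mem_ne_zero_of_ne_bot hne
  have h1 : ∀ k ∈ Finset.range (a + 1), 1 ≤ finrank K (U ((a : ℤ) - 2 * k)) := by
    intro k hk
    have hk' : k ≤ a := by have := Finset.mem_range.1 hk; omega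
    have h2 := pow_deg hA k hx
    have h3 : (A ^ k) x ≠ 0 := by
      intro h0
      apply hx0
      apply h.1 x hx
      rw [show a = (a - k) + k by omega, pow_add, Module.End.mul_apply, h0, map_zero]
    have : Nontrivial (U ((a : ℤ) - 2 * k)) := ⟨⟨_, h2⟩, 0, fun h4 => h3 (congrArg Subtype.val h4)⟩
    exact Module.finrank_pos
  have h2 := sum_finrank_le (hU.comp (f := fun k : ℕ => (a : ℤ) - 2 * k)
    (fun i j hij => by have : (a : ℤ) - 2 * i = a - 2 * j := hij; omega)) (Finset.range (a + 1))
  have h3 : ∑ k ∈ Finset.range (a + 1), 1 ≤ ∑ k ∈ Finset.range (a + 1),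
      finrank K (U ((a : ℤ) - 2 * k)) := Finset.sum_le_sum h1
  rw [Finset.sum_const, Finset.card_range, smul_eq_mul, mul_one] at h3
  exact h3.trans h2

end

/-- The number of parameters at which the hard Lefschetz property fails is at most half the square
of the dimension. -/
theorem exists_exceptional [Module.Finite K V] {U : ℤ → Submodule K V}
    (hU : DirectSum.IsInternal U) {N₁ N₂ : Module.End K V}
    (h1 : ∀ a x, x ∈ U a → N₁ x ∈ U (a - 2)) (h2 : ∀ a x, x ∈ U a → N₂ x ∈ U (a - 2))
    (hex : ∀ a : ℕ, ∃ t : K, HLat U a (N₂ + t • N₁)) :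
    ∃ X : Finset K, 2 * X.card ≤ (finrank K V) ^ 2 ∧
      ∀ t ∉ X, ∀ a : ℕ, HLat U a (N₂ + t • N₁) := by
  classical
  have hind : iSupIndep U :=
    ((DirectSum.isInternal_submodule_iff_iSupIndep_and_iSup_eq_top U).1 hU).1
  have hdeg : ∀ (t : K) (a : ℤ) x, x ∈ U a → (N₂ + t • N₁) x ∈ U (a - 2) := by
    intro t a x hx
    rw [LinearMap.add_apply, LinearMap.smul_apply]
    exact add_mem (h2 a x hx) (Submodule.smul_mem _ _ (h1 a x hx))
  have hP : ∀ a : ℕ, ∃ P : K[X], P ≠ 0 ∧ P.natDegree ≤ finrank K (U a) * (a * 1) ∧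
      ∀ t : K, P.eval t ≠ 0 → HLat U a (N₂ + t • N₁) := by
    intro a
    obtain ⟨t, ht⟩ := hex a
    exact pencil_HL (FF_line N₁ N₂) hdeg a ht
  choose P hP0 hPd hPe using hP
  set n := finrank K V with hn
  have hbig : ∀ a : ℕ, n ≤ a → ∀ t : K, HLat U a (N₂ + t • N₁) := by
    intro a ha t
    obtain ⟨t₀, ht₀⟩ := hex a
    have hbot : U a = ⊥ := by
      by_contra hne
      have := ht₀.bound hind (hdeg t₀) hne
      omega
    constructor
    · intro x hx _
      rw [hbot] at hx
      exact (Submodule.mem_bot K).1 hx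
    · intro y hy
      obtain ⟨x, hx, hxy⟩ := ht₀.2 y hy
      rw [hbot] at hx
      rw [(Submodule.mem_bot K).1 hx, map_zero] at hxy
      exact ⟨0, zero_mem _, by rw [map_zero]; exact hxy⟩
  refine ⟨(Finset.range n).biUnion (fun a => (P a).roots.toFinset), ?_, ?_⟩
  · have c1 : ((Finset.range n).biUnion (fun a => (P a).roots.toFinset)).card ≤
        ∑ a ∈ Finset.range n, finrank K (U a) * a := by
      refine Finset.card_biUnion_le.trans (Finset.sum_le_sum fun a _ => ?_)
      refine (Multiset.toFinset_card_le _).trans ((card_roots' _).trans ((hPd a).trans ?_))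
      rw [mul_one]
    have c2 : ∑ a ∈ Finset.range n, finrank K (U a) * a =
        ∑ a ∈ Finset.Ico 1 n, finrank K (U a) * a := by
      rw [Finset.range_eq_Ico]
      rcases Nat.eq_zero_or_pos n with h0 | h0
      · rw [h0]; simp
      · rw [Finset.sum_eq_sum_Ico_succ_bot h0]
        simp
    have c3 : 2 * ∑ a ∈ Finset.Ico 1 n, finrank K (U a) * a ≤
        n * ∑ a ∈ Finset.Ico 1 n, (finrank K (U a) + finrank K (U (-a))) := by
      rw [Finset.mul_sum, Finset.mul_sum]
      apply Finset.sum_le_sum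
      intro a ha
      obtain ⟨t₀, ht₀⟩ := hex a
      have e := ht₀.finrank_eq (hdeg t₀)
      rw [← e, ← two_mul]
      have ha' : a ≤ n := (Finset.mem_Ico.1 ha).2.le
      calc 2 * (finrank K (U a) * a) = a * (2 * finrank K (U a)) := by ring
        _ ≤ n * (2 * finrank K (U a)) := Nat.mul_le_mul_right _ ha'
    have c4 : ∑ a ∈ Finset.Ico 1 n, (finrank K (U a) + finrank K (U (-a))) ≤ n := by
      have inj1 : Set.InjOn (fun a : ℕ => (a : ℤ)) (Finset.Ico 1 n : Finset ℕ) :=
        fun a _ b _ h => by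
          have : (a : ℤ) = (b : ℤ) := h
          omega
      have inj2 : Set.InjOn (fun a : ℕ => -(a : ℤ)) (Finset.Ico 1 n : Finset ℕ) :=
        fun a _ b _ h => by
          have : -(a : ℤ) = -(b : ℤ) := h
          omega
      have hdisj : Disjoint ((Finset.Ico 1 n).image (fun a : ℕ => (a : ℤ)))
          ((Finset.Ico 1 n).image (fun a : ℕ => -(a : ℤ))) := by
        rw [Finset.disjoint_left]
        intro x hx hx'
        rw [Finset.mem_image] at hx hx'
        obtain ⟨a, ha, rfl⟩ := hx
        obtain ⟨b, hb, hb'⟩ := hx'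
        have := (Finset.mem_Ico.1 ha).1
        have := (Finset.mem_Ico.1 hb).1
        omega
      have := sum_finrank_le hind (((Finset.Ico 1 n).image (fun a : ℕ => (a : ℤ))) ∪
          ((Finset.Ico 1 n).image (fun a : ℕ => -(a : ℤ))))
      rw [Finset.sum_union hdisj, Finset.sum_image inj1, Finset.sum_image inj2,
        ← Finset.sum_add_distrib] at this
      exact this
    calc 2 * ((Finset.range n).biUnion (fun a => (P a).roots.toFinset)).card
        ≤ 2 * ∑ a ∈ Finset.Ico 1 n, finrank K (U a) * a := by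
          rw [← c2]; exact Nat.mul_le_mul_left 2 c1
      _ ≤ n * ∑ a ∈ Finset.Ico 1 n, (finrank K (U a) + finrank K (U (-a))) := c3
      _ ≤ n * n := Nat.mul_le_mul_left n c4
      _ = n ^ 2 := by ring
  · intro t ht a
    rcases lt_or_ge a n with ha | ha
    · apply hPe
      intro h0
      apply ht
      rw [Finset.mem_biUnion]
      exact ⟨a, Finset.mem_range.2 ha, Multiset.mem_toFinset.2 ((mem_roots (hP0 a)).2 h0)⟩
    · exact hbig a ha t

end Pool.Agent.W5h86.MW
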