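import Pool.Agent.Y143.Defs

/-!
# The members of a family near a degenerate fibre: definitions

`K` is a complete discretely valued field of characteristic zero with finite residue field with `q`
elements, `π` is a uniformizer, `Ω` is an algebraic closure of `ℚ_ℓ` (or any algebraically closed
field of characteristic zero). `S` is a smooth curve over `K`, `s₀` is a `K`-rational point with
local parameter `t`, and `X → S` is a projective morphism which is smooth over `S - s₀`, with `X`
smooth over `K`, whose fibre `Y` over `s₀` is a reduced divisor with strict normal crossings.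
`Y^(m)` is the disjoint union of the intersections of `m` different components of `Y`, a smooth
projective variety over `K`.

After a finite extension of `K` the inertia group of `K` acts unipotently on the cohomology of
the `Y^(m)` and on the nearby cohomology of `Y`.

Weil numbers, monodromy filtrations, mw purity, the columns of the weight spectral sequence and
graded pieces given by graphs are those of `Pool.Agent.Y143`.
-/

set_option autoImplicit false

open Module

namespace Pool.Agent.W5h86.MW

open Pool.Agent.Y143

universe u v

/-- The cohomology of the strata: `H a m = H^m(Y^(a+1)_{\bar K}, Ω)`, with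

* the restriction `res` (the alternating sum of the pull-backs for the inclusions
  `Y_I ⊂ Y_(I - i)`) and the Gysin map `gys` (the alternating sum of the push-forwards);
* the action `frob` of (a lift to the Galois group of `K` of) the geometric Frobenius and the
  logarithm `mon` of the monodromy, that is of the action of inertia. -/
structure Strata (Ω : Type u) [Field Ω] where
  H : ℕ → ℕ → Type v
  [addCommGroup : ∀ a m, AddCommGroup (H a m)]
  [module : ∀ a m, Module Ω (H a m)]
  [finite : ∀ a m, Module.Finite Ω (H a m)]
  res : ∀ a m, H a m →ₗ[Ω] H (a + 1) m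
  gys : ∀ a m, H (a + 1) m →ₗ[Ω] H a (m + 2)
  frob : ∀ a m, Module.End Ω (H a m)
  mon : ∀ a m, Module.End Ω (H a m)

attribute [instance] Strata.addCommGroup Strata.module Strata.finite

section Relations

variable {Ω : Type u} [Field Ω] {A B C D : Type v} [AddCommGroup A] [Module Ω A] [AddCommGroup B]
  [Module Ω B] [AddCommGroup C] [Module Ω C] [AddCommGroup D] [Module Ω D]

/-- The map `f` commutes with the operators `T` and `T'`. -/
def Commutes (f : A →ₗ[Ω] B) (T : Module.End Ω A) (T' : Module.End Ω B) : Prop :=
  ∀ x, T' (f x) = f (T x)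

/-- The relation `T' f = q f T`. -/
def Twists (q : ℕ) (f : A →ₗ[Ω] B) (T : Module.End Ω A) (T' : Module.End Ω B) : Prop :=
  ∀ x, T' (f x) = (q : Ω) • f (T x)

/-- The relation `ρ τ + τ' ρ' = 0`. -/
def AnticommutingSquare (τ : A →ₗ[Ω] B) (ρ : B →ₗ[Ω] D) (ρ' : A →ₗ[Ω] C) (τ' : C →ₗ[Ω] D) : Prop :=
  ∀ x, ρ (τ x) + τ' (ρ' x) = 0

/-- The graph `s` of a correspondence between `V` and `E` is compatible with the operators `T` and
`T'`. -/
def IsCompatibleWith {V E : Type v} [AddCommGroup V] [Module Ω V] [AddCommGroup E] [Module Ω E]
    (s : Submodule Ω (V × E)) (T : Module.End Ω V) (T' : Module.End Ω E) : Prop :=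
  ∀ v x, (v, x) ∈ s → (T v, T' x) ∈ s

/-- `s` is the graph of a surjection from `A` to `E` with kernel `B`, that is of an identification
of `A / B` with `E`. -/
structure IsGradedPiece {V E : Type v} [AddCommGroup V] [Module Ω V] [AddCommGroup E] [Module Ω E]
    (s : Submodule Ω (V × E)) (A B : Submodule Ω V) : Prop where
  mem : ∀ v x, (v, x) ∈ s → v ∈ A
  left : ∀ v ∈ A, ∃ x, (v, x) ∈ s
  right : ∀ x, ∃ v, (v, x) ∈ s
  ker : ∀ v x, (v, x) ∈ s → (v ∈ B ↔ x = 0)

end Relations

/-- The maps commute with the Galois group: `gys` is a map from `H^m(Y^(a+2))(-1)`, `mon` is a map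
to `H^m(Y^(a+1))(-1)`, and the geometric Frobenius acts on `Ω(-1)` by `q`. -/
structure Strata.IsEquivariant {Ω : Type u} [Field Ω] (S : Strata.{u, v} Ω) (q : ℕ) : Prop where
  res_frob : ∀ a m, Commutes (S.res a m) (S.frob a m) (S.frob (a + 1) m)
  res_mon : ∀ a m, Commutes (S.res a m) (S.mon a m) (S.mon (a + 1) m)
  gys_frob : ∀ a m, Twists q (S.gys a m) (S.frob (a + 1) m) (S.frob a (m + 2))
  gys_mon : ∀ a m, Commutes (S.gys a m) (S.mon (a + 1) m) (S.mon a (m + 2))
  mon_frob : ∀ a m, Twists q (S.frob a m) (S.mon a m) (S.mon a m)

/-- `res` and `gys` are the parts of the differential of a spectral sequence. -/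
structure Strata.IsComplex {Ω : Type u} [Field Ω] (S : Strata.{u, v} Ω) : Prop where
  res_res : ∀ a m, IsZeroComp (S.res a m) (S.res (a + 1) m)
  gys_gys : ∀ a m, IsZeroComp (S.gys (a + 1) m) (S.gys a (m + 2))
  res_gys : ∀ a m, AnticommutingSquare (S.gys a m) (S.res a (m + 2)) (S.res (a + 1) m)
    (S.gys (a + 1) m)

/-- The relations between the maps. -/
structure Strata.IsArithmetic {Ω : Type u} [Field Ω] (S : Strata.{u, v} Ω) (q : ℕ) : Prop
    extends S.IsEquivariant q, S.IsComplex

namespace Strata

variable {Ω : Type u} [Field Ω] (S : Strata.{u, v} Ω)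

/-- Families of cohomology classes of all the strata. -/
abbrev C : Type v := ∀ a m, S.H a m

/-- The term of total degree `n` in the column `r` of the weight spectral sequence of the
degenerate fibre, `E_1^(r, n - r) = ⨁_a H^(n - a)(Y^(a+1))(- (a - r) / 2)`, where `a` runs through
the column `r`. -/
def E₁ (r n : ℤ) : Submodule Ω S.C where
  carrier := {x | ∀ a m : ℕ, ¬ (InColumn r a ∧ (a : ℤ) + m = n) → x a m = 0}
  add_mem' hx hy a m h := by rw [Pi.add_apply, Pi.add_apply, hx a m h, hy a m h, add_zero]
  zero_mem' _ _ _ := rfl
  smul_mem' c x hx a m h := by rw [Pi.smul_apply, Pi.smul_apply, hx a m h, smul_zero]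

/-- The restriction on families. -/
def resC : S.C →ₗ[Ω] S.C where
  toFun x a m := match a with
    | 0 => 0
    | b + 1 => S.res b m (x b m)
  map_add' x y := by
    funext a m
    cases a with
    | zero => simp
    | succ b => simp
  map_smul' c x := by
    funext a m
    cases a with
    | zero => simp
    | succ b => simp

/-- The Gysin map on families. -/
def gysC : S.C →ₗ[Ω] S.C where
  toFun x a m := match m with
    | 0 => 0
    | 1 => 0
    | k + 2 => S.gys a k (x (a + 1) k)
  map_add' x y := by
    funext a m
    match m with
    | 0 => simp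
    | 1 => simp
    | k + 2 => simp
  map_smul' c x := by
    funext a m
    match m with
    | 0 => simp
    | 1 => simp
    | k + 2 => simp

open Classical in
/-- The projection to the components in the `r`-th column. -/
noncomputable def cut (r : ℤ) : S.C →ₗ[Ω] S.C where
  toFun x a m := if InColumn r a then x a m else 0
  map_add' x y := by
    funext a m
    by_cases h : InColumn r a <;> simp [h]
  map_smul' c x := by
    funext a m
    by_cases h : InColumn r a <;> simp [h]

/-- The sum of the restriction and the Gysin map. -/
def resGysC : S.C →ₗ[Ω] S.C := S.resC + S.gysC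

/-- The differential `d_1 = res + gys` from the column `r` to the column `r + 1`. -/
noncomputable def diff (r : ℤ) : S.C →ₗ[Ω] S.C := S.cut (r + 1) ∘ₗ S.resGysC

/-- The action of the Frobenius on the column `r`, with the Tate twists. -/
noncomputable def frobC (q : ℕ) (r : ℤ) : S.C →ₗ[Ω] S.C where
  toFun x a m := ((q : Ω) ^ (((a : ℤ) - r) / 2)) • S.frob a m (x a m)
  map_add' x y := by funext a m; simp
  map_smul' c x := by
    funext a m
    simp only [Pi.smul_apply, map_smul, RingHom.id_apply]
    rw [smul_comm]

/-- The monodromy on families. -/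
def monC : S.C →ₗ[Ω] S.C where
  toFun x a m := S.mon a m (x a m)
  map_add' x y := by funext a m; simp
  map_smul' c x := by funext a m; simp

/-- Cocycles: the kernel of `d_1` in the column `r` and total degree `n`. -/
noncomputable def cocycles (r n : ℤ) : Submodule Ω S.C := S.E₁ r n ⊓ LinearMap.ker (S.diff r)

/-- Coboundaries: the image of `d_1`. The quotient of the cocycles by the coboundaries is
`E_2^(r, n - r)`. -/
noncomputable def coboundaries (r n : ℤ) : Submodule Ω S.C :=
  (S.E₁ (r - 1) (n - 1)).map (S.diff (r - 1))

/-- The monodromy-weight conjecture for the cohomology groups of the strata which contribute to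
the nearby cohomology in degree `i`: `H^m(Y^(a+1))` is mw pure of weight `m` if
`i - 1 ≤ a + m ≤ i + 1`. -/
def IsPureAround [CharZero Ω] (q : ℕ) (i : ℤ) : Prop :=
  ∀ a m : ℕ, i - 1 ≤ (a : ℤ) + m → (a : ℤ) + m ≤ i + 1 → IsMWPure q m (S.frob a m) (S.mon a m)

end Strata

/-- The exponential series of a nilpotent operator on a finite-dimensional space (the terms with
exponent at least the dimension vanish). -/
noncomputable def expN {Ω : Type u} [Field Ω] {V : Type v} [AddCommGroup V] [Module Ω V]
    (N : Module.End Ω V) : Module.End Ω V :=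
  ∑ k ∈ Finset.range (finrank Ω V), ((k.factorial : Ω)⁻¹) • N ^ k

/-- A pencil of monodromy operators. Let `A` be an open annulus or punctured disc with parameter
`t` in a curve over `K`, over which there is a smooth projective family with unipotent geometric
monodromy around `A` on the cohomology in degree `i`. Then this cohomology is a fixed
representation `V` of the Galois group of `K`, twisted by Kummer characters:

* `Φ` is the action of (a lift of) the geometric Frobenius on `V`;
* `N₁` is the logarithm of the geometric monodromy, around `A`;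
* `N₂` is the logarithm of the arithmetic monodromy, that is of the action of the inertia group of
  `K` on `V`.

Both are maps from `V` to `V(-1)`. -/
structure Pencil (Ω : Type u) [Field Ω] (q : ℕ) where
  V : Type v
  [addCommGroup : AddCommGroup V]
  [module : Module Ω V]
  [finite : Module.Finite Ω V]
  Φ : Module.End Ω V
  N₁ : Module.End Ω V
  N₂ : Module.End Ω V
  comm : ∀ x, N₁ (N₂ x) = N₂ (N₁ x)
  N₁_Φ : ∀ x, N₁ (Φ x) = (q : Ω) • Φ (N₁ x)
  N₂_Φ : ∀ x, N₂ (Φ x) = (q : Ω) • Φ (N₂ x)
  Φ_inj : Function.Injective Φ
  nil₁ : IsNilpotent N₁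
  nil₂ : IsNilpotent N₂

attribute [instance] Pencil.addCommGroup Pencil.module Pencil.finite

/-- The Frobenius `exp (c N₁) Φ^f exp (c' N₂)` of a member. -/
noncomputable def Pencil.memberFrob {Ω : Type u} [Field Ω] {q : ℕ} (P : Pencil.{u, v} Ω q)
    (f : ℕ) (c c' : Ω) : Module.End Ω P.V :=
  expN (c • P.N₁) * P.Φ ^ f * expN (c' • P.N₂)

/-- The monodromy `e (N₂ + m N₁)` of a member. -/
def Pencil.memberMon {Ω : Type u} [Field Ω] [CharZero Ω] {q : ℕ} (P : Pencil.{u, v} Ω q)
    (m : ℚ) (e : ℕ) : Module.End Ω P.V :=
  (e : Ω) • (P.N₂ + (m : Ω) • P.N₁)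

/-- The cohomology of the member `X_s` of the family, for a point `s` of the annulus (punctured
disc) over a finite extension `K'` of `K` with ramification index `e` and residue degree `f`; here
`m = v(t(s))`, where `v` is the valuation of `K'` with `v(π) = 1`. It is the space `V`, where an
element `g` of the Galois group of `K'` acts by `exp (κ(g) N₁) ρ(g)`, with `ρ` the action on `V`
and `κ` the Kummer cocycle of `t(s)`. So `Φ'` is the action of (a lift of) the Frobenius of `K'`,
and `N'` is the logarithm of the action of the inertia group of `K'`. -/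
def Pencil.IsMember {Ω : Type u} [Field Ω] [CharZero Ω] {q : ℕ} (P : Pencil.{u, v} Ω q)
    (m : ℚ) (e f : ℕ) (Φ' N' : Module.End Ω P.V) : Prop :=
  0 < e ∧ 0 < f ∧ (∃ c c' : Ω, Φ' = P.memberFrob f c c') ∧ N' = P.memberMon m e

/-- The monodromy-weight conjecture in degree `i` for the members `X_s` of the family, for all
points `s` of the annulus over finite extensions of `K` for which `v(t(s))` is not in the set
`X`. -/
def Pencil.IsPureOutside {Ω : Type u} [Field Ω] [CharZero Ω] {q : ℕ} (P : Pencil.{u, v} Ω q)
    (i : ℤ) (X : Finset ℚ) : Prop :=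
  ∀ m : ℚ, m ∉ X → ∀ (e f : ℕ) (Φ' N' : Module.End Ω P.V),
    P.IsMember m e f Φ' N' → IsMWPure (q ^ f) i Φ' N'

/-- The nearby cohomology of the degenerate fibre `Y`, whose strata have cohomology `S`: the
pencil of a small punctured disc around `s₀`, a filtration `M` and submodules `sp b` of `V × C`. -/
structure NearbyData {Ω : Type u} [Field Ω] (S : Strata.{u, v} Ω) (q : ℕ)
    extends Pencil.{u, v} Ω q where
  M : ℤ → Submodule Ω V
  sp : ℤ → Submodule Ω (V × S.C)

namespace NearbyData

variable {Ω : Type u} [Field Ω] {S : Strata.{u, v} Ω} {q : ℕ} (Y : NearbyData S q)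

/-- `M` is the filtration of the weight spectral sequence of `Y`: `sp b` is the graph of an
identification of the graded piece `M b / M (b - 1)` with the term `E_2^(-b, i + b)`. -/
def HasSpectralSequence (i : ℕ) : Prop :=
  HasGraded Y.M Y.sp (fun b => S.cocycles (-b) i) (fun b => S.coboundaries (-b) i)

end NearbyData

/-- The nearby cohomology in degree `i` of the degenerate fibre `Y`, whose strata have cohomology
`S`: here

* `M` is the filtration of the weight spectral sequence of `Y` (Rapoport-Zink, Steenbrink), which
  is compatible with the Galois group;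
* `M` is the monodromy filtration of the geometric monodromy `N₁` (this is the monodromy-weight
  theorem in residue characteristic zero). -/
structure Nearby {Ω : Type u} [Field Ω] (S : Strata.{u, v} Ω) (q : ℕ) (i : ℕ)
    extends NearbyData.{u, v} S q where
  monodromy : IsMonodromyFiltration N₁ M
  graded : toNearbyData.HasSpectralSequence i
  sp_Φ : ∀ b, IsCompatibleWith (sp b) Φ (S.frobC q (-b))
  sp_N₂ : ∀ b, IsCompatibleWith (sp b) N₂ S.monC

/-- The monodromy-weight conjecture in degree `i` for one of the members. -/
def Pencil.HasPureMember {Ω : Type u} [Field Ω] [CharZero Ω] {q : ℕ} (P : Pencil.{u, v} Ω q)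
    (i : ℤ) : Prop :=
  ∃ (m : ℚ) (e f : ℕ) (Φ' N' : Module.End Ω P.V), P.IsMember m e f Φ' N' ∧
    IsMWPure (q ^ f) i Φ' N'

/-- The pencil is that of a small punctured disc around the point of a degenerate fibre, and the
monodromy-weight conjecture holds for the cohomology groups of its strata which contribute to the
nearby cohomology in degree `i`. -/
def Pencil.IsNearPureFibre {Ω : Type u} [Field Ω] [CharZero Ω] {q : ℕ} (P : Pencil.{u, v} Ω q)
    (i : ℕ) : Prop :=
  ∃ (S : Strata.{u, v} Ω) (Y : Nearby S q i), S.IsArithmetic q ∧ S.IsPureAround q i ∧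
    Y.toPencil = P

/-- One end of the annulus is a component. Let `C` be a component of the special fibre of a
semistable model of the curve, let `x` be the point of `C` which is the reduction of the annulus,
and let `|t| = 1` on the points of the curve which reduce to `C` near `x`. The cohomology in degree
`i` of the members of the family which reduce to points of an open part `C°` of `C` is given by the
nearby cycles, a lisse sheaf `F` on `C°` with the monodromy `N₂ : F → F(-1)`, and `V` is the
nearby fibre of `F` at `x`. Here:

* `W w` is the weight filtration of the sheaf `F` (Weil II);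
* `G w`, with `frob w` and `mon w`, is the graded piece of weight `w`, with the Frobenius and the
  local monodromy at `x`; `gr w` is the graph of the identification. -/
structure ComponentData {Ω : Type u} [Field Ω] {q : ℕ} (P : Pencil.{u, v} Ω q) where
  W : ℤ → Submodule Ω P.V
  G : ℤ → Type v
  [addCommGroup : ∀ w, AddCommGroup (G w)]
  [module : ∀ w, Module Ω (G w)]
  [finite : ∀ w, Module.Finite Ω (G w)]
  gr : ∀ w, Submodule Ω (P.V × G w)
  frob : ∀ w, Module.End Ω (G w)
  mon : ∀ w, Module.End Ω (G w)

attribute [instance] ComponentData.addCommGroup ComponentData.module ComponentData.finite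

namespace ComponentData

variable {Ω : Type u} [Field Ω] [CharZero Ω] {q : ℕ} {P : Pencil.{u, v} Ω q} (D : ComponentData P)

/-- The relations. The last one is the theorem on the local monodromy of pure sheaves on curves
over finite fields (Weil II, 1.8.4). -/
structure IsMixed : Prop where
  mono : Monotone D.W
  bot : ∃ w, D.W w = ⊥
  top : ∃ w, D.W w = ⊤
  map_N₂ : ∀ w x, x ∈ D.W w → P.N₂ x ∈ D.W (w - 2)
  graded : ∀ w, IsGradedPiece (D.gr w) (D.W w) (D.W (w - 1))
  gr_Φ : ∀ w, IsCompatibleWith (D.gr w) P.Φ (D.frob w)
  gr_N₁ : ∀ w, IsCompatibleWith (D.gr w) P.N₁ (D.mon w)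
  pure : ∀ w : ℤ, IsMWPure q w (D.frob w) (D.mon w)

/-- `F` is the action of the Frobenius at a point of degree `d` of `C°` (transported to `V`): the
graded piece of weight `w` is pure of weight `w`. -/
structure IsFrobenius (d : ℕ) (F : Module.End Ω P.V) : Prop where
  pos : 0 < d
  map_W : ∀ w x, x ∈ D.W w → F x ∈ D.W w
  weights : ∀ (w : ℤ) (α : Ω) (x : P.V), x ∈ D.W w → x ∉ D.W (w - 1) →
    F x - α • x ∈ D.W (w - 1) → IsWeilNumber (q ^ d) w α
  N₂_F : ∀ x, P.N₂ (F x) = ((q ^ d : ℕ) : Ω) • F (P.N₂ x)

end ComponentData

/-- One end of the annulus is a component, and the monodromy-weight conjecture in degree `i` holds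
for a member of the family which reduces to this component. -/
def Pencil.IsNearPureComponent {Ω : Type u} [Field Ω] [CharZero Ω] {q : ℕ}
    (P : Pencil.{u, v} Ω q) (i : ℤ) : Prop :=
  ∃ D : ComponentData P, D.IsMixed ∧ ∃ (d : ℕ) (F : Module.End Ω P.V), D.IsFrobenius d F ∧
    IsMWPure (q ^ d) i F P.N₂

end Pool.Agent.W5h86.MW
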