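import Pool.Agent.W5h86.MW.Pur

/-!
# The weight spectral sequence of the degenerate fibre
-/

set_option autoImplicit false
set_option linter.unusedSectionVars false
set_option linter.unusedVariables false

open Module

namespace Pool.Agent.W5h86.MW

open Pool.Agent.Y143 (IsWeilNumber IsMonodromyFiltration IsMWPure InColumn)

universe u v

namespace Strata

section basic

variable {Ω : Type u} [Field Ω] (S : Strata.{u, v} Ω)

lemma mem_E₁ {r n : ℤ} {x : S.C} :
    x ∈ S.E₁ r n ↔ ∀ a m : ℕ, ¬ (InColumn r a ∧ (a : ℤ) + m = n) → x a m = 0 := Iff.rfl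

lemma resC_succ (x : S.C) (b m : ℕ) : S.resC x (b + 1) m = S.res b m (x b m) := rfl

lemma resC_zero (x : S.C) (m : ℕ) : S.resC x 0 m = 0 := rfl

lemma gysC_add (x : S.C) (a k : ℕ) : S.gysC x a (k + 2) = S.gys a k (x (a + 1) k) := rfl

lemma gysC_zero (x : S.C) (a : ℕ) : S.gysC x a 0 = 0 := rfl

lemma gysC_one (x : S.C) (a : ℕ) : S.gysC x a 1 = 0 := rfl

lemma diff_of (x : S.C) {r : ℤ} {a : ℕ} (h : InColumn (r + 1) a) (m : ℕ) :
    S.diff r x a m = S.resC x a m + S.gysC x a m := by
  simp only [diff, resGysC, cut, LinearMap.comp_apply, LinearMap.coe_mk, AddHom.coe_mk, if_pos h,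
    LinearMap.add_apply, Pi.add_apply]

lemma diff_of_not (x : S.C) {r : ℤ} {a : ℕ} (h : ¬ InColumn (r + 1) a) (m : ℕ) :
    S.diff r x a m = 0 := by
  simp only [diff, cut, LinearMap.comp_apply, LinearMap.coe_mk, AddHom.coe_mk, if_neg h]

lemma diff_mem {r n : ℤ} {x : S.C} (hx : x ∈ S.E₁ r n) : S.diff r x ∈ S.E₁ (r + 1) (n + 1) := by
  intro a m h
  by_cases hc : InColumn (r + 1) a
  · have hn : (a : ℤ) + m ≠ n + 1 := fun h' => h ⟨hc, h'⟩
    rw [S.diff_of x hc]
    have h1 : S.resC x a m = 0 := by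
      cases a with
      | zero => rfl
      | succ b =>
        rw [S.resC_succ, hx b m (fun h' => hn (by push_cast; omega)), map_zero]
    have h2 : S.gysC x a m = 0 := by
      match m with
      | 0 => rfl
      | 1 => rfl
      | k + 2 =>
        rw [S.gysC_add, hx (a + 1) k (fun h' => hn (by have := h'.2; push_cast at this ⊢; omega)),
          map_zero]
    rw [h1, h2, add_zero]
  · exact S.diff_of_not x hc m

lemma inCol {r : ℤ} {a : ℕ} (h : InColumn r a) (h' : InColumn (r + 1 + 1) a) (ha : 1 ≤ a) :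
    InColumn (r + 1) (a - 1) ∧ InColumn (r + 1) (a + 1) := by
  obtain ⟨h1, h2⟩ := h
  obtain ⟨h3, h4⟩ := h'
  rw [abs_le] at h1 h3
  refine ⟨⟨?_, ?_⟩, ⟨?_, ?_⟩⟩
  · rw [abs_le]; constructor <;> omega
  · omega
  · rw [abs_le]; constructor <;> omega
  · omega

end basic

section arith

variable {Ω : Type u} [Field Ω] (S : Strata.{u, v} Ω) {q : ℕ} (hS : S.IsArithmetic q)

include hS

lemma diff_diff {r n : ℤ} {x : S.C} (hx : x ∈ S.E₁ r n) : S.diff (r + 1) (S.diff r x) = 0 := by
  funext a m
  by_cases hc : InColumn (r + 1 + 1) a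
  · rw [S.diff_of _ hc]
    -- the restriction part
    have h1 : ∀ b, a = b + 1 → ∀ k, m = k + 2 → InColumn r a →
        S.resC (S.diff r x) a m + S.gysC (S.diff r x) a m = 0 := by
      rintro b rfl k rfl hca
      obtain ⟨c1, c2⟩ := inCol hca hc (by omega)
      rw [Nat.add_sub_cancel] at c1
      rw [S.resC_succ, S.gysC_add, S.diff_of x c1, S.diff_of x c2, S.resC_succ, S.gysC_add,
        map_add, map_add]
      have e1 : S.res b (k + 2) (S.resC x b (k + 2)) = 0 := by
        cases b with
        | zero => rw [S.resC_zero, map_zero]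
        | succ b => rw [S.resC_succ, hS.res_res]
      have e2 : S.gys (b + 1) k (S.gysC x (b + 1 + 1) k) = 0 := by
        match k with
        | 0 => rw [S.gysC_zero, map_zero]
        | 1 => rw [S.gysC_one, map_zero]
        | j + 2 => rw [S.gysC_add, hS.gys_gys]
      rw [e1, e2, zero_add, add_zero]
      exact hS.res_gys b k _
    have h2 : InColumn r a → 1 ≤ a := by
      intro hca
      by_contra h0
      have ha : a = 0 := by omega
      subst ha
      have := hca.1
      have := hc.1
      rw [abs_le] at *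
      push_cast at *
      omega
    by_cases hca : InColumn r a
    · have ha := h2 hca
      obtain ⟨b, rfl⟩ : ∃ b, a = b + 1 := ⟨a - 1, by omega⟩
      match m with
      | 0 =>
        rw [S.gysC_zero, add_zero, S.resC_succ]
        by_cases hb : InColumn (r + 1) b
        · rw [S.diff_of x hb, S.gysC_zero, add_zero]
          cases b with
          | zero => rw [S.resC_zero, map_zero]; rfl
          | succ b => rw [S.resC_succ, hS.res_res]; rfl
        · rw [S.diff_of_not x hb, map_zero]; rfl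
      | 1 =>
        rw [S.gysC_one, add_zero, S.resC_succ]
        by_cases hb : InColumn (r + 1) b
        · rw [S.diff_of x hb, S.gysC_one, add_zero]
          cases b with
          | zero => rw [S.resC_zero, map_zero]; rfl
          | succ b => rw [S.resC_succ, hS.res_res]; rfl
        · rw [S.diff_of_not x hb, map_zero]; rfl
      | k + 2 => exact h1 b rfl k rfl hca
    · -- `x a m = 0` for all `m`
      have hx0 : ∀ k, x a k = 0 := fun k => hx a k (fun h => hca h.1)
      have e1 : S.resC (S.diff r x) a m = 0 := by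
        cases a with
        | zero => rfl
        | succ b =>
          rw [S.resC_succ]
          by_cases hb : InColumn (r + 1) b
          · rw [S.diff_of x hb, map_add]
            have e3 : S.res b m (S.resC x b m) = 0 := by
              cases b with
              | zero => rw [S.resC_zero, map_zero]
              | succ b => rw [S.resC_succ, hS.res_res]
            have e4 : S.gysC x b m = 0 := by
              match m with
              | 0 => rfl
              | 1 => rfl
              | k + 2 => rw [S.gysC_add, hx0, map_zero]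
            rw [e3, e4, map_zero, add_zero]
          · rw [S.diff_of_not x hb, map_zero]
      have e2 : S.gysC (S.diff r x) a m = 0 := by
        match m with
        | 0 => rfl
        | 1 => rfl
        | k + 2 =>
          rw [S.gysC_add]
          by_cases hb : InColumn (r + 1) (a + 1)
          · rw [S.diff_of x hb, S.resC_succ, hx0, map_zero, zero_add]
            match k with
            | 0 => rw [S.gysC_zero, map_zero]
            | 1 => rw [S.gysC_one, map_zero]
            | j + 2 => rw [S.gysC_add, hS.gys_gys]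
          · rw [S.diff_of_not x hb, map_zero]
      rw [e1, e2, add_zero]
      rfl
  · exact S.diff_of_not _ hc m

lemma frobC_diff (hq : q ≠ 0) [CharZero Ω] (r : ℤ) (x : S.C) :
    S.frobC q (r + 1) (S.diff r x) = S.diff r (S.frobC q r x) := by
  have hq0 : (q : Ω) ≠ 0 := Nat.cast_ne_zero.2 hq
  funext a m
  change ((q : Ω) ^ (((a : ℤ) - (r + 1)) / 2)) • S.frob a m (S.diff r x a m) = _
  by_cases hc : InColumn (r + 1) a
  · rw [S.diff_of x hc, S.diff_of _ hc, map_add, smul_add]
    congr 1
    · cases a with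
      | zero => rw [S.resC_zero, S.resC_zero, map_zero, smul_zero]
      | succ b =>
        rw [S.resC_succ, S.resC_succ, hS.res_frob]
        change _ = S.res b m (((q : Ω) ^ (((b : ℤ) - r) / 2)) • S.frob b m (x b m))
        rw [map_smul]
        congr 2
        push_cast
        ring_nf
    · match m with
      | 0 => rw [S.gysC_zero, S.gysC_zero, map_zero, smul_zero]
      | 1 => rw [S.gysC_one, S.gysC_one, map_zero, smul_zero]
      | k + 2 =>
        rw [S.gysC_add, S.gysC_add, hS.gys_frob]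
        change _ = S.gys a k
          (((q : Ω) ^ ((((a + 1 : ℕ) : ℤ) - r) / 2)) • S.frob (a + 1) k (x (a + 1) k))
        rw [map_smul, smul_smul]
        congr 1
        rw [← zpow_add_one₀ hq0]
        congr 1
        push_cast
        omega
  · rw [S.diff_of_not x hc, S.diff_of_not _ hc, map_zero, smul_zero]

lemma monC_diff (r : ℤ) (x : S.C) : S.monC (S.diff r x) = S.diff r (S.monC x) := by
  funext a m
  change S.mon a m (S.diff r x a m) = _
  by_cases hc : InColumn (r + 1) a
  · rw [S.diff_of x hc, S.diff_of _ hc, map_add]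
    congr 1
    · cases a with
      | zero => rw [S.resC_zero, S.resC_zero, map_zero]
      | succ b =>
        rw [S.resC_succ, S.resC_succ, hS.res_mon]
        rfl
    · match m with
      | 0 => rw [S.gysC_zero, S.gysC_zero, map_zero]
      | 1 => rw [S.gysC_one, S.gysC_one, map_zero]
      | k + 2 =>
        rw [S.gysC_add, S.gysC_add, hS.gys_mon]
        rfl
  · rw [S.diff_of_not x hc, S.diff_of_not _ hc, map_zero]

lemma monC_frobC (r : ℤ) (x : S.C) :
    S.monC (S.frobC q r x) = (q : Ω) • S.frobC q r (S.monC x) := by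
  funext a m
  change S.mon a m (((q : Ω) ^ (((a : ℤ) - r) / 2)) • S.frob a m (x a m)) =
    (q : Ω) • (((q : Ω) ^ (((a : ℤ) - r) / 2)) • S.frob a m (S.mon a m (x a m)))
  rw [map_smul, hS.mon_frob, smul_comm]

end arith

section fin

variable {Ω : Type u} [Field Ω] (S : Strata.{u, v} Ω)

/-- The term of the spectral sequence as a space. -/
abbrev EE (r n : ℤ) : Type v := S.E₁ r n

/-- The evaluation at a component. -/
def ev (r n : ℤ) (a m : ℕ) : S.EE r n →ₗ[Ω] S.H a m where
  toFun x := (x : S.C) a m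
  map_add' _ _ := rfl
  map_smul' _ _ := rfl

instance (r n : ℤ) : Module.Finite Ω (S.EE r n) := by
  let φ : S.EE r n →ₗ[Ω] (∀ j : Fin (n.toNat + 1), S.H j (n.toNat - j)) :=
    { toFun := fun x j => (x : S.C) j (n.toNat - j)
      map_add' := fun _ _ => rfl
      map_smul' := fun _ _ => rfl }
  have hinj : Function.Injective φ := by
    rw [← LinearMap.ker_eq_bot, LinearMap.ker_eq_bot']
    rintro ⟨x, hx⟩ h0
    apply Subtype.ext
    funext a m
    by_cases h : InColumn r a ∧ (a : ℤ) + m = n
    · have h1 := congrFun h0 ⟨a, by omega⟩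
      have e : n.toNat - a = m := by omega
      subst e
      exact h1
    · exact hx a m h
  exact Module.Finite.of_injective φ hinj

lemma frobC_mem (q : ℕ) {r n : ℤ} {x : S.C} (hx : x ∈ S.E₁ r n) : S.frobC q r x ∈ S.E₁ r n := by
  intro a m h
  change ((q : Ω) ^ (((a : ℤ) - r) / 2)) • S.frob a m (x a m) = 0
  rw [hx a m h, map_zero, smul_zero]

lemma monC_mem {r n : ℤ} {x : S.C} (hx : x ∈ S.E₁ r n) : S.monC x ∈ S.E₁ r n := by
  intro a m h
  change S.mon a m (x a m) = 0
  rw [hx a m h, map_zero]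

/-- The Frobenius. -/
noncomputable def Fr (q : ℕ) (r n : ℤ) : Module.End Ω (S.EE r n) :=
  (S.frobC q r).restrict (fun _ h => S.frobC_mem q h)

/-- The monodromy. -/
noncomputable def Nr (r n : ℤ) : Module.End Ω (S.EE r n) :=
  (S.monC).restrict (fun _ h => S.monC_mem h)

/-- The differential. -/
noncomputable def dr (r n r' n' : ℤ) (h : r' = r + 1) (h' : n' = n + 1) :
    S.EE r n →ₗ[Ω] S.EE r' n' :=
  (S.diff r).restrict (fun _ hx => by subst h h'; exact S.diff_mem hx)

lemma ev_Fr (q : ℕ) (r n : ℤ) (a m : ℕ) (x : S.EE r n) :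
    S.ev r n a m (S.Fr q r n x) = ((q : Ω) ^ (((a : ℤ) - r) / 2)) • S.frob a m (S.ev r n a m x) :=
  rfl

lemma ev_Nr (r n : ℤ) (a m : ℕ) (x : S.EE r n) (k : ℕ) :
    S.ev r n a m ((S.Nr r n ^ k) x) = (S.mon a m ^ k) (S.ev r n a m x) := by
  induction k with
  | zero => simp
  | succ k ih =>
    rw [pow_succ', Module.End.mul_apply, pow_succ', Module.End.mul_apply, ← ih]
    rfl

lemma ev_ext {r n : ℤ} {x y : S.EE r n} (h : ∀ a m : ℕ, InColumn r a → (a : ℤ) + m = n →
    S.ev r n a m x = S.ev r n a m y) : x = y := by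
  apply Subtype.ext
  funext a m
  by_cases hc : InColumn r a ∧ (a : ℤ) + m = n
  · exact h a m hc.1 hc.2
  · rw [x.2 a m hc, y.2 a m hc]

end fin

section pure

variable {Ω : Type u} [Field Ω] [CharZero Ω] [IsAlgClosed Ω] (S : Strata.{u, v} Ω) {q : ℕ}
  (hS : S.IsArithmetic q)

/-- The strata which contribute to the total degree `n` are mw pure. -/
def PureIn (q : ℕ) (n : ℤ) : Prop :=
  ∀ a m : ℕ, (a : ℤ) + m = n → IsMWPure q m (S.frob a m) (S.mon a m)

lemma Fr_allWeil (hq : 1 < q) {r n : ℤ} (hp : S.PureIn q n) : AllWeil q (S.Fr q r n) := by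
  have hq0 : (q : Ω) ≠ 0 := Nat.cast_ne_zero.2 (by omega)
  intro α x hx hxα
  obtain ⟨a, m, hc, hn, hne⟩ : ∃ a m : ℕ, InColumn r a ∧ (a : ℤ) + m = n ∧
      S.ev r n a m x ≠ 0 := by
    by_contra hcon
    push Not at hcon
    exact hx (S.ev_ext (fun a m h1 h2 => by rw [hcon a m h1 h2, map_zero]))
  have h1 : S.frob a m (S.ev r n a m x) = ((q : Ω) ^ (-(((a : ℤ) - r) / 2)) * α) •
      S.ev r n a m x := by
    have h2 := S.ev_Fr q r n a m x
    rw [hxα, map_smul] at h2
    rw [mul_smul, h2, smul_smul, ← zpow_add₀ hq0, neg_add_cancel, zpow_zero, one_smul]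
  obtain ⟨w, hw⟩ := pure_allWeil (hp a m hn) _ _ hne h1
  have h3 := hw.twist (by omega : q ≠ 0) (((a : ℤ) - r) / 2)
  rw [← mul_assoc, ← zpow_add₀ hq0, add_neg_cancel, zpow_zero, one_mul] at h3
  exact ⟨_, h3⟩

include hS in
lemma Nr_Fr (r n : ℤ) (x : S.EE r n) :
    S.Nr r n (S.Fr q r n x) = (q : Ω) • S.Fr q r n (S.Nr r n x) :=
  Subtype.ext (S.monC_frobC hS r x)

include hS in
/-- The hard Lefschetz property for the monodromy on the `E_1` term. -/
lemma Nr_HL (hq : 1 < q) {r n : ℤ} (hp : S.PureIn q n) (c : ℕ) :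
    HLat (fun c => ws q (S.Fr q r n) (n - r + c)) c (S.Nr r n) := by
  have hq' : q ≠ 0 := by omega
  have hq0 : (q : Ω) ≠ 0 := Nat.cast_ne_zero.2 hq'
  have hev : ∀ (a m : ℕ), InColumn r a → (a : ℤ) + m = n → ∀ (c : ℤ) (x : S.EE r n),
      x ∈ ws q (S.Fr q r n) (n - r + c) → S.ev r n a m x ∈ ws q (S.frob a m) (m + c) := by
    intro a m hc hn c x hx
    have h1 := ws_map hq' (f := S.ev r n a m) (-(((a : ℤ) - r) / 2)) (Φ' := S.frob a m) (by
      intro y
      rw [S.ev_Fr, smul_smul, ← zpow_add₀ hq0, neg_add_cancel, zpow_zero, one_smul]) hx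
    obtain ⟨-, h2⟩ := hc
    rwa [show n - r + c + 2 * -(((a : ℤ) - r) / 2) = m + c by omega] at h1
  have hHL : ∀ (a m : ℕ), (a : ℤ) + m = n → HLat (fun c => ws q (S.frob a m) (m + c)) c
      (S.mon a m) := fun a m hn => pure_HL hq (hS.mon_frob a m) (hp a m hn) c
  constructor
  · intro x hx h0
    apply S.ev_ext
    intro a m hc hn
    rw [map_zero]
    apply (hHL a m hn).1 _ (hev a m hc hn c x hx)
    rw [← S.ev_Nr, h0, map_zero]
  · intro y hy
    have h1 : ∀ a m : ℕ, ∃ z : S.H a m, (¬ (InColumn r a ∧ (a : ℤ) + m = n) → z = 0) ∧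
        (S.mon a m ^ c) z = S.ev r n a m y := by
      intro a m
      by_cases hcn : InColumn r a ∧ (a : ℤ) + m = n
      · obtain ⟨z, -, hz⟩ := (hHL a m hcn.2).2 _ (hev a m hcn.1 hcn.2 _ y hy)
        exact ⟨z, fun h => absurd hcn h, hz⟩
      · exact ⟨0, fun _ => rfl, by rw [map_zero]; exact (y.2 a m hcn).symm⟩
    choose z hz0 hz using h1
    let x : S.EE r n := ⟨z, fun a m h => hz0 a m h⟩
    have hxy : (S.Nr r n ^ c) x = y := by
      apply S.ev_ext
      intro a m _ _
      rw [S.ev_Nr]
      exact hz a m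
    have hI := ws_internal hq (S.Fr_allWeil hq (r := r) hp)
    have hNd : ∀ w x, x ∈ ws q (S.Fr q r n) w → S.Nr r n x ∈ ws q (S.Fr q r n) (w - 2) :=
      fun w x hx => N_ws hq (S.Nr_Fr hS r n) hx
    refine ⟨prj hI (n - r + c) x, prj_mem _ _ _, ?_⟩
    have h3 := prj_map hI hI (S.Nr r n ^ c) (s := fun w => w - 2 * c) (fun _ _ h => by
      simpa using h) (fun w x hx => pow_deg hNd c hx) (n - r + c) x
    rw [← h3, hxy]
    have e : n - r + (c : ℤ) - 2 * c = n - r + -c := by ring
    exact prj_same hI (by rw [e]; exact hy)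

end pure

end Strata

section complex

variable {Ω : Type u} [Field Ω] [CharZero Ω] [IsAlgClosed Ω]
  {A B D : Type v} [AddCommGroup A] [Module Ω A] [Module.Finite Ω A]
  [AddCommGroup B] [Module Ω B] [Module.Finite Ω B]
  [AddCommGroup D] [Module Ω D] [Module.Finite Ω D] {q : ℕ}

/-- The hard Lefschetz property for the cohomology of a complex. -/
lemma complex_HL (hq : 1 < q) {FA NA : Module.End Ω A} {FB NB : Module.End Ω B}
    {FD ND : Module.End Ω D} (hA : AllWeil q FA) (hB : AllWeil q FB) (hD : AllWeil q FD)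
    (d : A →ₗ[Ω] B) (d' : B →ₗ[Ω] D) (hdF : ∀ x, FB (d x) = d (FA x))
    (hdN : ∀ x, NB (d x) = d (NA x)) (hdF' : ∀ x, FD (d' x) = d' (FB x))
    (hdN' : ∀ x, ND (d' x) = d' (NB x)) (hNA : ∀ x, NA (FA x) = (q : Ω) • FA (NA x))
    (hNB : ∀ x, NB (FB x) = (q : Ω) • FB (NB x)) (hdd : ∀ x, d' (d x) = 0) {w : ℤ} {c : ℕ}
    (HA : HLat (fun c => ws q FA (w + c)) c NA) (HB : HLat (fun c => ws q FB (w + c)) c NB)
    (HD : HLat (fun c => ws q FD (w + c)) c ND) :
    (∀ y, d' y = 0 → y ∈ ws q FB (w - c) → ∃ x, d' x = 0 ∧ x ∈ ws q FB (w + c) ∧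
      (NB ^ c) x = y) ∧
    (∀ x, d' x = 0 → x ∈ ws q FB (w + c) → (∃ z, d z = (NB ^ c) x) → ∃ z, d z = x) := by
  have hq' : q ≠ 0 := by omega
  have hm : ∀ w x, x ∈ ws q FA w → d x ∈ ws q FB w := by
    intro w x hx
    have := ws_map hq' (f := d) 0 (fun x => by rw [zpow_zero, one_smul]; exact hdF x) hx
    rwa [show w + 2 * 0 = w by ring] at this
  have hm' : ∀ w x, x ∈ ws q FB w → d' x ∈ ws q FD w := by
    intro w x hx
    have := ws_map hq' (f := d') 0 (fun x => by rw [zpow_zero, one_smul]; exact hdF' x) hx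
    rwa [show w + 2 * 0 = w by ring] at this
  have hdNk : ∀ (k : ℕ) x, (NB ^ k) (d x) = d ((NA ^ k) x) := by
    intro k
    induction k with
    | zero => intro x; simp
    | succ k ih => intro x; rw [pow_succ', Module.End.mul_apply, ih, hdN, pow_succ',
        Module.End.mul_apply]
  have hdNk' : ∀ (k : ℕ) x, (ND ^ k) (d' x) = d' ((NB ^ k) x) := by
    intro k
    induction k with
    | zero => intro x; simp
    | succ k ih => intro x; rw [pow_succ', Module.End.mul_apply, ih, hdN', pow_succ',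
        Module.End.mul_apply]
  constructor
  · intro y hy hyw
    obtain ⟨x, hx, hxy⟩ := HB.2 y (by
      change y ∈ ws q FB (w + -(c : ℤ))
      rwa [← sub_eq_add_neg])
    refine ⟨x, ?_, hx, hxy⟩
    apply HD.1 _ (hm' _ _ hx)
    rw [hdNk', hxy, hy]
  · intro x hx hxw hz
    obtain ⟨z, hz⟩ := hz
    have hIA := ws_internal hq hA
    have hIB := ws_internal hq hB
    have h1 := prj_map hIA hIB d (s := id) Function.injective_id (fun w x hx => hm w x hx) (w - c) z
    have hNd : ∀ w x, x ∈ ws q FB w → NB x ∈ ws q FB (w - 2) := fun w x hx => N_ws hq hNB hx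
    have h2 : (NB ^ c) x ∈ ws q FB (w - c) := by
      have := pow_deg hNd c hxw
      rwa [show w + (c : ℤ) - 2 * c = w - c by ring] at this
    have h3 : d (prj hIA (w - c) z) = (NB ^ c) x := by
      rw [← h1, hz]
      exact prj_same hIB h2
    obtain ⟨z', hz', hzz⟩ := HA.2 (prj hIA (w - c) z) (by
      change _ ∈ ws q FA (w + -(c : ℤ))
      rw [← sub_eq_add_neg]
      exact prj_mem _ _ _)
    refine ⟨z', ?_⟩
    rw [← sub_eq_zero]
    apply HB.1 _ (sub_mem (hm _ _ hz') hxw)
    rw [map_sub, hdNk, hzz, h3, sub_self]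

end complex

end Pool.Agent.W5h86.MW
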