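import Mathlib

/-!
# Gradings of a vector space: projections and diagonal operators
-/

set_option autoImplicit false

open Module

namespace Pool.Agent.W5h86.MW

variable {K : Type*} [Field K] {V : Type*} [AddCommGroup V] [Module K V]
  {ι : Type*} [DecidableEq ι] {G : ι → Submodule K V}

/-- The operator acting as `φ i` on `G i`. -/
noncomputable def lft (h : DirectSum.IsInternal G) (φ : ι → Module.End K V) : Module.End K V :=
  (DirectSum.toModule K ι V (fun i => (φ i) ∘ₗ (G i).subtype)) ∘ₗ
    (LinearEquiv.ofBijective (DirectSum.coeLinearMap G) h).symm.toLinearMap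

lemma lft_apply (h : DirectSum.IsInternal G) (φ : ι → Module.End K V) {i : ι} {a : V}
    (ha : a ∈ G i) : lft h φ a = φ i a := by
  have h1 : (LinearEquiv.ofBijective (DirectSum.coeLinearMap G) h).symm a =
      DirectSum.lof K ι (fun i => G i) i ⟨a, ha⟩ := by
    rw [LinearEquiv.symm_apply_eq]
    exact (DirectSum.coeLinearMap_lof G i ⟨a, ha⟩).symm
  rw [lft, LinearMap.comp_apply, LinearEquiv.coe_coe, h1, DirectSum.toModule_lof]
  rfl

lemma gr_ext (h : DirectSum.IsInternal G) {W : Type*} [AddCommGroup W] [Module K W]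
    {A B : V →ₗ[K] W} (hAB : ∀ i, ∀ a ∈ G i, A a = B a) : A = B := by
  have h1 : LinearMap.eqLocus A B = ⊤ := by
    rw [eq_top_iff, ← h.submodule_iSup_eq_top]
    exact iSup_le (fun i a ha => hAB i a ha)
  ext a
  have : a ∈ LinearMap.eqLocus A B := by rw [h1]; trivial
  exact this

lemma gr_ind (h : DirectSum.IsInternal G) {p : V → Prop} (hgr : ∀ i, ∀ a ∈ G i, p a)
    (h0 : p 0) (hadd : ∀ a b, p a → p b → p (a + b)) (a : V) : p a := by
  have ha : a ∈ iSup G := by rw [h.submodule_iSup_eq_top]; trivial
  exact Submodule.iSup_induction G (motive := p) ha (fun i a ha => hgr i a ha) h0 hadd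

/-- The projection to `G i`. -/
noncomputable def prj (h : DirectSum.IsInternal G) (i : ι) : Module.End K V :=
  lft h (fun j => if j = i then 1 else 0)

lemma prj_same (h : DirectSum.IsInternal G) {i : ι} {a : V} (ha : a ∈ G i) : prj h i a = a := by
  rw [prj, lft_apply h _ ha, if_pos rfl]; rfl

lemma prj_ne (h : DirectSum.IsInternal G) {i j : ι} {a : V} (ha : a ∈ G j) (hij : j ≠ i) :
    prj h i a = 0 := by
  rw [prj, lft_apply h _ ha, if_neg hij]; rfl

lemma prj_mem (h : DirectSum.IsInternal G) (i : ι) (a : V) : prj h i a ∈ G i := by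
  induction a using gr_ind h with
  | hgr j a ha =>
    by_cases hij : j = i
    · subst hij
      rw [prj_same h ha]; exact ha
    · rw [prj_ne h ha hij]; exact zero_mem _
  | h0 => rw [map_zero]; exact zero_mem _
  | hadd a b ha hb => rw [map_add]; exact add_mem ha hb

/-- A vector all of whose projections vanish is zero. -/
lemma eq_zero_of_prj (h : DirectSum.IsInternal G) {a : V} (ha : ∀ i, prj h i a = 0) : a = 0 := by
  have h1 : a ∈ iSup G := by rw [h.submodule_iSup_eq_top]; trivial
  obtain ⟨f, hf, hfa⟩ := (Submodule.mem_iSup_iff_exists_finsupp _ _).1 h1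
  rw [← hfa, Finsupp.sum]
  apply Finset.sum_eq_zero
  intro i hi
  have h2 : prj h i a = f i := by
    rw [← hfa, Finsupp.sum, map_sum, Finset.sum_eq_single i]
    · exact prj_same h (hf i)
    · intro j _ hj
      exact prj_ne h (hf j) hj
    · intro hn
      exact absurd hi hn
  rw [← h2, ha]

/-- A vector is in a subspace if all its components are. -/
lemma mem_of_prj_mem (h : DirectSum.IsInternal G) {P : Submodule K V} {a : V}
    (ha : ∀ i, prj h i a ∈ P) : a ∈ P := by
  have h1 : a ∈ iSup G := by rw [h.submodule_iSup_eq_top]; trivial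
  obtain ⟨f, hf, hfa⟩ := (Submodule.mem_iSup_iff_exists_finsupp _ _).1 h1
  rw [← hfa, Finsupp.sum]
  apply Submodule.sum_mem
  intro i hi
  have h2 : prj h i a = f i := by
    rw [← hfa, Finsupp.sum, map_sum, Finset.sum_eq_single i]
    · exact prj_same h (hf i)
    · intro j _ hj
      exact prj_ne h (hf j) hj
    · intro hn
      exact absurd hi hn
  rw [← h2]; exact ha i

lemma eq_of_prj (h : DirectSum.IsInternal G) {a b : V} (hab : ∀ i, prj h i a = prj h i b) :
    a = b := by
  rw [← sub_eq_zero]
  apply eq_zero_of_prj h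
  intro i
  rw [map_sub, hab, sub_self]

lemma mem_iff_prj (h : DirectSum.IsInternal G) {i : ι} {a : V} :
    a ∈ G i ↔ ∀ j, j ≠ i → prj h j a = 0 := by
  constructor
  · intro ha j hj
    exact prj_ne h ha hj.symm
  · intro ha
    have : a = prj h i a := by
      apply eq_of_prj h
      intro j
      by_cases hj : j = i
      · subst hj
        rw [prj_same h (prj_mem h j a)]
      · rw [ha j hj, prj_ne h (prj_mem h i a) (Ne.symm hj)]
    rw [this]
    exact prj_mem h i a

lemma prj_prj_ne (h : DirectSum.IsInternal G) {i j : ι} (hij : i ≠ j) (a : V) :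
    prj h i (prj h j a) = 0 := prj_ne h (prj_mem h j a) (Ne.symm hij)

lemma prj_prj (h : DirectSum.IsInternal G) (i : ι) (a : V) :
    prj h i (prj h i a) = prj h i a := prj_same h (prj_mem h i a)

/-- If `A` maps `G i` to `G' (s i)`, with `s` injective, it commutes with the projections. -/
lemma prj_map (h : DirectSum.IsInternal G) {ι' : Type*} [DecidableEq ι'] {V' : Type*}
    [AddCommGroup V'] [Module K V'] {G' : ι' → Submodule K V'} (h' : DirectSum.IsInternal G')
    (A : V →ₗ[K] V') {s : ι → ι'} (hs : Function.Injective s)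
    (hA : ∀ i, ∀ x ∈ G i, A x ∈ G' (s i)) (i : ι) (x : V) :
    prj h' (s i) (A x) = A (prj h i x) := by
  induction x using gr_ind h with
  | hgr j a ha =>
    by_cases hij : j = i
    · subst hij
      rw [prj_same h ha, prj_same h' (hA j a ha)]
    · rw [prj_ne h ha hij, map_zero, prj_ne h' (hA j a ha) (fun h0 => hij (hs h0))]
  | h0 => simp
  | hadd a b ha hb => rw [map_add, map_add, map_add, map_add, ha, hb]

/-- The operator acting as the scalar `c i` on `G i`. -/
noncomputable def dia (h : DirectSum.IsInternal G) (c : ι → K) : Module.End K V :=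
  lft h (fun i => c i • 1)

lemma dia_apply (h : DirectSum.IsInternal G) (c : ι → K) {i : ι} {a : V} (ha : a ∈ G i) :
    dia h c a = c i • a := by
  rw [dia, lft_apply h _ ha]; rfl

lemma prj_dia (h : DirectSum.IsInternal G) (c : ι → K) (i : ι) (a : V) :
    prj h i (dia h c a) = c i • prj h i a := by
  induction a using gr_ind h with
  | hgr j a ha =>
    by_cases hij : j = i
    · subst hij
      rw [dia_apply h c ha, map_smul]
    · rw [dia_apply h c ha, map_smul, prj_ne h ha hij, smul_zero, smul_zero]
  | h0 => simp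
  | hadd a b ha hb => rw [map_add, map_add, map_add, ha, hb, smul_add]

/-- The eigenspaces of a diagonal operator with different eigenvalues are the pieces. -/
lemma mem_of_dia (h : DirectSum.IsInternal G) {c : ι → K} (hc : Function.Injective c) {i : ι}
    {a : V} (ha : dia h c a = c i • a) : a ∈ G i := by
  rw [mem_iff_prj h]
  intro j hj
  have h1 := prj_dia h c j a
  rw [ha, map_smul, ← sub_eq_zero, ← sub_smul, smul_eq_zero] at h1
  rcases h1 with h1 | h1
  · exact absurd (hc (sub_eq_zero.1 h1)).symm hj
  · exact h1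

/-- A criterion for a family to be a grading. -/
lemma isInternal_of {G : ι → Submodule K V}
    (h1 : ∀ (s : Finset ι) (v : ι → V), (∀ i ∈ s, v i ∈ G i) → ∑ i ∈ s, v i = 0 →
      ∀ i ∈ s, v i = 0) (h2 : iSup G = ⊤) : DirectSum.IsInternal G := by
  rw [DirectSum.isInternal_submodule_iff_iSupIndep_and_iSup_eq_top]
  exact ⟨(iSupIndep_iff_finsetSum_eq_zero_imp_eq_zero G).2 h1, h2⟩

/-- The eigenspaces of an operator for a family of different eigenvalues form a grading if they
span. -/
lemma isInternal_eig (T : Module.End K V) {c : ι → K} (hc : Function.Injective c)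
    (h2 : ⨆ i, T.eigenspace (c i) = ⊤) : DirectSum.IsInternal (fun i => T.eigenspace (c i)) := by
  rw [DirectSum.isInternal_submodule_iff_iSupIndep_and_iSup_eq_top]
  exact ⟨(Module.End.eigenspaces_iSupIndep T).comp hc, h2⟩

end Pool.Agent.W5h86.MW
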