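import Pool.Agent.W5h86.MW.Two

/-!
# The leading parts of the two operators
-/

set_option autoImplicit false
set_option linter.unusedSectionVars false
set_option linter.unusedVariables false

open Module

namespace Pool.Agent.W5h86.MW

variable {K : Type*} [Field K] [CharZero K] {V : Type*} [AddCommGroup V] [Module K V]
  {U M E : ℤ → Submodule K V} {N₁ N₂ : Module.End K V}

/-- The data of a homogeneous splitting. -/
structure Setup (U M E : ℤ → Submodule K V) (N₁ N₂ : Module.End K V) : Prop where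
  D : Two U M N₁ N₂
  S : Splits M E
  hE : ∀ b a x, x ∈ E b → prj D.int a x ∈ E b

namespace Setup

variable (s : Setup U M E N₁ N₂)

/-- The leading part of `N₁`. -/
noncomputable def L₁ : Module.End K V := lft s.S.int (fun b => prj s.S.int (b - 2) * N₁)

/-- The leading part of `N₂`. -/
noncomputable def L₂ : Module.End K V := lft s.S.int (fun b => prj s.S.int b * N₂)

/-- The degree for `U`. -/
noncomputable def T : Module.End K V := dia s.D.int (fun a => (a : K))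

/-- The degree for `E`. -/
noncomputable def Y : Module.End K V := dia s.S.int (fun b => (b : K))

lemma L₁_apply {b : ℤ} {x : V} (hx : x ∈ E b) : s.L₁ x = prj s.S.int (b - 2) (N₁ x) := by
  rw [L₁, lft_apply _ _ hx]; rfl

lemma L₂_apply {b : ℤ} {x : V} (hx : x ∈ E b) : s.L₂ x = prj s.S.int b (N₂ x) := by
  rw [L₂, lft_apply _ _ hx]; rfl

lemma T_apply {a : ℤ} {x : V} (hx : x ∈ U a) : s.T x = (a : K) • x := dia_apply _ _ hx

lemma Y_apply {b : ℤ} {x : V} (hx : x ∈ E b) : s.Y x = (b : K) • x := dia_apply _ _ hx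

lemma mem_U {a : ℤ} {x : V} (hx : s.T x = (a : K) • x) : x ∈ U a :=
  mem_of_dia s.D.int (c := fun a : ℤ => (a : K)) (fun _ _ h => Int.cast_injective h) hx

lemma mem_E {b : ℤ} {x : V} (hx : s.Y x = (b : K) • x) : x ∈ E b :=
  mem_of_dia s.S.int (c := fun b : ℤ => (b : K)) (fun _ _ h => Int.cast_injective h) hx

lemma T_E {b : ℤ} {x : V} (hx : x ∈ E b) : s.T x ∈ E b := by
  apply mem_of_prj_mem s.D.int
  intro a
  rw [T, prj_dia]
  exact Submodule.smul_mem _ _ (s.hE b a x hx)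

lemma prjE_T (b : ℤ) (x : V) : prj s.S.int b (s.T x) = s.T (prj s.S.int b x) :=
  prj_map s.S.int s.S.int s.T (s := id) Function.injective_id (fun i x hx => s.T_E hx) b x

lemma prjE_U {a : ℤ} {x : V} (hx : x ∈ U a) (b : ℤ) : prj s.S.int b x ∈ U a := by
  apply s.mem_U
  rw [← prjE_T, s.T_apply hx, map_smul]

lemma T_N₁ (x : V) : s.T (N₁ x) = N₁ (s.T x) - (2 : K) • N₁ x := by
  induction x using gr_ind s.D.int with
  | hgr a x hx =>
    rw [s.T_apply (s.D.N1U a x hx), s.T_apply hx, map_smul, ← sub_smul]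
    push_cast
    rfl
  | h0 => simp
  | hadd x y hx hy => rw [map_add, map_add, hx, hy, map_add, map_add, smul_add]; abel

lemma T_N₂ (x : V) : s.T (N₂ x) = N₂ (s.T x) - (2 : K) • N₂ x := by
  induction x using gr_ind s.D.int with
  | hgr a x hx =>
    rw [s.T_apply (s.D.N2U a x hx), s.T_apply hx, map_smul, ← sub_smul]
    push_cast
    rfl
  | h0 => simp
  | hadd x y hx hy => rw [map_add, map_add, hx, hy, map_add, map_add, smul_add]; abel

lemma T_L₁ (x : V) : s.T (s.L₁ x) = s.L₁ (s.T x) - (2 : K) • s.L₁ x := by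
  induction x using gr_ind s.S.int with
  | hgr b x hx =>
    rw [s.L₁_apply hx, s.L₁_apply (s.T_E hx), ← prjE_T, T_N₁, map_sub, map_smul]
  | h0 => simp
  | hadd x y hx hy => rw [map_add, map_add, hx, hy, map_add, map_add, smul_add]; abel

lemma T_L₂ (x : V) : s.T (s.L₂ x) = s.L₂ (s.T x) - (2 : K) • s.L₂ x := by
  induction x using gr_ind s.S.int with
  | hgr b x hx =>
    rw [s.L₂_apply hx, s.L₂_apply (s.T_E hx), ← prjE_T, T_N₂, map_sub, map_smul]
  | h0 => simp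
  | hadd x y hx hy => rw [map_add, map_add, hx, hy, map_add, map_add, smul_add]; abel

lemma L₁_E {b : ℤ} {x : V} (hx : x ∈ E b) : s.L₁ x ∈ E (b - 2) := by
  rw [s.L₁_apply hx]; exact prj_mem _ _ _

lemma L₂_E {b : ℤ} {x : V} (hx : x ∈ E b) : s.L₂ x ∈ E b := by
  rw [s.L₂_apply hx]; exact prj_mem _ _ _

lemma Y_L₁ (x : V) : s.Y (s.L₁ x) = s.L₁ (s.Y x) - (2 : K) • s.L₁ x := by
  induction x using gr_ind s.S.int with
  | hgr b x hx =>
    rw [s.Y_apply (s.L₁_E hx), s.Y_apply hx, map_smul, ← sub_smul]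
    push_cast
    rfl
  | h0 => simp
  | hadd x y hx hy => rw [map_add, map_add, hx, hy, map_add, map_add, smul_add]; abel

lemma Y_L₂ (x : V) : s.Y (s.L₂ x) = s.L₂ (s.Y x) := by
  induction x using gr_ind s.S.int with
  | hgr b x hx => rw [s.Y_apply (s.L₂_E hx), s.Y_apply hx, map_smul]
  | h0 => simp
  | hadd x y hx hy => rw [map_add, map_add, hx, hy, map_add, map_add]

lemma Y_T (x : V) : s.Y (s.T x) = s.T (s.Y x) := by
  induction x using gr_ind s.S.int with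
  | hgr b x hx => rw [s.Y_apply (s.T_E hx), s.Y_apply hx, map_smul]
  | h0 => simp
  | hadd x y hx hy => rw [map_add, map_add, hx, hy, map_add, map_add]

lemma prj_kill {b b' : ℤ} (h : b < b') {x : V} (hx : x ∈ M b) : prj s.S.int b' x = 0 :=
  s.S.prj_zero s.D.mono s.D.bot h hx

lemma prj_sub {b : ℤ} {x : V} (hx : x ∈ M b) : prj s.S.int b x - x ∈ M (b - 1) :=
  s.S.sub_prj s.D.mono s.D.bot hx

lemma L_comm (x : V) : s.L₁ (s.L₂ x) = s.L₂ (s.L₁ x) := by
  induction x using gr_ind s.S.int with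
  | hgr b x hx =>
    have hxM := s.S.le b hx
    rw [s.L₁_apply (s.L₂_E hx), s.L₂_apply hx, s.L₂_apply (s.L₁_E hx), s.L₁_apply hx]
    have h1 : prj s.S.int (b - 2) (N₁ (prj s.S.int b (N₂ x))) =
        prj s.S.int (b - 2) (N₁ (N₂ x)) := by
      rw [← sub_eq_zero, ← map_sub, ← map_sub]
      refine s.prj_kill (b := b - 1 - 2) (by omega) (s.D.N1M _ _ (s.prj_sub ?_))
      exact s.D.N2M _ _ hxM
    have h2 : prj s.S.int (b - 2) (N₂ (prj s.S.int (b - 2) (N₁ x))) =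
        prj s.S.int (b - 2) (N₂ (N₁ x)) := by
      rw [← sub_eq_zero, ← map_sub, ← map_sub]
      refine s.prj_kill (b := b - 2 - 1) (by omega) (s.D.N2M _ _ (s.prj_sub ?_))
      exact s.D.N1M _ _ hxM
    rw [h1, h2, s.D.comm]
  | h0 => simp
  | hadd x y hx hy => rw [map_add, map_add, hx, hy, map_add, map_add]

lemma L₁_pow {b : ℤ} {x : V} (hx : x ∈ E b) (k : ℕ) :
    (s.L₁ ^ k) x ∈ E (b - 2 * k) ∧ (s.L₁ ^ k) x - (N₁ ^ k) x ∈ M (b - 2 * k - 1) := by
  induction k with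
  | zero => simp [hx]
  | succ k ih =>
    obtain ⟨h1, h2⟩ := ih
    rw [pow_succ', Module.End.mul_apply, pow_succ' N₁, Module.End.mul_apply]
    have h3 := s.L₁_E h1
    have e : b - 2 * (k : ℤ) - 2 = b - 2 * ((k + 1 : ℕ) : ℤ) := by push_cast; ring
    rw [e] at h3
    refine ⟨h3, ?_⟩
    rw [s.L₁_apply h1]
    have h4 : N₁ ((s.L₁ ^ k) x) ∈ M (b - 2 * k - 2) := s.D.N1M _ _ (s.S.le _ h1)
    have h5 := s.prj_sub h4
    have h6 := s.D.N1M _ _ h2
    rw [map_sub] at h6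
    have h7 : prj s.S.int (b - 2 * k - 2) (N₁ ((s.L₁ ^ k) x)) - N₁ ((N₁ ^ k) x) =
        (prj s.S.int (b - 2 * k - 2) (N₁ ((s.L₁ ^ k) x)) - N₁ ((s.L₁ ^ k) x)) +
        (N₁ ((s.L₁ ^ k) x) - N₁ ((N₁ ^ k) x)) := by abel
    rw [h7]
    refine add_mem ?_ ?_
    · exact s.D.mono (by push_cast; omega) h5
    · exact s.D.mono (by push_cast; omega) h6

lemma L₂_pow {b : ℤ} {x : V} (hx : x ∈ E b) (k : ℕ) :
    (s.L₂ ^ k) x ∈ E b ∧ (s.L₂ ^ k) x - (N₂ ^ k) x ∈ M (b - 1) := by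
  induction k with
  | zero => simp [hx]
  | succ k ih =>
    obtain ⟨h1, h2⟩ := ih
    rw [pow_succ', Module.End.mul_apply, pow_succ' N₂, Module.End.mul_apply]
    refine ⟨s.L₂_E h1, ?_⟩
    rw [s.L₂_apply h1]
    have h4 : N₂ ((s.L₂ ^ k) x) ∈ M b := s.D.N2M _ _ (s.S.le _ h1)
    have h5 := s.prj_sub h4
    have h6 := s.D.N2M _ _ h2
    rw [map_sub] at h6
    have h7 : prj s.S.int b (N₂ ((s.L₂ ^ k) x)) - N₂ ((N₂ ^ k) x) =
        (prj s.S.int b (N₂ ((s.L₂ ^ k) x)) - N₂ ((s.L₂ ^ k) x)) +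
        (N₂ ((s.L₂ ^ k) x) - N₂ ((N₂ ^ k) x)) := by abel
    rw [h7]
    exact add_mem h5 h6

lemma HL1_inj (b : ℕ) {x : V} (hx : x ∈ E b) (h : (s.L₁ ^ b) x = 0) : x = 0 := by
  obtain ⟨-, h2⟩ := s.L₁_pow hx b
  rw [h, zero_sub] at h2
  apply s.S.disj b x hx
  apply s.D.inj1 b x (s.S.le _ hx)
  have h3 := Submodule.neg_mem _ h2
  rw [neg_neg] at h3
  exact s.D.mono (by omega) h3

lemma HL1_surj (b : ℕ) {y : V} (hy : y ∈ E (-b)) : ∃ x ∈ E b, (s.L₁ ^ b) x = y := by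
  obtain ⟨x, hx, hxy⟩ := s.D.surj1 b y (s.S.le _ hy)
  have h1 := prj_mem s.S.int (b : ℤ) x
  refine ⟨_, h1, ?_⟩
  obtain ⟨h2, h3⟩ := s.L₁_pow h1 b
  rw [show (b : ℤ) - 2 * b = -b by ring] at h2 h3
  have h4 : (N₁ ^ b) (prj s.S.int (b : ℤ) x - x) ∈ M (-b - 1) := by
    have h5 : ∀ (k : ℕ) (c : ℤ) (z : V), z ∈ M c → (N₁ ^ k) z ∈ M (c - 2 * k) := by
      intro k
      induction k with
      | zero => intro c z hz; simpa using hz
      | succ k ih =>
        intro c z hz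
        rw [pow_succ', Module.End.mul_apply]
        have := s.D.N1M _ _ (ih c z hz)
        exact s.D.mono (by push_cast; omega) this
    exact s.D.mono (by omega) (h5 b _ _ (s.prj_sub hx))
  rw [← sub_eq_zero]
  apply s.S.disj (-b) _ (sub_mem h2 hy)
  have h6 : (s.L₁ ^ b) (prj s.S.int (b : ℤ) x) - y =
      ((s.L₁ ^ b) (prj s.S.int (b : ℤ) x) - (N₁ ^ b) (prj s.S.int (b : ℤ) x)) +
      (N₁ ^ b) (prj s.S.int (b : ℤ) x - x) - (y - (N₁ ^ b) x) := by
    rw [map_sub]; abel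
  rw [h6]
  exact sub_mem (add_mem h3 h4) hxy

lemma HL2_inj (b : ℤ) (c : ℕ) {x : V} (hx : x ∈ E b) (hx' : x ∈ U (b + c))
    (h : (s.L₂ ^ c) x = 0) : x = 0 := by
  obtain ⟨-, h2⟩ := s.L₂_pow hx c
  rw [h, zero_sub] at h2
  apply s.S.disj b x hx
  apply s.D.inj2 b c x (s.S.le _ hx) hx'
  have h3 := Submodule.neg_mem _ h2
  rwa [neg_neg] at h3

lemma HL2_surj (b : ℤ) (c : ℕ) {y : V} (hy : y ∈ E b) (hy' : y ∈ U (b - c)) :
    ∃ x ∈ E b, x ∈ U (b + c) ∧ (s.L₂ ^ c) x = y := by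
  obtain ⟨x, hx, hx', hxy⟩ := s.D.surj2 b c y (s.S.le _ hy) hy'
  have h1 := prj_mem s.S.int b x
  refine ⟨_, h1, s.prjE_U hx' b, ?_⟩
  obtain ⟨h2, h3⟩ := s.L₂_pow h1 c
  have h4 : (N₂ ^ c) (prj s.S.int b x - x) ∈ M (b - 1) := by
    have h5 : ∀ (k : ℕ) (c : ℤ) (z : V), z ∈ M c → (N₂ ^ k) z ∈ M c := by
      intro k
      induction k with
      | zero => intro c z hz; simpa using hz
      | succ k ih =>
        intro c z hz
        rw [pow_succ', Module.End.mul_apply]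
        exact s.D.N2M _ _ (ih c z hz)
    exact h5 c _ _ (s.prj_sub hx)
  rw [← sub_eq_zero]
  apply s.S.disj b _ (sub_mem h2 hy)
  have h6 : (s.L₂ ^ c) (prj s.S.int b x) - y =
      ((s.L₂ ^ c) (prj s.S.int b x) - (N₂ ^ c) (prj s.S.int b x)) +
      (N₂ ^ c) (prj s.S.int b x - x) - (y - (N₂ ^ c) x) := by
    rw [map_sub]; abel
  rw [h6]
  exact sub_mem (add_mem h3 h4) hxy

end Setup

end Pool.Agent.W5h86.MW
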