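import Pool.Agent.W5h86.MW.Pur

/-!
# The members of the family: conjugation by exponentials
-/

set_option autoImplicit false
set_option linter.unusedSectionVars false
set_option linter.unusedVariables false

open Module

namespace Pool.Agent.W5h86.MW

open Pool.Agent.Y143 (IsWeilNumber IsMonodromyFiltration IsMWPure)

universe u v

variable {Ω : Type u} [Field Ω] [CharZero Ω] {V : Type v} [AddCommGroup V] [Module Ω V]
  [Module.Finite Ω V]

/-- The structure of a rational vector space on the endomorphisms. -/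
noncomputable abbrev ratEnd (Ω : Type u) [Field Ω] [CharZero Ω] (V : Type v) [AddCommGroup V]
    [Module Ω V] : Module ℚ (Module.End Ω V) := Module.compHom _ (algebraMap ℚ Ω)

lemma pow_finrank_zero {N : Module.End Ω V} (hN : IsNilpotent N) : N ^ finrank Ω V = 0 := by
  have h1 := (LinearMap.charpoly_eq_X_pow_iff (φ := N)).2 (fun m => by
    obtain ⟨k, hk⟩ := hN
    exact ⟨k, by rw [hk]; rfl⟩)
  have h2 := LinearMap.aeval_self_charpoly N
  rw [h1, map_pow, Polynomial.aeval_X] at h2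
  exact h2

lemma expN_eq {N : Module.End Ω V} (hN : IsNilpotent N) :
    expN N = @IsNilpotent.exp _ _ (ratEnd Ω V) N := by
  let _ : Module ℚ (Module.End Ω V) := ratEnd Ω V
  rw [IsNilpotent.exp_eq_sum (pow_finrank_zero hN), expN]
  apply Finset.sum_congr rfl
  intro k _
  change ((k.factorial : Ω)⁻¹) • N ^ k = (algebraMap ℚ Ω ((k.factorial : ℚ)⁻¹)) • N ^ k
  rw [map_inv₀, map_natCast]

lemma expN_add {A B : Module.End Ω V} (hA : IsNilpotent A) (hB : IsNilpotent B)
    (h : Commute A B) : expN (A + B) = expN A * expN B := by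
  let _ : Module ℚ (Module.End Ω V) := ratEnd Ω V
  rw [expN_eq hA, expN_eq hB, expN_eq (h.isNilpotent_add hA hB)]
  exact IsNilpotent.exp_add_of_commute h hA hB

lemma expN_zero : expN (0 : Module.End Ω V) = 1 := by
  let _ : Module ℚ (Module.End Ω V) := ratEnd Ω V
  rw [expN_eq IsNilpotent.zero]
  exact IsNilpotent.exp_zero

/-- Exchange of an exponential with an operator. -/
lemma expN_swap {N P : Module.End Ω V} {c : Ω} (h : P * N = c • (N * P)) :
    P * expN N = expN (c • N) * P := by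
  have key : ∀ k : ℕ, P * N ^ k = c ^ k • (N ^ k * P) := by
    intro k
    induction k with
    | zero => simp
    | succ k ih =>
      rw [pow_succ, ← mul_assoc, ih, smul_mul_assoc, mul_assoc, h, mul_smul_comm, smul_smul,
        ← mul_assoc, ← pow_succ, pow_succ c]
  rw [expN, expN, Finset.mul_sum, Finset.sum_mul]
  apply Finset.sum_congr rfl
  intro k _
  rw [mul_smul_comm, key, smul_pow, smul_mul_assoc, smul_mul_assoc, smul_comm]

lemma expN_comm {N P : Module.End Ω V} (h : Commute P N) : Commute P (expN N) := by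
  have := expN_swap (N := N) (P := P) (c := 1) (by rw [one_smul]; exact h.eq)
  rw [one_smul] at this
  exact this

namespace Pencil

variable {q : ℕ} (P : Pencil.{u, v} Ω q)

lemma commN : Commute P.N₁ P.N₂ := LinearMap.ext P.comm

lemma N₁_pow (f : ℕ) : P.N₁ * P.Φ ^ f = ((q : Ω) ^ f) • (P.Φ ^ f * P.N₁) := by
  induction f with
  | zero => simp
  | succ f ih =>
    have h1 : P.N₁ * P.Φ = (q : Ω) • (P.Φ * P.N₁) := LinearMap.ext P.N₁_Φ
    rw [pow_succ, ← mul_assoc, ih, smul_mul_assoc, mul_assoc, h1, mul_smul_comm, smul_smul,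
      ← mul_assoc, ← pow_succ, ← pow_succ]

lemma N₂_pow (f : ℕ) : P.N₂ * P.Φ ^ f = ((q : Ω) ^ f) • (P.Φ ^ f * P.N₂) := by
  induction f with
  | zero => simp
  | succ f ih =>
    have h1 : P.N₂ * P.Φ = (q : Ω) • (P.Φ * P.N₂) := LinearMap.ext P.N₂_Φ
    rw [pow_succ, ← mul_assoc, ih, smul_mul_assoc, mul_assoc, h1, mul_smul_comm, smul_smul,
      ← mul_assoc, ← pow_succ, ← pow_succ]

/-- The Frobenius of a member is conjugate to a power of `Φ`, by an operator which commutes with
the monodromy. -/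
lemma exists_conj (hq : 1 < q) {m : ℚ} {e f : ℕ} {Φ' N' : Module.End Ω P.V}
    (h : P.IsMember m e f Φ' N') : ∃ g g' : Module.End Ω P.V, g * g' = 1 ∧ g' * g = 1 ∧
      Φ' * g = g * P.Φ ^ f ∧ N' * g = g * N' := by
  obtain ⟨he, hf, ⟨c, c', hΦ⟩, hN⟩ := h
  rw [Pencil.memberFrob] at hΦ
  rw [Pencil.memberMon] at hN
  have hq0 : (q : Ω) ^ f ≠ 0 := pow_ne_zero _ (Nat.cast_ne_zero.2 (by omega))
  have hr : (1 : Ω) - ((q : Ω) ^ f)⁻¹ ≠ 0 := by
    intro h0
    have h1 : ((q : Ω) ^ f)⁻¹ = 1 := (sub_eq_zero.1 h0).symm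
    have h1' : (q : Ω) ^ f = 1 := inv_eq_one.1 h1
    have h2 : ((q ^ f : ℕ) : Ω) = ((1 : ℕ) : Ω) := by push_cast; exact h1'
    have h3 := Nat.cast_injective h2
    exact absurd h3 (Nat.one_lt_pow hf.ne' hq).ne'
  set r : Ω := ((q : Ω) ^ f)⁻¹ with hr'
  have s1 : ∀ x : Ω, P.Φ ^ f * (x • P.N₁) = r • ((x • P.N₁) * P.Φ ^ f) := by
    intro x
    rw [mul_smul_comm, smul_mul_assoc, P.N₁_pow, smul_smul, smul_smul]
    congr 1
    rw [hr']
    field_simp
  have s2 : ∀ x : Ω, P.Φ ^ f * (x • P.N₂) = r • ((x • P.N₂) * P.Φ ^ f) := by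
    intro x
    rw [mul_smul_comm, smul_mul_assoc, P.N₂_pow, smul_smul, smul_smul]
    congr 1
    rw [hr']
    field_simp
  have n1 : ∀ x : Ω, IsNilpotent (x • P.N₁) := fun x => P.nil₁.smul x
  have n2 : ∀ x : Ω, IsNilpotent (x • P.N₂) := fun x => P.nil₂.smul x
  have c12 : ∀ x y : Ω, Commute (x • P.N₁) (y • P.N₂) := fun x y =>
    (P.commN.smul_left x).smul_right y
  have c11 : ∀ x y : Ω, Commute (x • P.N₁) (y • P.N₁) := fun x y =>
    ((Commute.refl P.N₁).smul_left x).smul_right y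
  have c22 : ∀ x y : Ω, Commute (x • P.N₂) (y • P.N₂) := fun x y =>
    ((Commute.refl P.N₂).smul_left x).smul_right y
  have e11 : ∀ x y : Ω, expN (x • P.N₁) * expN (y • P.N₁) = expN ((x + y) • P.N₁) := by
    intro x y
    rw [add_smul, expN_add (n1 x) (n1 y) (c11 x y)]
  have e22 : ∀ x y : Ω, expN (x • P.N₂) * expN (y • P.N₂) = expN ((x + y) • P.N₂) := by
    intro x y
    rw [add_smul, expN_add (n2 x) (n2 y) (c22 x y)]
  have e12 : ∀ x y : Ω, expN (x • P.N₁) * expN (y • P.N₂) = expN (y • P.N₂) * expN (x • P.N₁) := by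
    intro x y
    exact (expN_comm ((expN_comm (c12 x y)).symm)).symm
  set a : Ω := c / (1 - r) with ha
  set b : Ω := r * c' / (1 - r) with hb
  have hab : c + r * a = a := by rw [ha]; field_simp; ring
  have hab' : r * c' + r * b = b := by rw [hb]; field_simp; ring
  refine ⟨expN (a • P.N₁) * expN (b • P.N₂), expN ((-b) • P.N₂) * expN ((-a) • P.N₁), ?_, ?_, ?_,
    ?_⟩
  · calc expN (a • P.N₁) * expN (b • P.N₂) * (expN ((-b) • P.N₂) * expN ((-a) • P.N₁))
        = expN (a • P.N₁) * (expN (b • P.N₂) * expN ((-b) • P.N₂)) * expN ((-a) • P.N₁) := by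
          simp only [mul_assoc]
      _ = 1 := by
          rw [e22, add_neg_cancel, zero_smul, expN_zero, mul_one, e11, add_neg_cancel, zero_smul,
            expN_zero]
  · calc expN ((-b) • P.N₂) * expN ((-a) • P.N₁) * (expN (a • P.N₁) * expN (b • P.N₂))
        = expN ((-b) • P.N₂) * (expN ((-a) • P.N₁) * expN (a • P.N₁)) * expN (b • P.N₂) := by
          simp only [mul_assoc]
      _ = 1 := by
          rw [e11, neg_add_cancel, zero_smul, expN_zero, mul_one, e22, neg_add_cancel, zero_smul,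
            expN_zero]
  · have t1 : P.Φ ^ f * expN (c' • P.N₂) = expN ((r * c') • P.N₂) * P.Φ ^ f := by
      rw [expN_swap (s2 c'), smul_smul]
    have t2 : P.Φ ^ f * expN (a • P.N₁) = expN ((r * a) • P.N₁) * P.Φ ^ f := by
      rw [expN_swap (s1 a), smul_smul]
    have t3 : P.Φ ^ f * expN (b • P.N₂) = expN ((r * b) • P.N₂) * P.Φ ^ f := by
      rw [expN_swap (s2 b), smul_smul]
    calc Φ' * (expN (a • P.N₁) * expN (b • P.N₂))
        = expN (c • P.N₁) * (P.Φ ^ f * expN (c' • P.N₂)) * expN (a • P.N₁) * expN (b • P.N₂) := by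
          rw [hΦ]; simp only [mul_assoc]
      _ = expN (c • P.N₁) * expN ((r * c') • P.N₂) * (P.Φ ^ f * expN (a • P.N₁)) *
          expN (b • P.N₂) := by rw [t1]; simp only [mul_assoc]
      _ = expN (c • P.N₁) * (expN ((r * c') • P.N₂) * expN ((r * a) • P.N₁)) *
          (P.Φ ^ f * expN (b • P.N₂)) := by rw [t2]; simp only [mul_assoc]
      _ = expN (c • P.N₁) * (expN ((r * a) • P.N₁) * expN ((r * c') • P.N₂)) *
          (expN ((r * b) • P.N₂) * P.Φ ^ f) := by rw [t3, e12]
      _ = (expN (c • P.N₁) * expN ((r * a) • P.N₁)) *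
          (expN ((r * c') • P.N₂) * expN ((r * b) • P.N₂)) * P.Φ ^ f := by
          simp only [mul_assoc]
      _ = expN (a • P.N₁) * expN (b • P.N₂) * P.Φ ^ f := by rw [e11, e22, hab, hab']
  · have h1 : Commute N' P.N₁ := by
      rw [hN]
      exact (P.commN.symm.add_left ((Commute.refl P.N₁).smul_left _)).smul_left _
    have h2 : Commute N' P.N₂ := by
      rw [hN]
      exact ((Commute.refl P.N₂).add_left (P.commN.smul_left _)).smul_left _
    exact ((expN_comm (h1.smul_right a)).mul_right (expN_comm (h2.smul_right b))).eq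

/-- The total monodromy. -/
noncomputable def tot (t : Ω) : Module.End Ω P.V := P.N₂ + t • P.N₁

lemma tot_Φ (t : Ω) (x : P.V) : P.tot t (P.Φ x) = (q : Ω) • P.Φ (P.tot t x) := by
  rw [tot, LinearMap.add_apply, LinearMap.smul_apply, LinearMap.add_apply, LinearMap.smul_apply,
    P.N₁_Φ, P.N₂_Φ, map_add, map_smul, smul_add, smul_comm]

variable [IsAlgClosed Ω]

lemma member_rel {m : ℚ} {e f : ℕ} {N' : Module.End Ω P.V} (hN : N' = (e : Ω) • P.tot m)
    (x : P.V) : N' ((P.Φ ^ f) x) = ((q ^ f : ℕ) : Ω) • (P.Φ ^ f) (N' x) := by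
  have h1 : ∀ f : ℕ, P.tot m * P.Φ ^ f = ((q : Ω) ^ f) • (P.Φ ^ f * P.tot m) := by
    intro f
    rw [tot, add_mul, mul_add, smul_add, P.N₂_pow, smul_mul_assoc, P.N₁_pow, mul_smul_comm,
      smul_comm]
  have h2 := LinearMap.congr_fun (h1 f) x
  rw [Module.End.mul_apply, LinearMap.smul_apply, Module.End.mul_apply] at h2
  rw [hN, LinearMap.smul_apply, LinearMap.smul_apply, h2, map_smul, smul_comm]
  push_cast
  rfl

/-- The members with the hard Lefschetz property are mw pure. -/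
theorem member_pure (hq : 1 < q) {i : ℤ} (hall : AllWeil q P.Φ) {m : ℚ}
    (h : ∀ a : ℕ, HLat (fun a => ws q P.Φ (i + a)) a (P.tot m)) {e f : ℕ}
    {Φ' N' : Module.End Ω P.V} (hm : P.IsMember m e f Φ' N') : IsMWPure (q ^ f) i Φ' N' := by
  obtain ⟨g, g', h1, h2, h3, h4⟩ := P.exists_conj hq hm
  obtain ⟨he, hf, -, hN⟩ := hm
  rw [Pencil.memberMon] at hN
  apply pure_conj h1 h2 h3 h4
  apply HL_pure (Nat.one_lt_pow hf.ne' hq) (allWeil_pow hq hall) (P.member_rel hN)
  intro a
  have e1 : (fun a => ws (q ^ f) (P.Φ ^ f) (i + a)) = fun a => ws q P.Φ (i + a) := by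
    funext a
    exact ws_pow hq hf hall _
  rw [e1, hN]
  exact HLat_smul (Nat.cast_ne_zero.2 he.ne') (h a)

/-- A mw pure member has the hard Lefschetz property. -/
theorem HL_of_member (hq : 1 < q) {i : ℤ} {m : ℚ} {e f : ℕ} {Φ' N' : Module.End Ω P.V}
    (hm : P.IsMember m e f Φ' N') (hp : IsMWPure (q ^ f) i Φ' N') :
    AllWeil q P.Φ ∧ ∀ a : ℕ, HLat (fun a => ws q P.Φ (i + a)) a (P.tot m) := by
  obtain ⟨g, g', h1, h2, h3, h4⟩ := P.exists_conj hq hm
  obtain ⟨he, hf, -, hN⟩ := hm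
  rw [Pencil.memberMon] at hN
  have h3' : P.Φ ^ f * g' = g' * Φ' := by
    calc P.Φ ^ f * g' = (g' * g) * (P.Φ ^ f * g') := by rw [h2, one_mul]
      _ = g' * (g * P.Φ ^ f) * g' := by simp only [mul_assoc]
      _ = g' * (Φ' * g) * g' := by rw [h3]
      _ = g' * Φ' * (g * g') := by simp only [mul_assoc]
      _ = g' * Φ' := by rw [h1, mul_one]
  have h4' : N' * g' = g' * N' := by
    calc N' * g' = (g' * g) * (N' * g') := by rw [h2, one_mul]
      _ = g' * (g * N') * g' := by simp only [mul_assoc]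
      _ = g' * (N' * g) * g' := by rw [h4]
      _ = g' * N' * (g * g') := by simp only [mul_assoc]
      _ = g' * N' := by rw [h1, mul_one]
  have hp' : IsMWPure (q ^ f) i (P.Φ ^ f) N' := pure_conj h2 h1 h3' h4' hp
  have hall : AllWeil q P.Φ := allWeil_of_pow hf (pure_allWeil hp')
  refine ⟨hall, fun a => ?_⟩
  have h5 := pure_HL (Nat.one_lt_pow hf.ne' hq) (P.member_rel hN) hp' a
  have e1 : (fun a => ws (q ^ f) (P.Φ ^ f) (i + a)) = fun a => ws q P.Φ (i + a) := by
    funext a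
    exact ws_pow hq hf hall _
  rw [e1, hN] at h5
  have he0 : (e : Ω) ≠ 0 := Nat.cast_ne_zero.2 he.ne'
  have h6 := HLat_smul (inv_ne_zero he0) h5
  rwa [smul_smul, inv_mul_cancel₀ he0, one_smul] at h6

/-- If the hard Lefschetz property holds for some parameter in each degree, all members are mw pure
except those with at most `(dim V)^2 / 2` values of `m`. -/
theorem exists_radii (hq : 1 < q) {i : ℤ} (hall : AllWeil q P.Φ)
    (hex : ∀ a : ℕ, ∃ t : Ω, HLat (fun a => ws q P.Φ (i + a)) a (P.tot t)) :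
    ∃ X : Finset ℚ, 2 * X.card ≤ (finrank Ω P.V) ^ 2 ∧ ∀ m ∉ X, ∀ (e f : ℕ)
      (Φ' N' : Module.End Ω P.V), P.IsMember m e f Φ' N' → IsMWPure (q ^ f) i Φ' N' := by
  classical
  have hN1 : ∀ a x, x ∈ ws q P.Φ (i + a) → P.N₁ x ∈ ws q P.Φ (i + (a - 2)) := by
    intro a x hx
    have := N_ws hq P.N₁_Φ hx
    rwa [show i + a - 2 = i + (a - 2) by ring] at this
  have hN2 : ∀ a x, x ∈ ws q P.Φ (i + a) → P.N₂ x ∈ ws q P.Φ (i + (a - 2)) := by
    intro a x hx
    have := N_ws hq P.N₂_Φ hx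
    rwa [show i + a - 2 = i + (a - 2) by ring] at this
  obtain ⟨X, hX, hXe⟩ := exists_exceptional (shift_internal (ws_internal hq hall) i) hN1 hN2 hex
  have hinj : Function.Injective (fun m : ℚ => (m : Ω)) := Rat.cast_injective
  refine ⟨X.preimage (fun m : ℚ => (m : Ω)) hinj.injOn, ?_, ?_⟩
  · have := Finset.card_preimage X (fun m : ℚ => (m : Ω)) hinj.injOn
    have h2 : (X.preimage (fun m : ℚ => (m : Ω)) hinj.injOn).card ≤ X.card := by
      rw [this]
      exact Finset.card_filter_le _ _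
    omega
  · intro m hm e f Φ' N' hmem
    rw [Finset.mem_preimage] at hm
    exact P.member_pure hq hall (fun a => hXe _ hm a) hmem

end Pencil

end Pool.Agent.W5h86.MW
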