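import Pool.Agent.W5h86.MW.E1
import Pool.Agent.W5h86.MW.Comp
import Pool.Agent.Y143.Pure

/-!
# The nearby cohomology of a degenerate fibre whose strata are mw pure
-/

set_option autoImplicit false
set_option linter.unusedSectionVars false
set_option linter.unusedVariables false

open Module

namespace Pool.Agent.W5h86.MW

open Pool.Agent.Y143 (IsWeilNumber IsMonodromyFiltration IsMWPure InColumn exists_eigen HasGraded)

universe u v

variable {Ω : Type u} [Field Ω] [CharZero Ω] [IsAlgClosed Ω] {S : Strata.{u, v} Ω} {q : ℕ} {i : ℕ}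

namespace Nearby

variable (Y : Nearby S q i)

/-- The graph of the identification of the graded piece. -/
def gph (b : ℤ) : Submodule Ω (Y.V × S.EE (-b) i) :=
  (Y.sp b).comap (LinearMap.id.prodMap (S.E₁ (-b) i).subtype)

lemma mem_gph {b : ℤ} {v : Y.V} {x : S.EE (-b) i} :
    (v, x) ∈ Y.gph b ↔ (v, (x : S.C)) ∈ Y.sp b := Iff.rfl

/-- The operator on the product. -/
noncomputable def TX (b : ℤ) : Module.End Ω (Y.V × S.EE (-b) i) := Y.Φ.prodMap (S.Fr q (-b) i)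

lemma gph_stable (b : ℤ) (z : Y.V × S.EE (-b) i) (hz : z ∈ Y.gph b) : Y.TX b z ∈ Y.gph b :=
  Y.sp_Φ b z.1 z.2 hz

lemma ex_right {b : ℤ} {v : Y.V} (hv : v ∈ Y.M b) :
    ∃ x : S.EE (-b) i, (v, x) ∈ Y.gph b := by
  obtain ⟨x, hx⟩ := Y.graded.sp_left b v hv
  exact ⟨⟨x, ((Y.graded.sp_mem b v x hx).2).1⟩, hx⟩

variable (hS : S.IsArithmetic q) (hq : 1 < q)

include hS hq

/-- The differential to the column `-b`. -/
noncomputable def dL (S : Strata.{u, v} Ω) (b : ℤ) (i : ℤ) :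
    S.EE (-b - 1) (i - 1) →ₗ[Ω] S.EE (-b) i :=
  S.dr (-b - 1) (i - 1) (-b) i (by ring) (by ring)

/-- The differential from the column `-b`. -/
noncomputable def dR (S : Strata.{u, v} Ω) (b : ℤ) (i : ℤ) :
    S.EE (-b) i →ₗ[Ω] S.EE (-b + 1) (i + 1) :=
  S.dr (-b) i (-b + 1) (i + 1) rfl rfl

omit hS hq in
lemma mem_cob {b n : ℤ} (x : S.EE (-b) n) :
    (x : S.C) ∈ S.coboundaries (-b) n ↔ ∃ z, dL S b n z = x := by
  constructor
  · rintro ⟨z, hz, hzx⟩
    exact ⟨⟨z, hz⟩, Subtype.ext hzx⟩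
  · rintro ⟨z, hz⟩
    exact ⟨z, z.2, congrArg Subtype.val hz⟩

omit hS hq in
lemma mem_coc {b n : ℤ} (x : S.EE (-b) n) :
    (x : S.C) ∈ S.cocycles (-b) n ↔ dR S b n x = 0 := by
  constructor
  · rintro ⟨-, hx⟩
    exact Subtype.ext (LinearMap.mem_ker.1 hx)
  · intro h
    exact ⟨x.2, LinearMap.mem_ker.2 (congrArg Subtype.val h)⟩

omit hq in
lemma dd {b n : ℤ} (z : S.EE (-b - 1) (n - 1)) : dR S b n (dL S b n z) = 0 := by
  apply Subtype.ext
  have h := S.diff_diff hS z.2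
  rw [show -b - 1 + 1 = -b by ring] at h
  exact h

lemma dL_F {b n : ℤ} (z : S.EE (-b - 1) (n - 1)) :
    S.Fr q (-b) n (dL S b n z) = dL S b n (S.Fr q (-b - 1) (n - 1) z) := by
  apply Subtype.ext
  have h := S.frobC_diff hS (by omega : q ≠ 0) (-b - 1) z
  rw [show -b - 1 + 1 = -b by ring] at h
  exact h

lemma dR_F {b n : ℤ} (z : S.EE (-b) n) :
    S.Fr q (-b + 1) (n + 1) (dR S b n z) = dR S b n (S.Fr q (-b) n z) :=
  Subtype.ext (S.frobC_diff hS (by omega : q ≠ 0) (-b) z)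

omit hq in
lemma dL_N {b n : ℤ} (z : S.EE (-b - 1) (n - 1)) :
    S.Nr (-b) n (dL S b n z) = dL S b n (S.Nr (-b - 1) (n - 1) z) :=
  Subtype.ext (S.monC_diff hS (-b - 1) z)

omit hq in
lemma dR_N {b n : ℤ} (z : S.EE (-b) n) :
    S.Nr (-b + 1) (n + 1) (dR S b n z) = dR S b n (S.Nr (-b) n z) :=
  Subtype.ext (S.monC_diff hS (-b) z)

variable (hp₀ : S.PureIn q (i - 1)) (hp : S.PureIn q i) (hp₁ : S.PureIn q (i + 1))

include hp₀ hp hp₁

/-- The hard Lefschetz property of the monodromy on the `E_2` term. -/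
lemma E2_HL (b : ℤ) (c : ℕ) :
    (∀ y, dR S b i y = 0 → y ∈ ws q (S.Fr q (-b) i) (i + b - c) → ∃ x, dR S b i x = 0 ∧
      x ∈ ws q (S.Fr q (-b) i) (i + b + c) ∧ ((S.Nr (-b) i) ^ c) x = y) ∧
    (∀ x, dR S b i x = 0 → x ∈ ws q (S.Fr q (-b) i) (i + b + c) →
      (∃ z, dL S b i z = ((S.Nr (-b) i) ^ c) x) → ∃ z, dL S b i z = x) := by
  have HA := S.Nr_HL hS hq (r := -b - 1) hp₀ c
  have HB := S.Nr_HL hS hq (r := -b) hp c
  have HD := S.Nr_HL hS hq (r := -b + 1) hp₁ c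
  have eA : (i : ℤ) - 1 - (-b - 1) = i + b := by ring
  have eB : (i : ℤ) - -b = i + b := by ring
  have eD : (i : ℤ) + 1 - (-b + 1) = i + b := by ring
  rw [eA] at HA
  rw [eB] at HB
  rw [eD] at HD
  exact complex_HL hq (S.Fr_allWeil hq hp₀) (S.Fr_allWeil hq hp) (S.Fr_allWeil hq hp₁)
    (dL S b i) (dR S b i) (fun x => dL_F hS hq x) (fun x => dL_N hS x) (fun x => dR_F hS hq x)
    (fun x => dR_N hS x) (S.Nr_Fr hS _ _) (S.Nr_Fr hS _ _) (fun x => dd hS x) HA HB HD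

omit hp₀ hp₁ in
/-- The eigenvalues of the Frobenius on the nearby cohomology are Weil numbers. -/
lemma Φ_allWeil : AllWeil q Y.Φ := by
  intro α v hv hvα
  obtain ⟨b, hb, hb'⟩ := exists_step Y.monodromy.mono Y.monodromy.bot Y.monodromy.top hv
  obtain ⟨x, hx⟩ := Y.ex_right hb
  have hxB : (x : S.C) ∉ S.coboundaries (-b) i := fun h =>
    hb' ((Y.graded.sp_ker b v x hx).2 h)
  have h1 : (x : S.C) ∈ S.cocycles (-b) i := (Y.graded.sp_mem b v x hx).2
  have h2 : ((Y.Φ v - α • v, S.Fr q (-b) i x - α • x) : Y.V × S.EE (-b) i) ∈ Y.gph b :=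
    sub_mem (Y.gph_stable b _ hx) (Submodule.smul_mem _ α hx)
  have h3 : ((S.Fr q (-b) i x - α • x : S.EE (-b) i) : S.C) ∈ S.coboundaries (-b) i := by
    apply (Y.graded.sp_ker b _ _ h2).1
    rw [hvα, sub_self]
    exact zero_mem _
  let Z : Submodule Ω (S.EE (-b) i) := LinearMap.ker (dR S b i)
  let B : Submodule Ω (S.EE (-b) i) := LinearMap.range (dL S b i)
  have hBZ : B ≤ Z := by
    rintro _ ⟨z, rfl⟩
    exact LinearMap.mem_ker.2 (dd hS z)
  have hB : ∀ y ∈ B, S.Fr q (-b) i y ∈ B := by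
    rintro _ ⟨z, rfl⟩
    exact ⟨_, (dL_F hS hq z).symm⟩
  obtain ⟨y, hy, hy0, hyα⟩ := exists_eigen (S := S.Fr q (-b) i) (α := α) hBZ hB
    (x := x) (LinearMap.mem_ker.2 ((mem_coc x).1 h1))
    (fun h => hxB ((mem_cob x).2 (LinearMap.mem_range.1 h)))
    (LinearMap.mem_range.2 ((mem_cob _).1 h3))
  exact S.Fr_allWeil hq hp α y hy0 hyα

omit hp₀ hp₁ in
lemma TX_allWeil (b : ℤ) : AllWeil q (Y.TX b) := by
  rintro α ⟨v, x⟩ hne h
  have h1 : Y.Φ v = α • v := congrArg Prod.fst h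
  have h2 : S.Fr q (-b) i x = α • x := congrArg Prod.snd h
  by_cases hv : v = 0
  · have hx : x ≠ 0 := fun hx => hne (by rw [hv, hx]; rfl)
    exact S.Fr_allWeil hq hp α x hx h2
  · exact Y.Φ_allWeil hS hq hp α v hv h1

omit hp₀ hp₁ in
/-- Transfer of weight vectors from the nearby cohomology to the spectral sequence. -/
lemma to_E (b w : ℤ) {v : Y.V} (hv : v ∈ Y.M b) (hw : v ∈ ws q Y.Φ w) :
    ∃ x : S.EE (-b) i, (v, x) ∈ Y.gph b ∧ x ∈ ws q (S.Fr q (-b) i) w := by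
  obtain ⟨x, hx⟩ := Y.ex_right hv
  have hI := ws_internal hq (Y.TX_allWeil hS hq hp b)
  have hIΦ := ws_internal hq (Y.Φ_allWeil hS hq hp)
  have h1 := prj_ws_stable hq (Y.TX_allWeil hS hq hp b) (Y.gph_stable b) w hx
  have h2 := prj_map hI hIΦ (LinearMap.fst Ω _ _) (s := id) Function.injective_id
    (fun j z hz => by
      have := ws_map (by omega : q ≠ 0) (f := LinearMap.fst Ω Y.V (S.EE (-b) i)) 0
        (Φ' := Y.Φ) (fun x => by rw [zpow_zero, one_smul]; rfl) hz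
      rwa [show j + 2 * 0 = j by ring] at this) w (v, x)
  have h3 := ws_map (by omega : q ≠ 0) (f := LinearMap.snd Ω Y.V (S.EE (-b) i)) 0
        (Φ' := S.Fr q (-b) i) (fun x => by rw [zpow_zero, one_smul]; rfl)
        (prj_mem hI w ((v, x) : Y.V × S.EE (-b) i))
  rw [show w + 2 * 0 = w by ring] at h3
  refine ⟨(prj hI w (v, x)).2, ?_, h3⟩
  have h4 : (prj hI w (v, x)).1 = v := by
    have h5 : prj hIΦ w v = (prj hI w (v, x)).1 := h2
    rw [← h5]
    exact prj_same hIΦ hw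
  have h6 : ((prj hI w (v, x)).1, (prj hI w (v, x)).2) ∈ Y.gph b := h1
  rwa [h4] at h6

omit hp₀ hp₁ in
/-- Transfer of weight vectors from the spectral sequence to the nearby cohomology. -/
lemma of_E (b w : ℤ) {x : S.EE (-b) i} (hx : dR S b i x = 0)
    (hw : x ∈ ws q (S.Fr q (-b) i) w) :
    ∃ v : Y.V, (v, x) ∈ Y.gph b ∧ v ∈ ws q Y.Φ w := by
  obtain ⟨v, hv⟩ := Y.graded.sp_right b x ((mem_coc x).2 hx)
  have hI := ws_internal hq (Y.TX_allWeil hS hq hp b)
  have hIF := ws_internal hq (S.Fr_allWeil hq (r := -b) hp)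
  have h1 := prj_ws_stable hq (Y.TX_allWeil hS hq hp b) (Y.gph_stable b) w
    (x := (v, x)) hv
  have h2 := prj_map hI hIF (LinearMap.snd Ω _ _) (s := id) Function.injective_id
    (fun j z hz => by
      have := ws_map (by omega : q ≠ 0) (f := LinearMap.snd Ω Y.V (S.EE (-b) i)) 0
        (Φ' := S.Fr q (-b) i) (fun x => by rw [zpow_zero, one_smul]; rfl) hz
      rwa [show j + 2 * 0 = j by ring] at this) w (v, x)
  have h3 := ws_map (by omega : q ≠ 0) (f := LinearMap.fst Ω Y.V (S.EE (-b) i)) 0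
        (Φ' := Y.Φ) (fun x => by rw [zpow_zero, one_smul]; rfl)
        (prj_mem hI w ((v, x) : Y.V × S.EE (-b) i))
  rw [show w + 2 * 0 = w by ring] at h3
  refine ⟨(prj hI w (v, x)).1, ?_, h3⟩
  have h4 : (prj hI w (v, x)).2 = x := by
    have h5 : prj hIF w x = (prj hI w (v, x)).2 := h2
    rw [← h5]
    exact prj_same hIF hw
  have h6 : ((prj hI w (v, x)).1, (prj hI w (v, x)).2) ∈ Y.gph b := h1
  rwa [h4] at h6

omit hS hq hp₀ hp hp₁ in
lemma gph_N (b : ℤ) (k : ℕ) {v : Y.V} {x : S.EE (-b) i} (h : (v, x) ∈ Y.gph b) :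
    ((Y.N₂ ^ k) v, (S.Nr (-b) i ^ k) x) ∈ Y.gph b := by
  induction k with
  | zero => simpa using h
  | succ k ih =>
    rw [pow_succ', Module.End.mul_apply, pow_succ', Module.End.mul_apply]
    exact Y.sp_N₂ b _ _ ih

/-- The nearby cohomology satisfies the hypotheses of the theorem on pencils. -/
theorem two : Two (fun a => ws q Y.Φ (i + a)) Y.M Y.N₁ Y.N₂ := by
  have hall := Y.Φ_allWeil hS hq hp
  have hI := ws_internal hq hall
  have hMΦ : ∀ b x, x ∈ Y.M b → Y.Φ x ∈ Y.M b := by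
    intro b x hx
    obtain ⟨y, hy⟩ := Y.graded.sp_left b x hx
    exact (Y.graded.sp_mem b _ _ (Y.sp_Φ b _ _ hy)).1
  have hMN : ∀ b x, x ∈ Y.M b → Y.N₂ x ∈ Y.M b := by
    intro b x hx
    obtain ⟨y, hy⟩ := Y.graded.sp_left b x hx
    exact (Y.graded.sp_mem b _ _ (Y.sp_N₂ b _ _ hy)).1
  refine
    { int := shift_internal hI i
      mono := Y.monodromy.mono
      bot := Y.monodromy.bot
      top := Y.monodromy.top
      hom := ?_
      N1U := ?_
      N2U := ?_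
      comm := Y.comm
      N1M := Y.monodromy.map
      N2M := hMN
      inj1 := Y.monodromy.inj
      surj1 := Y.monodromy.surj
      inj2 := ?_
      surj2 := ?_ }
  · intro b a x hx
    rw [prj_shift]
    exact prj_ws_stable hq hall (hMΦ b) _ hx
  · intro a x hx
    have := N_ws hq Y.N₁_Φ hx
    rwa [show (i : ℤ) + a - 2 = i + (a - 2) by ring] at this
  · intro a x hx
    have := N_ws hq Y.N₂_Φ hx
    rwa [show (i : ℤ) + a - 2 = i + (a - 2) by ring] at this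
  · intro b c x hx hxU h0
    have hxU' : x ∈ ws q Y.Φ (i + b + c) := by
      have : (i : ℤ) + b + c = i + (b + c) := by ring
      rw [this]; exact hxU
    obtain ⟨y, hy, hyw⟩ := Y.to_E hS hq hp b _ hx hxU'
    have hyZ : dR S b i y = 0 := (mem_coc y).1 (Y.graded.sp_mem b _ _ hy).2
    have h1 := Y.gph_N b c hy
    have h2 := (Y.graded.sp_ker b _ _ h1).1 h0
    obtain ⟨z, hz⟩ := (mem_cob _).1 h2
    have h3 := (E2_HL hS hq hp₀ hp hp₁ b c).2 y hyZ hyw ⟨z, hz⟩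
    exact (Y.graded.sp_ker b _ _ hy).2 ((mem_cob y).2 h3)
  · intro b c y hy hyU
    have hyU' : y ∈ ws q Y.Φ (i + b - c) := by
      have : (i : ℤ) + b - c = i + (b - c) := by ring
      rw [this]; exact hyU
    obtain ⟨z, hz, hzw⟩ := Y.to_E hS hq hp b _ hy hyU'
    have hzZ : dR S b i z = 0 := (mem_coc z).1 (Y.graded.sp_mem b _ _ hz).2
    obtain ⟨x, hx, hxw, hxz⟩ := (E2_HL hS hq hp₀ hp hp₁ b c).1 z hzZ hzw
    obtain ⟨v, hv, hvw⟩ := Y.of_E hS hq hp b _ hx hxw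
    refine ⟨v, (Y.graded.sp_mem b _ _ hv).1, ?_, ?_⟩
    · have : (i : ℤ) + b + c = i + (b + c) := by ring
      rw [this] at hvw; exact hvw
    · have h1 := Y.gph_N b c hv
      rw [hxz] at h1
      have h2 : ((y - (Y.N₂ ^ c) v, z - z) : Y.V × S.EE (-b) i) ∈ Y.gph b := sub_mem hz h1
      rw [sub_self] at h2
      exact (Y.graded.sp_ker b _ _ h2).2 (zero_mem _)

/-- The hard Lefschetz property near a degenerate fibre with mw pure strata. -/
theorem HL : Y.toPencil.HasHL i := by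
  have D := Y.two hS hq hp₀ hp hp₁
  exact ⟨Y.Φ_allWeil hS hq hp, fun a => D.exists_HLat a⟩

end Nearby

lemma Pencil.IsNearPureFibre.HL {P : Pencil.{u, v} Ω q} (hq : 1 < q) (h : P.IsNearPureFibre i) :
    P.HasHL i := by
  obtain ⟨S, Y, hS, hp, rfl⟩ := h
  exact Y.HL hS hq (fun a m h => hp a m (by omega) (by omega))
    (fun a m h => hp a m (by omega) (by omega)) (fun a m h => hp a m (by omega) (by omega))

end Pool.Agent.W5h86.MW
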