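import Mathlib

/-!
# Polynomial families of linear maps
-/

set_option autoImplicit false

open Module Polynomial

namespace Pool.Agent.W5h86.MW

variable {K : Type*} [Field K]

/-- Polynomial functions of degree at most `d`. -/
def PF (d : ℕ) (g : K → K) : Prop := ∃ P : K[X], P.natDegree ≤ d ∧ ∀ t, g t = P.eval t

lemma PF.mono {d e : ℕ} (h : d ≤ e) {g : K → K} (hg : PF d g) : PF e g := by
  obtain ⟨P, h1, h2⟩ := hg
  exact ⟨P, h1.trans h, h2⟩

lemma PF.const (d : ℕ) (c : K) : PF d (fun _ => c) := ⟨C c, by simp, fun t => by simp⟩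

lemma PF.id : PF 1 (fun t : K => t) := ⟨X, by simp, fun t => by simp⟩

lemma PF.add {d : ℕ} {g g' : K → K} (hg : PF d g) (hg' : PF d g') : PF d (fun t => g t + g' t) := by
  obtain ⟨P, h1, h2⟩ := hg
  obtain ⟨Q, h3, h4⟩ := hg'
  exact ⟨P + Q, natDegree_add_le_of_degree_le h1 h3, fun t => by
    rw [eval_add, ← h2, ← h4]⟩

lemma PF.mul {d e : ℕ} {g g' : K → K} (hg : PF d g) (hg' : PF e g') :
    PF (d + e) (fun t => g t * g' t) := by
  obtain ⟨P, h1, h2⟩ := hg
  obtain ⟨Q, h3, h4⟩ := hg'
  exact ⟨P * Q, natDegree_mul_le_of_le h1 h3, fun t => by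
    rw [eval_mul, ← h2, ← h4]⟩

lemma PF.sum {ι : Type*} {d : ℕ} (s : Finset ι) {g : ι → K → K} (hg : ∀ i ∈ s, PF d (g i)) :
    PF d (fun t => ∑ i ∈ s, g i t) := by
  classical
  induction s using Finset.induction_on with
  | empty => simpa using PF.const d (0 : K)
  | insert a s ha ih =>
    have h1 := (hg a (Finset.mem_insert_self a s)).add
      (ih (fun i hi => hg i (Finset.mem_insert_of_mem hi)))
    have e : (fun t => ∑ i ∈ insert a s, g i t) = fun t => g a t + ∑ i ∈ s, g i t := by
      funext t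
      rw [Finset.sum_insert ha]
    rw [e]
    exact h1

lemma PF.prod {ι : Type*} {d : ℕ} (s : Finset ι) {g : ι → K → K} (hg : ∀ i ∈ s, PF d (g i)) :
    PF (s.card * d) (fun t => ∏ i ∈ s, g i t) := by
  classical
  induction s using Finset.induction_on with
  | empty => simpa using PF.const 0 (1 : K)
  | insert a s ha ih =>
    have h1 := (hg a (Finset.mem_insert_self a s)).mul
      (ih (fun i hi => hg i (Finset.mem_insert_of_mem hi)))
    have e : (fun t => ∏ i ∈ insert a s, g i t) = fun t => g a t * ∏ i ∈ s, g i t := by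
      funext t
      rw [Finset.prod_insert ha]
    rw [e, Finset.card_insert_of_notMem ha]
    exact h1.mono (by ring_nf; omega)

section

variable {V : Type*} [AddCommGroup V] [Module K V] {W : Type*} [AddCommGroup W] [Module K W]
  {Z : Type*} [AddCommGroup Z] [Module K Z]

/-- Families of linear maps which are polynomial of degree at most `d`. -/
def FF (d : ℕ) (A : K → (V →ₗ[K] W)) : Prop := ∀ (x : V) (ψ : W →ₗ[K] K), PF d (fun t => ψ (A t x))

lemma FF.const (d : ℕ) (A : V →ₗ[K] W) : FF d (fun _ => A) := fun _ _ => PF.const d _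

lemma FF.mono {d e : ℕ} (h : d ≤ e) {A : K → (V →ₗ[K] W)} (hA : FF d A) : FF e A :=
  fun x ψ => (hA x ψ).mono h

lemma FF.add {d : ℕ} {A B : K → (V →ₗ[K] W)} (hA : FF d A) (hB : FF d B) :
    FF d (fun t => A t + B t) := by
  intro x ψ
  have := (hA x ψ).add (hB x ψ)
  refine (congrArg (PF d) ?_).mp this
  funext t
  rw [LinearMap.add_apply, map_add]

lemma FF.sum {ι : Type*} {d : ℕ} (s : Finset ι) {A : ι → K → (V →ₗ[K] W)}
    (hA : ∀ i ∈ s, FF d (A i)) : FF d (fun t => ∑ i ∈ s, A i t) := by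
  intro x ψ
  have := PF.sum s (fun i hi => hA i hi x ψ)
  refine (congrArg (PF d) ?_).mp this
  funext t
  rw [LinearMap.sum_apply, map_sum]

lemma FF.smul {d e : ℕ} {g : K → K} (hg : PF e g) {A : K → (V →ₗ[K] W)} (hA : FF d A) :
    FF (e + d) (fun t => g t • A t) := by
  intro x ψ
  have := hg.mul (hA x ψ)
  refine (congrArg (PF (e + d)) ?_).mp this
  funext t
  rw [LinearMap.smul_apply, map_smul, smul_eq_mul]

lemma FF.comp [Module.Finite K W] {d e : ℕ} {A : K → (V →ₗ[K] W)} {B : K → (W →ₗ[K] Z)}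
    (hA : FF d A) (hB : FF e B) : FF (e + d) (fun t => B t ∘ₗ A t) := by
  intro x ψ
  let b := Module.finBasis K W
  have := PF.sum Finset.univ (fun i _ => (hB (b i) ψ).mul (hA x (b.coord i)))
  refine (congrArg (PF (e + d)) ?_).mp this
  funext t
  rw [LinearMap.comp_apply]
  conv_rhs => rw [← b.sum_repr (A t x)]
  rw [map_sum, map_sum]
  apply Finset.sum_congr rfl
  intro i _
  rw [map_smul, map_smul, smul_eq_mul, Basis.coord_apply, mul_comm]

lemma FF.pow [Module.Finite K V] {d : ℕ} {A : K → (V →ₗ[K] V)} (hA : FF d A) (k : ℕ) :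
    FF (k * d) (fun t => (A t) ^ k) := by
  induction k with
  | zero => exact FF.const _ _
  | succ k ih =>
    have h1 := ih.comp hA
    refine (congrArg (FF ((k + 1) * d)) ?_).mp (h1.mono (by ring_nf; omega))
    funext t
    rw [pow_succ']
    rfl

lemma FF.det [Module.Finite K V] {d : ℕ} {A : K → (V →ₗ[K] V)} (hA : FF d A) :
    PF (finrank K V * d) (fun t => LinearMap.det (A t)) := by
  classical
  let b := Module.finBasis K V
  have h1 : ∀ t, LinearMap.det (A t) = ∑ σ : Equiv.Perm (Fin (finrank K V)),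
      (Equiv.Perm.sign σ : ℤ) * ∏ i, b.coord (σ i) (A t (b i)) := by
    intro t
    rw [← LinearMap.det_toMatrix b, Matrix.det_apply']
    apply Finset.sum_congr rfl
    intro σ _
    congr 1
    apply Finset.prod_congr rfl
    intro i _
    rw [LinearMap.toMatrix_apply, Basis.coord_apply]
  have h2 : (fun t => LinearMap.det (A t)) = fun t => ∑ σ : Equiv.Perm (Fin (finrank K V)),
      (((Equiv.Perm.sign σ : ℤ) : K)) * ∏ i, b.coord (σ i) (A t (b i)) := by
    funext t
    exact h1 t
  rw [h2]
  apply PF.sum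
  intro σ _
  have h3 := PF.prod (Finset.univ : Finset (Fin (finrank K V)))
    (g := fun i t => b.coord (σ i) (A t (b i))) (fun i _ => hA (b i) (b.coord (σ i)))
  rw [Finset.card_univ, Fintype.card_fin] at h3
  exact ((PF.const 0 _).mul h3).mono (by omega)

/-- A polynomial family which is bijective at one parameter is bijective at all parameters which are
not roots of a nonzero polynomial. -/
theorem pencil [Module.Finite K V] {d : ℕ} {A : K → (V →ₗ[K] W)} (hA : FF d A) {t₀ : K}
    (h0 : Function.Bijective (A t₀)) : ∃ P : K[X], P ≠ 0 ∧ P.natDegree ≤ finrank K V * d ∧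
    ∀ t, P.eval t ≠ 0 → Function.Bijective (A t) := by
  let e := LinearEquiv.ofBijective (A t₀) h0
  have : Module.Finite K W := Module.Finite.equiv e
  have h1 : FF d (fun t => e.symm.toLinearMap ∘ₗ A t) :=
    ((hA.comp (FF.const 0 e.symm.toLinearMap)).mono (by omega))
  obtain ⟨P, hP, hPe⟩ := h1.det
  have h2 : e.symm.toLinearMap ∘ₗ A t₀ = LinearMap.id := by
    ext x
    rw [LinearMap.comp_apply]
    exact e.symm_apply_apply x
  refine ⟨P, ?_, hP, fun t ht => ?_⟩
  · rintro rfl
    have : LinearMap.det (e.symm.toLinearMap ∘ₗ A t₀) = eval t₀ (0 : K[X]) := hPe t₀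
    rw [h2, LinearMap.det_id, eval_zero] at this
    exact one_ne_zero this
  · rw [← hPe t] at ht
    have h3 : IsUnit (e.symm.toLinearMap ∘ₗ A t) := by
      rw [LinearMap.isUnit_iff_isUnit_det]
      exact isUnit_iff_ne_zero.2 ht
    have h4 : Function.Bijective (e.symm.toLinearMap ∘ₗ A t) :=
      (Module.End.isUnit_iff _).1 h3
    have h5 : ⇑(A t) = e ∘ (e.symm.toLinearMap ∘ₗ A t) := by
      funext x
      simp
    rw [h5]
    exact e.bijective.comp h4

end

end Pool.Agent.W5h86.MW
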