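import Pool.Agent.W5h86.MW.Wt
import Pool.Agent.W5h86.MW.Defs

/-!
# Purity from the hard Lefschetz property; change of the Frobenius
-/

set_option autoImplicit false
set_option linter.unusedSectionVars false
set_option linter.unusedVariables false

open Module

namespace Pool.Agent.W5h86.MW

open Pool.Agent.Y143 (IsWeilNumber IsMonodromyFiltration IsMWPure)
open Pool.Agent.Y163.MW (weil_unique)

variable {Ω : Type*} [Field Ω] [CharZero Ω] [IsAlgClosed Ω]
  {V : Type*} [AddCommGroup V] [Module Ω V] [Module.Finite Ω V] {q : ℕ}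

/-- The shifted grading. -/
lemma shift_internal {K : Type*} [Field K] {V : Type*} [AddCommGroup V] [Module K V]
    {U : ℤ → Submodule K V} (h : DirectSum.IsInternal U) (i : ℤ) :
    DirectSum.IsInternal (fun a => U (i + a)) := by
  rw [DirectSum.isInternal_submodule_iff_iSupIndep_and_iSup_eq_top] at h ⊢
  refine ⟨h.1.comp (f := fun a : ℤ => i + a) (add_right_injective i), ?_⟩
  rw [eq_top_iff, ← h.2]
  apply iSup_le
  intro a
  refine le_trans (le_of_eq ?_) (le_iSup (fun a => U (i + a)) (a - i))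
  change U a = U (i + (a - i))
  congr 1
  ring

lemma prj_shift {K : Type*} [Field K] {V : Type*} [AddCommGroup V] [Module K V]
    {U : ℤ → Submodule K V} (h : DirectSum.IsInternal U) (i a : ℤ) (x : V) :
    prj (shift_internal h i) a x = prj h (i + a) x := by
  have := prj_map (shift_internal h i) h LinearMap.id (s := fun a => i + a)
    (add_right_injective i) (fun j y hy => hy) a x
  simpa using this.symm

lemma N_ws (hq : 1 < q) {Φ N : Module.End Ω V} (hN : ∀ x, N (Φ x) = (q : Ω) • Φ (N x)) {w : ℤ}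
    {x : V} (hx : x ∈ ws q Φ w) : N x ∈ ws q Φ (w - 2) := by
  have hq0 : (q : Ω) ≠ 0 := Nat.cast_ne_zero.2 (by omega)
  have hN' : ∀ x, Φ (N x) = ((q : Ω) ^ (-1 : ℤ)) • N (Φ x) := by
    intro x
    rw [hN, smul_smul, zpow_neg_one, inv_mul_cancel₀ hq0, one_smul]
  have := ws_map (by omega : q ≠ 0) (f := N) (-1) hN' hx
  rwa [show w + 2 * -1 = w - 2 by ring] at this

/-- The hard Lefschetz property implies mw purity. -/
theorem HL_pure (hq : 1 < q) {i : ℤ} {Φ N : Module.End Ω V} (hall : AllWeil q Φ)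
    (hN : ∀ x, N (Φ x) = (q : Ω) • Φ (N x))
    (h : ∀ a : ℕ, HLat (fun a => ws q Φ (i + a)) a N) : IsMWPure q i Φ N := by
  classical
  have hI := shift_internal (ws_internal hq hall) i
  set U : ℤ → Submodule Ω V := fun a => ws q Φ (i + a) with hU
  obtain ⟨n, hn⟩ := exists_bound hI
  have hNU : ∀ a x, x ∈ U a → N x ∈ U (a - 2) := by
    intro a x hx
    have := N_ws hq hN hx
    rwa [show i + a - 2 = i + (a - 2) by ring] at this
  let F : ℤ → Submodule Ω V := fun a => ⨅ b : {b : ℤ // a < b}, LinearMap.ker (prj hI b)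
  have hF : ∀ a x, x ∈ F a ↔ ∀ b, a < b → prj hI b x = 0 := by
    intro a x
    simp only [F, Submodule.mem_iInf, LinearMap.mem_ker, Subtype.forall]
  have hNp : ∀ (k : ℕ) (a : ℤ) x, prj hI (a - 2 * k) ((N ^ k) x) = (N ^ k) (prj hI a x) := by
    intro k a x
    exact prj_map hI hI (N ^ k) (s := fun a => a - 2 * k) (fun _ _ h => by simpa using h)
      (fun a x hx => pow_deg hNU k hx) a x
  have hΦp : ∀ a x, prj hI a (Φ x) = Φ (prj hI a x) := by
    intro a x
    exact prj_map hI hI Φ (s := id) Function.injective_id (fun a x hx => ws_stable hx) a x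
  refine ⟨F, ⟨?_, ?_, ?_, ?_, ?_, ?_⟩, ?_, ?_⟩
  · intro a b hab x hx
    rw [hF] at hx ⊢
    exact fun c hc => hx c (by omega)
  · refine ⟨-(n : ℤ) - 1, ?_⟩
    rw [Submodule.eq_bot_iff]
    intro x hx
    rw [hF] at hx
    apply eq_zero_of_prj hI
    intro a
    by_cases ha : -(n : ℤ) - 1 < a
    · exact hx a ha
    · have h1 := prj_mem hI a x
      rw [hn a (by rw [lt_abs]; right; omega)] at h1
      exact (Submodule.mem_bot Ω).1 h1
  · refine ⟨n, ?_⟩
    rw [eq_top_iff]
    intro x _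
    rw [hF]
    intro b hb
    have h1 := prj_mem hI b x
    rw [hn b (by rw [lt_abs]; left; omega)] at h1
    exact (Submodule.mem_bot Ω).1 h1
  · intro a x hx
    rw [hF] at hx ⊢
    intro b hb
    have h1 := hNp 1 (b + 2) x
    rw [pow_one, show b + 2 - 2 * ((1 : ℕ) : ℤ) = b by push_cast; ring] at h1
    rw [h1, hx _ (by omega), map_zero]
  · intro a x hx h0
    rw [hF] at hx h0 ⊢
    intro b hb
    rcases lt_or_ge (a : ℤ) b with h1 | h1
    · exact hx b h1
    · have hba : b = a := by omega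
      subst hba
      apply (h a).1 _ (prj_mem hI _ _)
      rw [← hNp]
      apply h0
      omega
  · intro a y hy
    obtain ⟨x, hx, hxy⟩ := (h a).2 (prj hI (-a) y) (prj_mem hI _ _)
    refine ⟨x, ?_, ?_⟩
    · rw [hF]
      intro b hb
      exact prj_ne hI hx (by omega)
    · rw [hF] at hy ⊢
      intro b hb
      rw [map_sub, hxy]
      rcases lt_or_ge (-(a : ℤ)) b with h1 | h1
      · rw [hy b h1, prj_prj_ne hI (by omega), sub_zero]
      · have hba : b = -a := by omega
        subst hba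
        rw [prj_prj, sub_self]
  · intro a x hx
    rw [hF] at hx ⊢
    intro b hb
    rw [hΦp, hx b hb, map_zero]
  · intro a α x hx hx' hα
    rw [hF] at hx
    rw [hF] at hα
    have h1 : prj hI a x ≠ 0 := by
      intro h0
      apply hx'
      rw [hF]
      intro b hb
      rcases lt_or_ge a b with h1 | h1
      · exact hx b h1
      · have : b = a := by omega
        rw [this, h0]
    have h2 := hα a (by omega)
    rw [map_sub, map_smul, hΦp, sub_eq_zero] at h2
    have h3 := ws_eig (prj_mem hI a x) h1 h2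
    rwa [add_comm] at h3

/-- Weil numbers for powers of `q`. -/
lemma weil_base {w : ℤ} {β : Ω} {f : ℕ} (h : IsWeilNumber q (f * w) β) :
    IsWeilNumber (q ^ f) w β := by
  obtain ⟨h1, h2⟩ := h
  refine ⟨h1, fun z hz => ?_⟩
  rw [h2 z hz]
  push_cast
  rw [← Real.rpow_natCast, ← Real.rpow_mul (Nat.cast_nonneg q)]
  congr 1
  ring

lemma allWeil_of_pow {f : ℕ} (hf : 0 < f) {Φ : Module.End Ω V} (h : AllWeil (q ^ f) (Φ ^ f)) :
    AllWeil q Φ := by
  intro α x hx hxα
  have h1 : ∀ k : ℕ, (Φ ^ k) x = α ^ k • x := by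
    intro k
    induction k with
    | zero => simp
    | succ k ih => rw [pow_succ', Module.End.mul_apply, ih, map_smul, hxα, smul_smul, pow_succ]
  obtain ⟨w, hw⟩ := h _ x hx (h1 f)
  exact ⟨w, (hw.of_pow_base).of_pow hf⟩

lemma ws_le_pow {f : ℕ} {Φ : Module.End Ω V} (w : ℤ) : ws q Φ w ≤ ws (q ^ f) (Φ ^ f) w := by
  apply iSup_le
  rintro ⟨α, hα⟩ x hx
  apply mem_ws (weil_base (hα.pow f))
  rw [Module.End.mem_maxGenEigenspace] at hx ⊢
  obtain ⟨k, hk⟩ := hx
  refine ⟨k, ?_⟩
  change ((Φ - α • (1 : Module.End Ω V)) ^ k) x = 0 at hk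
  have hc : Commute Φ (α • (1 : Module.End Ω V)) := (Commute.one_right Φ).smul_right α
  have h1 : (Φ ^ f - α ^ f • (1 : Module.End Ω V)) = (Φ ^ f - (α • (1 : Module.End Ω V)) ^ f) := by
    rw [smul_pow, one_pow]
  have h2 : Φ ^ f - (α • (1 : Module.End Ω V)) ^ f =
      (∑ j ∈ Finset.range f, Φ ^ j * (α • (1 : Module.End Ω V)) ^ (f - 1 - j)) *
        (Φ - α • (1 : Module.End Ω V)) := (hc.geom_sum₂_mul f).symm
  set G := ∑ j ∈ Finset.range f, Φ ^ j * (α • (1 : Module.End Ω V)) ^ (f - 1 - j) with hG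
  have hG1 : Commute G (Φ - α • (1 : Module.End Ω V)) := by
    apply Commute.sub_right
    · apply Commute.sum_left
      intro j _
      exact ((Commute.refl Φ).pow_left j).mul_left (hc.symm.pow_left _)
    · exact (Commute.one_right G).smul_right α
  rw [h1, h2, hG1.mul_pow, Module.End.mul_apply, hk, map_zero]

lemma allWeil_pow (hq : 1 < q) {f : ℕ} {Φ : Module.End Ω V} (h : AllWeil q Φ) :
    AllWeil (q ^ f) (Φ ^ f) := by
  intro γ x hx hxγ
  have hP : ∀ y ∈ LinearMap.ker (Φ ^ f - γ • (1 : Module.End Ω V)),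
      Φ y ∈ LinearMap.ker (Φ ^ f - γ • (1 : Module.End Ω V)) := by
    intro y hy
    rw [LinearMap.mem_ker, LinearMap.sub_apply, LinearMap.smul_apply, Module.End.one_apply,
      sub_eq_zero] at hy ⊢
    rw [← Module.End.mul_apply, ← pow_succ, pow_succ', Module.End.mul_apply, hy, map_smul]
  have hne : LinearMap.ker (Φ ^ f - γ • (1 : Module.End Ω V)) ≠ ⊥ := by
    intro hb
    apply hx
    apply (Submodule.mem_bot Ω).1
    rw [← hb, LinearMap.mem_ker, LinearMap.sub_apply, LinearMap.smul_apply, Module.End.one_apply,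
      sub_eq_zero]
    exact hxγ
  obtain ⟨y, hy, hy0, β, hβ⟩ := exists_eig hP hne
  obtain ⟨w, hw⟩ := h β y hy0 hβ
  have h1 : ∀ k : ℕ, (Φ ^ k) y = β ^ k • y := by
    intro k
    induction k with
    | zero => simp
    | succ k ih => rw [pow_succ', Module.End.mul_apply, ih, map_smul, hβ, smul_smul, pow_succ]
  rw [LinearMap.mem_ker, LinearMap.sub_apply, LinearMap.smul_apply, Module.End.one_apply, h1,
    ← sub_smul, smul_eq_zero] at hy
  rcases hy with h2 | h2
  · refine ⟨w, ?_⟩
    rw [← sub_eq_zero.1 h2]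
    exact weil_base (hw.pow f)
  · exact absurd h2 hy0

lemma ws_pow (hq : 1 < q) {f : ℕ} (hf : 0 < f) {Φ : Module.End Ω V} (h : AllWeil q Φ) (w : ℤ) :
    ws (q ^ f) (Φ ^ f) w = ws q Φ w := by
  apply le_antisymm _ (ws_le_pow w)
  intro x hx
  have hI := ws_internal hq h
  have hq' : 1 < q ^ f := Nat.one_lt_pow hf.ne' hq
  have hI' := ws_internal hq' (allWeil_pow hq (f := f) h)
  rw [mem_iff_prj hI]
  intro w' hw'
  have h1 : prj hI' w' x = prj hI w' x := by
    have := prj_map hI hI' LinearMap.id (s := id) Function.injective_id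
      (fun j y hy => ws_le_pow j hy) w' x
    simpa using this
  rw [← h1]
  exact prj_ne hI' hx hw'.symm

lemma HLat_smul {U : ℤ → Submodule Ω V} {a : ℕ} {A : Module.End Ω V} {e : Ω} (he : e ≠ 0)
    (h : HLat U a A) : HLat U a (e • A) := by
  constructor
  · intro x hx h0
    rw [smul_pow, LinearMap.smul_apply, smul_eq_zero] at h0
    rcases h0 with h1 | h1
    · exact absurd h1 (pow_ne_zero a he)
    · exact h.1 x hx h1
  · intro y hy
    obtain ⟨x, hx, hxy⟩ := h.2 ((e ^ a)⁻¹ • y) (Submodule.smul_mem _ _ hy)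
    refine ⟨x, hx, ?_⟩
    rw [smul_pow, LinearMap.smul_apply, hxy, smul_smul, mul_inv_cancel₀ (pow_ne_zero a he),
      one_smul]

/-- Invariance of purity under conjugation. -/
lemma pure_conj {i : ℤ} {Φ N Φ' N' g g' : Module.End Ω V} (h1 : g * g' = 1) (h2 : g' * g = 1)
    (hΦ : Φ' * g = g * Φ) (hN : N' * g = g * N) (h : IsMWPure q i Φ N) : IsMWPure q i Φ' N' := by
  obtain ⟨M, hM, hs, hw⟩ := h
  have e1 : ∀ x, g (g' x) = x := fun x => LinearMap.congr_fun h1 x
  have e2 : ∀ x, g' (g x) = x := fun x => LinearMap.congr_fun h2 x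
  have e3 : ∀ x, g' (Φ' x) = Φ (g' x) := by
    intro x
    have := LinearMap.congr_fun hΦ (g' x)
    rw [Module.End.mul_apply, Module.End.mul_apply, e1] at this
    rw [this, e2]
  have e4 : ∀ x, g' (N' x) = N (g' x) := by
    intro x
    have := LinearMap.congr_fun hN (g' x)
    rw [Module.End.mul_apply, Module.End.mul_apply, e1] at this
    rw [this, e2]
  have e5 : ∀ (k : ℕ) x, g' ((N' ^ k) x) = (N ^ k) (g' x) := by
    intro k
    induction k with
    | zero => intro x; simp
    | succ k ih => intro x; rw [pow_succ', Module.End.mul_apply, e4, ih, pow_succ' N,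
        Module.End.mul_apply]
  refine ⟨fun a => (M a).comap g', ⟨fun a b hab => Submodule.comap_mono (hM.mono hab), ?_, ?_,
    ?_, ?_, ?_⟩, ?_, ?_⟩
  · obtain ⟨a, ha⟩ := hM.bot
    refine ⟨a, ?_⟩
    rw [Submodule.eq_bot_iff]
    intro x hx
    rw [Submodule.mem_comap, ha] at hx
    rw [← e1 x, (Submodule.mem_bot Ω).1 hx, map_zero]
  · obtain ⟨a, ha⟩ := hM.top
    exact ⟨a, by rw [ha]; exact Submodule.comap_top _⟩
  · intro a x hx
    rw [Submodule.mem_comap] at hx ⊢
    rw [e4]
    exact hM.map a _ hx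
  · intro a x hx h0
    rw [Submodule.mem_comap] at hx h0 ⊢
    rw [e5] at h0
    exact hM.inj a _ hx h0
  · intro a y hy
    rw [Submodule.mem_comap] at hy
    obtain ⟨x, hx, hxy⟩ := hM.surj a _ hy
    refine ⟨g x, ?_, ?_⟩
    · rw [Submodule.mem_comap, e2]; exact hx
    · rw [Submodule.mem_comap, map_sub, e5, e2]; exact hxy
  · intro a x hx
    rw [Submodule.mem_comap] at hx ⊢
    rw [e3]
    exact hs a _ hx
  · intro a α x hx hx' hα
    rw [Submodule.mem_comap] at hx hx' hα
    rw [map_sub, map_smul, e3] at hα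
    exact hw a α _ hx hx' hα

end Pool.Agent.W5h86.MW
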