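import Pool.Agent.W5h86.MW.Bij
import Pool.Agent.W5h86.MW.Poly

/-!
# Rescaling: the hard Lefschetz property for almost all parameters
-/

set_option autoImplicit false
set_option linter.unusedSectionVars false
set_option linter.unusedVariables false

open Module Polynomial

namespace Pool.Agent.W5h86.MW

variable {K : Type*} [Field K] [CharZero K] {V : Type*} [AddCommGroup V] [Module K V]

/-- A grading of a finite-dimensional space is bounded. -/
lemma exists_bound [Module.Finite K V] {C : ℤ → Submodule K V} (hC : DirectSum.IsInternal C) :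
    ∃ n : ℕ, ∀ c : ℤ, (n : ℤ) < |c| → C c = ⊥ := by
  have hind : iSupIndep C :=
    ((DirectSum.isInternal_submodule_iff_iSupIndep_and_iSup_eq_top C).1 hC).1
  have hfin : Set.Finite {c | C c ≠ ⊥} := WellFoundedGT.finite_ne_bot_of_iSupIndep hind
  refine ⟨∑ c ∈ hfin.toFinset, c.natAbs, fun c hc => ?_⟩
  by_contra hne
  have h1 : c.natAbs ≤ ∑ c ∈ hfin.toFinset, c.natAbs :=
    Finset.single_le_sum (f := fun c : ℤ => c.natAbs) (fun _ _ => Nat.zero_le _)
      (hfin.mem_toFinset.2 hne)
  have h2 : (c.natAbs : ℤ) = |c| := Int.natCast_natAbs c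
  omega

namespace Setup

variable {U M E : ℤ → Submodule K V} {N₁ N₂ : Module.End K V} (s : Setup U M E N₁ N₂)

/-- The coefficients of the rescaled operator. -/
noncomputable def co (k : ℕ) : Module.End K V :=
  lft s.S.int (fun b => prj s.S.int (b - k) * N₂ + prj s.S.int (b - 2 - k) * N₁)

lemma co_apply {b : ℤ} {x : V} (hx : x ∈ E b) (k : ℕ) :
    s.co k x = prj s.S.int (b - k) (N₂ x) + prj s.S.int (b - 2 - k) (N₁ x) := by
  rw [co, lft_apply _ _ hx]; rfl

lemma co_zero : s.co 0 = s.L₁ + s.L₂ := by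
  apply gr_ext s.S.int
  intro b x hx
  rw [s.co_apply hx, LinearMap.add_apply, s.L₁_apply hx, s.L₂_apply hx, add_comm]
  simp

/-- The rescaled operator. -/
noncomputable def R (m : ℕ) (ε : K) : Module.End K V := ∑ k ∈ Finset.range m, ε ^ k • s.co k

lemma R_zero {m : ℕ} (hm : 0 < m) : s.R m 0 = s.L₁ + s.L₂ := by
  rw [R, Finset.sum_eq_single 0, pow_zero, one_smul, co_zero]
  · intro k _ hk
    rw [zero_pow hk, zero_smul]
  · intro h
    exact absurd (Finset.mem_range.2 hm) h

lemma co_U (k : ℕ) {a : ℤ} {x : V} (hx : x ∈ U a) : s.co k x ∈ U (a - 2) := by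
  apply s.mem_U
  have h1 : ∀ y, s.T (s.co k y) = s.co k (s.T y) - (2 : K) • s.co k y := by
    intro y
    induction y using gr_ind s.S.int with
    | hgr b y hy =>
      rw [s.co_apply hy, s.co_apply (s.T_E hy), map_add, ← s.prjE_T, ← s.prjE_T, s.T_N₂, s.T_N₁,
        map_sub, map_sub, map_smul, map_smul, smul_add]
      abel
    | h0 => simp
    | hadd x y hx hy => rw [map_add, map_add, hx, hy, map_add, map_add, smul_add]; abel
  rw [h1, s.T_apply hx, map_smul, ← sub_smul]
  push_cast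
  rfl

lemma R_U (m : ℕ) (ε : K) {a : ℤ} {x : V} (hx : x ∈ U a) : s.R m ε x ∈ U (a - 2) := by
  rw [R, LinearMap.sum_apply]
  apply Submodule.sum_mem
  intro k _
  rw [LinearMap.smul_apply]
  exact Submodule.smul_mem _ _ (s.co_U k hx)

/-- The rescaling operator. -/
noncomputable def Dl (ε : K) : Module.End K V := dia s.S.int (fun b => ε ^ (-b))

lemma Dl_U (ε : K) {a : ℤ} {x : V} (hx : x ∈ U a) : s.Dl ε x ∈ U a := by
  apply s.mem_U
  have h1 : ∀ y, s.T (s.Dl ε y) = s.Dl ε (s.T y) := by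
    intro y
    induction y using gr_ind s.S.int with
    | hgr b y hy =>
      rw [Dl, dia_apply _ _ hy, dia_apply _ _ (s.T_E hy), map_smul]
    | h0 => simp
    | hadd x y hx hy => rw [map_add, map_add, hx, hy, map_add, map_add]
  rw [h1, s.T_apply hx, map_smul]

lemma Dl_inv {ε : K} (hε : ε ≠ 0) (x : V) : s.Dl ε⁻¹ (s.Dl ε x) = x := by
  induction x using gr_ind s.S.int with
  | hgr b x hx =>
    rw [Dl, Dl, dia_apply _ _ hx, map_smul, dia_apply _ _ hx, smul_smul, inv_zpow,
      mul_inv_cancel₀ (zpow_ne_zero (-b) hε), one_smul]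
  | h0 => simp
  | hadd x y hx hy => rw [map_add, map_add, hx, hy]

lemma expand {n : ℕ} (hn : ∀ c : ℤ, (n : ℤ) < |c| → E c = ⊥) {b : ℤ} (hb : b ≤ n) {z : V}
    (hz : z ∈ M b) : z = ∑ k ∈ Finset.range (2 * n + 1), prj s.S.int (b - k) z := by
  apply eq_of_prj s.S.int
  intro i
  rw [map_sum]
  by_cases h : ∃ k ∈ Finset.range (2 * n + 1), b - (k : ℤ) = i
  · obtain ⟨k, hk, rfl⟩ := h
    rw [Finset.sum_eq_single k]
    · rw [prj_prj]
    · intro j _ hj
      exact prj_prj_ne _ (by omega) _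
    · intro h
      exact absurd hk h
  · push Not at h
    rw [Finset.sum_eq_zero]
    · rcases lt_or_ge b i with h1 | h1
      · exact s.prj_kill h1 hz
      · have h2 : (n : ℤ) < |i| := by
          rw [lt_abs]
          right
          by_contra hcon
          apply h (b - i).toNat _ (by omega)
          rw [Finset.mem_range]
          omega
        have h3 := prj_mem s.S.int i z
        rw [hn i h2] at h3
        exact (Submodule.mem_bot K).1 h3
    · intro k hk
      exact prj_prj_ne _ (fun h' => h k hk h'.symm) _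

lemma R_Dl {n : ℕ} (hn : ∀ c : ℤ, (n : ℤ) < |c| → E c = ⊥) {ε : K} (hε : ε ≠ 0) (x : V) :
    s.R (2 * n + 1) ε (s.Dl ε x) = s.Dl ε ((N₂ + (ε ^ (-2 : ℤ)) • N₁) x) := by
  induction x using gr_ind s.S.int with
  | h0 => simp
  | hadd x y hx hy => rw [map_add, map_add, hx, hy, map_add, map_add]
  | hgr b x hx =>
    by_cases hb : (n : ℤ) < |b|
    · rw [hn b hb] at hx
      rw [(Submodule.mem_bot K).1 hx]
      simp
    · have hb' := abs_le.1 (not_lt.1 hb)
      have h2 := s.expand hn (b := b) (by omega) (s.D.N2M _ _ (s.S.le _ hx))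
      have h1 := s.expand hn (b := b - 2) (by omega) (s.D.N1M _ _ (s.S.le _ hx))
      have e2 : s.Dl ε (N₂ x) = ∑ k ∈ Finset.range (2 * n + 1),
          ε ^ (-b + k) • prj s.S.int (b - k) (N₂ x) := by
        conv_lhs => rw [h2]
        rw [map_sum]
        apply Finset.sum_congr rfl
        intro k _
        rw [Dl, dia_apply _ _ (prj_mem _ _ _)]
        congr 2
        ring
      have e1 : s.Dl ε (N₁ x) = ∑ k ∈ Finset.range (2 * n + 1),
          ε ^ (-b + 2 + k) • prj s.S.int (b - 2 - k) (N₁ x) := by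
        conv_lhs => rw [h1]
        rw [map_sum]
        apply Finset.sum_congr rfl
        intro k _
        rw [Dl, dia_apply _ _ (prj_mem _ _ _)]
        congr 2
        ring
      have e0 : s.Dl ε x = ε ^ (-b) • x := by rw [Dl, dia_apply _ _ hx]
      rw [e0, map_smul, LinearMap.add_apply, LinearMap.smul_apply, map_add, map_smul, e1, e2, R,
        LinearMap.sum_apply, Finset.smul_sum, Finset.smul_sum, ← Finset.sum_add_distrib]
      apply Finset.sum_congr rfl
      intro k _
      rw [LinearMap.smul_apply, s.co_apply hx, smul_smul, smul_add, smul_smul, ← zpow_natCast,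
        ← zpow_add₀ hε, ← zpow_add₀ hε]
      congr 3
      ring

lemma R_Dl_pow {n : ℕ} (hn : ∀ c : ℤ, (n : ℤ) < |c| → E c = ⊥) {ε : K} (hε : ε ≠ 0) (k : ℕ)
    (x : V) : ((s.R (2 * n + 1) ε) ^ k) (s.Dl ε x) =
      s.Dl ε (((N₂ + (ε ^ (-2 : ℤ)) • N₁) ^ k) x) := by
  induction k with
  | zero => simp
  | succ k ih =>
    rw [pow_succ', Module.End.mul_apply, ih, s.R_Dl hn hε, pow_succ', Module.End.mul_apply]

end Setup

section

variable {U : ℤ → Submodule K V}

lemma pow_deg {A : Module.End K V} (hA : ∀ a x, x ∈ U a → A x ∈ U (a - 2)) (k : ℕ) {a : ℤ} {x : V}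
    (hx : x ∈ U a) : (A ^ k) x ∈ U (a - 2 * k) := by
  induction k with
  | zero => simpa using hx
  | succ k ih =>
    rw [pow_succ', Module.End.mul_apply]
    have := hA _ _ ih
    rwa [show a - 2 * (k : ℤ) - 2 = a - 2 * ((k + 1 : ℕ) : ℤ) by push_cast; ring] at this

/-- The hard Lefschetz property for the power `a` of `A`. -/
def HLat (U : ℤ → Submodule K V) (a : ℕ) (A : Module.End K V) : Prop :=
  (∀ x, x ∈ U a → (A ^ a) x = 0 → x = 0) ∧ ∀ y, y ∈ U (-a) → ∃ x ∈ U a, (A ^ a) x = y

/-- A polynomial family of operators of degree `-2` which has the hard Lefschetz property at one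
parameter. -/
lemma pencil_HL [Module.Finite K V] {A : K → Module.End K V} {d : ℕ} (hA : FF d A)
    (hdeg : ∀ t a x, x ∈ U a → A t x ∈ U (a - 2)) (a : ℕ) {t₀ : K} (h0 : HLat U a (A t₀)) :
    ∃ P : K[X], P ≠ 0 ∧ P.natDegree ≤ finrank K (U a) * (a * d) ∧
      ∀ t, P.eval t ≠ 0 → HLat U a (A t) := by
  have hm : ∀ t, ∀ x ∈ U a, ((A t) ^ a) x ∈ U (-a) := by
    intro t x hx
    have := pow_deg (hdeg t) a hx
    rwa [show (a : ℤ) - 2 * a = -a by ring] at this
  let B : K → (U a →ₗ[K] U (-a)) := fun t => ((A t) ^ a).restrict (hm t)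
  have hB : FF (a * d) B := by
    intro x ψ
    obtain ⟨ψ', hψ'⟩ := LinearMap.exists_extend ψ
    have h1 := hA.pow a (x : V) ψ'
    refine (congrArg (PF (a * d)) ?_).mp h1
    funext t
    rw [← hψ']
    rfl
  have hiff : ∀ t, HLat U a (A t) ↔ Function.Bijective (B t) := by
    intro t
    constructor
    · rintro ⟨h1, h2⟩
      constructor
      · rw [← LinearMap.ker_eq_bot, LinearMap.ker_eq_bot']
        rintro ⟨x, hx⟩ h
        exact Subtype.ext (h1 x hx (congrArg Subtype.val h))
      · rintro ⟨y, hy⟩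
        obtain ⟨x, hx, hxy⟩ := h2 y hy
        exact ⟨⟨x, hx⟩, Subtype.ext hxy⟩
    · rintro ⟨h1, h2⟩
      constructor
      · intro x hx h
        have h3 : B t ⟨x, hx⟩ = 0 := Subtype.ext h
        have h4 := h1 (h3.trans (map_zero (B t)).symm)
        exact congrArg Subtype.val h4
      · intro y hy
        obtain ⟨⟨x, hx⟩, hxy⟩ := h2 ⟨y, hy⟩
        exact ⟨x, hx, congrArg Subtype.val hxy⟩
  obtain ⟨P, hP, hPd, hPe⟩ := pencil hB ((hiff t₀).1 h0)
  exact ⟨P, hP, hPd, fun t ht => (hiff t).2 (hPe t ht)⟩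

lemma FF_line (N₁ N₂ : Module.End K V) : FF 1 (fun t : K => N₂ + t • N₁) := by
  apply FF.add
  · exact FF.const 1 N₂
  · exact FF.smul PF.id (FF.const 0 N₁)

end

end Pool.Agent.W5h86.MW
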