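import Pool.Agent.H914R2.HLam
import Pool.Agent.H914R2.TStr

/-!
# Two commuting representations of `sl(2)`
-/

set_option autoImplicit false

open Module

namespace Pool.Agent.W5h86.MW

open Pool.Agent.H914

variable {K : Type*} [Field K] [CharZero K] {V : Type*} [AddCommGroup V] [Module K V]

lemma sl2_add {A : Type*} [Ring A] {h e f h' e' f' : A} (t : Sl2 h e f) (t' : Sl2 h' e' f')
    (hhe : Commute h e') (hhf : Commute h f') (heh : Commute e h')
    (hef : Commute e f') (hfh : Commute f h') (hfe : Commute f e') :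
    Sl2 (h + h') (e + e') (f + f') where
  ef := by
    rw [← t.ef, ← t'.ef]
    calc (e + e') * (f + f') - (f + f') * (e + e')
        = (e * f - f * e) + (e' * f' - f' * e') + (e * f' - f' * e) - (f * e' - e' * f) := by
          noncomm_ring
      _ = _ := by rw [hef.eq, hfe.eq]; noncomm_ring
  he := by
    have h1 := t.he
    have h2 := t'.he
    calc (h + h') * (e + e') - (e + e') * (h + h')
        = (h * e - e * h) + (h' * e' - e' * h') + (h * e' - e' * h) - (e * h' - h' * e) := by
          noncomm_ring
      _ = _ := by rw [h1, h2, hhe.eq, heh.eq]; noncomm_ring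
  hf := by
    have h1 := t.hf
    have h2 := t'.hf
    calc (h + h') * (f + f') - (f + f') * (h + h')
        = (h * f - f * h) + (h' * f' - f' * h') + (h * f' - f' * h) - (f * h' - h' * f) := by
          noncomm_ring
      _ = _ := by rw [h1, h2, hhf.eq, hfh.eq]; noncomm_ring

/-- An operator which commutes with `h` and `e` commutes with `f`. -/
lemma sl2_comm [Module.Finite K V] {h e f : Module.End K V} (t : Sl2 h e f)
    {X : Module.End K V} (h1 : Commute X h) (h2 : Commute X e) : Commute X f := by
  let ad : Module.End K V → Module.End K (Module.End K V) := fun x =>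
    LinearMap.mulLeft K x - LinearMap.mulRight K x
  have had : ∀ x y : Module.End K V, ad x y = x * y - y * x := fun x y => rfl
  have tad : Sl2 (ad h) (ad e) (ad f) := by
    refine ⟨?_, ?_, ?_⟩
    · apply LinearMap.ext
      intro y
      rw [LinearMap.sub_apply, Module.End.mul_apply, Module.End.mul_apply, had, had, had, had,
        had, ← t.ef]
      noncomm_ring
    · apply LinearMap.ext
      intro y
      have h3 : (2 * ad e : Module.End K (Module.End K V)) y = 2 * e * y - y * (2 * e) := by
        rw [two_mul, LinearMap.add_apply, had]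
        noncomm_ring
      rw [LinearMap.sub_apply, Module.End.mul_apply, Module.End.mul_apply, had, had, had, had,
        h3, ← t.he]
      noncomm_ring
    · apply LinearMap.ext
      intro y
      have h3 : (-(2 * ad f) : Module.End K (Module.End K V)) y =
          -(2 * f) * y - y * (-(2 * f)) := by
        rw [two_mul, LinearMap.neg_apply, LinearMap.add_apply, had]
        noncomm_ring
      rw [LinearMap.sub_apply, Module.End.mul_apply, Module.End.mul_apply, had, had, had, had,
        h3, ← t.hf]
      noncomm_ring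
  have e1 : X * h = h * X := h1
  have e2 : X * e = e * X := h2
  by_contra hne
  have hY : X * f - f * X ≠ 0 := fun h0 => hne (sub_eq_zero.1 h0)
  have hw : ad h (X * f - f * X) = -((2 : ℕ) : K) • (X * f - f * X) := by
    rw [had]
    have h3 : h * (X * f - f * X) - (X * f - f * X) * h =
        X * (h * f - f * h) - (h * f - f * h) * X := by
      calc h * (X * f - f * X) - (X * f - f * X) * h
          = (h * X) * f - h * f * X - X * f * h + f * (X * h) := by noncomm_ring
        _ = (X * h) * f - h * f * X - X * f * h + f * (h * X) := by rw [e1]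
        _ = _ := by noncomm_ring
    rw [h3, t.hf]
    rw [neg_smul, Nat.cast_smul_eq_nsmul]
    noncomm_ring
  have h4 := Sl2.e_pow_inj tad hw hY (k := 1) (by norm_num)
  apply h4
  rw [pow_one, had]
  calc e * (X * f - f * X) - (X * f - f * X) * e
      = (e * X) * f - e * f * X - X * f * e + f * (X * e) := by noncomm_ring
    _ = (X * e) * f - e * f * X - X * f * e + f * (e * X) := by rw [e2]
    _ = X * (e * f - f * e) - (e * f - f * e) * X := by noncomm_ring
    _ = X * h - h * X := by rw [t.ef]
    _ = 0 := by rw [e1, sub_self]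

/-- In a representation of `sl(2)`, `e ^ M` is bijective from the weight `-M` to the weight `M`. -/
lemma sl2_bij [Module.Finite K V] {h e f : Module.End K V} (t : Sl2 h e f) (M : ℕ) :
    (∀ x, h x = -(M : K) • x → (e ^ M) x = 0 → x = 0) ∧
    ∀ y, h y = (M : K) • y → ∃ x, h x = -(M : K) • x ∧ (e ^ M) x = y := by
  have inj : ∀ x, h x = -(M : K) • x → (e ^ M) x = 0 → x = 0 := by
    intro x hx h0
    by_contra hne
    exact Sl2.e_pow_inj t hx hne le_rfl h0
  refine ⟨inj, ?_⟩
  have inj' : ∀ x, h x = (M : K) • x → (f ^ M) x = 0 → x = 0 := by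
    intro x hx h0
    by_contra hne
    exact Sl2.e_pow_inj t.swap (by rw [LinearMap.neg_apply, hx, neg_smul]) hne le_rfl h0
  let A : h.eigenspace (-(M : K)) →ₗ[K] h.eigenspace (M : K) := (e ^ M).restrict (by
    intro x hx
    rw [Module.End.mem_eigenspace_iff] at hx ⊢
    rw [Sl2.h_e_pow' t hx]
    congr 1
    ring)
  let B : h.eigenspace (M : K) →ₗ[K] h.eigenspace (-(M : K)) := (f ^ M).restrict (by
    intro x hx
    rw [Module.End.mem_eigenspace_iff] at hx ⊢
    rw [Sl2.h_f_pow' t hx]
    congr 1
    ring)
  have hA : Function.Injective A := by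
    rw [← LinearMap.ker_eq_bot, LinearMap.ker_eq_bot']
    rintro ⟨x, hx⟩ h0
    exact Subtype.ext (inj x (Module.End.mem_eigenspace_iff.1 hx) (congrArg Subtype.val h0))
  have hB : Function.Injective B := by
    rw [← LinearMap.ker_eq_bot, LinearMap.ker_eq_bot']
    rintro ⟨x, hx⟩ h0
    exact Subtype.ext (inj' x (Module.End.mem_eigenspace_iff.1 hx) (congrArg Subtype.val h0))
  have hd : finrank K (h.eigenspace (-(M : K))) = finrank K (h.eigenspace (M : K)) :=
    le_antisymm (LinearMap.finrank_le_finrank_of_injective hA)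
      (LinearMap.finrank_le_finrank_of_injective hB)
  have hs : Function.Surjective A := (LinearMap.injective_iff_surjective_of_finrank_eq_finrank
    hd).1 hA
  intro y hy
  obtain ⟨⟨x, hx⟩, hxy⟩ := hs ⟨y, Module.End.mem_eigenspace_iff.2 hy⟩
  exact ⟨x, Module.End.mem_eigenspace_iff.1 hx, congrArg Subtype.val hxy⟩

/-- Two commuting `sl(2)` pairs `(h₁, e₁)`, `(h₂, e₂)`: the sum satisfies the hard Lefschetz
property. -/
lemma sl2_two [Module.Finite K V] {h₁ e₁ f₁ h₂ e₂ f₂ : Module.End K V} (t₁ : Sl2 h₁ e₁ f₁)
    (t₂ : Sl2 h₂ e₂ f₂) (hh : Commute h₁ h₂) (he : Commute h₁ e₂) (eh : Commute e₁ h₂)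
    (ee : Commute e₁ e₂) (M : ℕ) :
    (∀ x, (h₁ + h₂) x = -(M : K) • x → ((e₁ + e₂) ^ M) x = 0 → x = 0) ∧
    ∀ y, (h₁ + h₂) y = (M : K) • y → ∃ x, (h₁ + h₂) x = -(M : K) • x ∧
      ((e₁ + e₂) ^ M) x = y := by
  have a1 : Commute h₁ f₂ := sl2_comm t₂ hh he
  have a2 : Commute e₁ f₂ := sl2_comm t₂ eh ee
  have a3 : Commute f₁ h₂ := (sl2_comm t₁ hh.symm eh.symm).symm
  have a4 : Commute f₁ e₂ := (sl2_comm t₁ he.symm ee.symm).symm
  exact sl2_bij (sl2_add t₁ t₂ he a1 eh a2 a3 a4) M

end Pool.Agent.W5h86.MW
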