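import Pool.Agent.W5h86.MW.Gr
import Pool.Agent.W5h86.MW.Sl

/-!
# A filtration with two commuting operators: splitting and the associated graded operators
-/

set_option autoImplicit false

open Module

namespace Pool.Agent.W5h86.MW

variable {K : Type*} [Field K] {V : Type*} [AddCommGroup V] [Module K V]

/-- `U` is a grading, `M` is a homogeneous filtration, `N₁` has degree `-2` for both, `N₂` has degree
`-2` for `U` and preserves `M`; `M` is the monodromy filtration of `N₁`, and on `gr b` of `M` the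
operator `N₂` satisfies the hard Lefschetz property centred in degree `b`. -/
structure Two (U M : ℤ → Submodule K V) (N₁ N₂ : Module.End K V) : Prop where
  int : DirectSum.IsInternal U
  mono : Monotone M
  bot : ∃ a, M a = ⊥
  top : ∃ a, M a = ⊤
  hom : ∀ b a x, x ∈ M b → prj int a x ∈ M b
  N1U : ∀ a x, x ∈ U a → N₁ x ∈ U (a - 2)
  N2U : ∀ a x, x ∈ U a → N₂ x ∈ U (a - 2)
  comm : ∀ x, N₁ (N₂ x) = N₂ (N₁ x)
  N1M : ∀ b x, x ∈ M b → N₁ x ∈ M (b - 2)
  N2M : ∀ b x, x ∈ M b → N₂ x ∈ M b
  inj1 : ∀ (b : ℕ) x, x ∈ M b → (N₁ ^ b) x ∈ M (-b - 1) → x ∈ M (b - 1)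
  surj1 : ∀ (b : ℕ) y, y ∈ M (-b) → ∃ x ∈ M b, y - (N₁ ^ b) x ∈ M (-b - 1)
  inj2 : ∀ (b : ℤ) (c : ℕ) x, x ∈ M b → x ∈ U (b + c) → (N₂ ^ c) x ∈ M (b - 1) → x ∈ M (b - 1)
  surj2 : ∀ (b : ℤ) (c : ℕ) y, y ∈ M b → y ∈ U (b - c) → ∃ x ∈ M b, x ∈ U (b + c) ∧
    y - (N₂ ^ c) x ∈ M (b - 1)

/-- A splitting of the filtration. -/
structure Splits (M E : ℤ → Submodule K V) : Prop where
  int : DirectSum.IsInternal E
  le : ∀ b, E b ≤ M b
  disj : ∀ b x, x ∈ E b → x ∈ M (b - 1) → x = 0
  ex : ∀ b x, x ∈ M b → ∃ y ∈ E b, x - y ∈ M (b - 1)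

/-- A finite filtration with complements is split. -/
lemma splits_of {M E : ℤ → Submodule K V} (mono : Monotone M) (bot : ∃ a, M a = ⊥)
    (top : ∃ a, M a = ⊤) (le : ∀ b, E b ≤ M b) (disj : ∀ b x, x ∈ E b → x ∈ M (b - 1) → x = 0)
    (ex : ∀ b x, x ∈ M b → ∃ y ∈ E b, x - y ∈ M (b - 1)) : Splits M E := by
  refine ⟨?_, le, disj, ex⟩
  apply isInternal_of
  · intro s
    induction s using Finset.induction_on_max with
    | empty => intro v _ _ i hi; simp at hi
    | insert a s hs ih =>
      intro v hv hsum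
      have ha : a ∉ s := fun h => lt_irrefl _ (hs a h)
      rw [Finset.sum_insert ha] at hsum
      have h1 : v a ∈ M (a - 1) := by
        rw [eq_neg_of_add_eq_zero_left hsum]
        apply Submodule.neg_mem
        apply Submodule.sum_mem
        intro i hi
        have := hs i hi
        exact mono (by omega) (le i (hv i (Finset.mem_insert_of_mem hi)))
      have h2 : v a = 0 := disj a _ (hv a (Finset.mem_insert_self a s)) h1
      rw [h2, zero_add] at hsum
      have h3 := ih v (fun i hi => hv i (Finset.mem_insert_of_mem hi)) hsum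
      intro i hi
      rcases Finset.mem_insert.1 hi with h | h
      · rw [h, h2]
      · exact h3 i h
  · obtain ⟨a, ha⟩ := bot
    obtain ⟨b, hb⟩ := top
    have key : ∀ k : ℕ, M (a + k) ≤ iSup E := by
      intro k
      induction k with
      | zero =>
        rw [Nat.cast_zero, add_zero, ha]
        exact bot_le
      | succ k ih =>
        intro x hx
        obtain ⟨y, hy, hxy⟩ := ex _ x hx
        rw [show a + ((k + 1 : ℕ) : ℤ) - 1 = a + k by push_cast; ring] at hxy
        have : x = y + (x - y) := by abel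
        rw [this]
        exact add_mem (Submodule.mem_iSup_of_mem _ hy) (ih hxy)
    rw [eq_top_iff, ← hb]
    refine le_trans (mono ?_) (key (b - a).toNat)
    have := Int.self_le_toNat (b - a)
    omega

section Splits

variable {M E : ℤ → Submodule K V} (S : Splits M E)

include S

lemma Splits.prj_zero (mono : Monotone M) (bot : ∃ a, M a = ⊥) {b b' : ℤ} (hb : b < b') {x : V}
    (hx : x ∈ M b) : prj S.int b' x = 0 := by
  obtain ⟨a, ha⟩ := bot
  have key : ∀ k : ℕ, ∀ x ∈ M (a + k), a + k < b' → prj S.int b' x = 0 := by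
    intro k
    induction k with
    | zero =>
      intro x hx _
      rw [Nat.cast_zero, add_zero, ha] at hx
      rw [(Submodule.mem_bot _).1 hx, map_zero]
    | succ k ih =>
      intro x hx hk
      obtain ⟨y, hy, hxy⟩ := S.ex _ x hx
      rw [show a + ((k + 1 : ℕ) : ℤ) - 1 = a + k by push_cast; ring] at hxy
      have : x = y + (x - y) := by abel
      rw [this, map_add, prj_ne S.int hy (by omega), ih _ hxy (by push_cast at hk; omega), add_zero]
  rcases le_total a b with h | h
  · have h1 := key (b - a).toNat x (by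
      rw [show a + ((b - a).toNat : ℤ) = b by omega]; exact hx) (by omega)
    exact h1
  · have h1 : x ∈ M a := mono h hx
    rw [ha] at h1
    rw [(Submodule.mem_bot _).1 h1, map_zero]

lemma Splits.sub_prj (mono : Monotone M) (bot : ∃ a, M a = ⊥) {b : ℤ} {x : V} (hx : x ∈ M b) :
    prj S.int b x - x ∈ M (b - 1) := by
  obtain ⟨y, hy, hxy⟩ := S.ex _ x hx
  have h1 : prj S.int b (x - y) = 0 := S.prj_zero mono bot (by omega) hxy
  rw [map_sub, prj_same S.int hy, sub_eq_zero] at h1
  rw [h1, ← neg_sub x y]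
  exact Submodule.neg_mem _ hxy

end Splits

/-- A homogeneous filtration has a homogeneous splitting. -/
lemma exists_split {U M : ℤ → Submodule K V} {N₁ N₂ : Module.End K V} (D : Two U M N₁ N₂) :
    ∃ E : ℤ → Submodule K V, Splits M E ∧ ∀ b a x, x ∈ E b → prj D.int a x ∈ E b := by
  have h1 : ∀ b a : ℤ, ∃ q : Submodule K V, IsCompl (M (b - 1) ⊓ U a) q :=
    fun b a => Submodule.exists_isCompl _
  choose q hq using h1
  let G : ℤ → ℤ → Submodule K V := fun b a => q b a ⊓ (M b ⊓ U a)
  have hG : ∀ b a x, x ∈ (⨆ a, G b a) → prj D.int a x ∈ G b a := by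
    intro b a x hx
    refine Submodule.iSup_induction (G b) (motive := fun x => prj D.int a x ∈ G b a) hx ?_ ?_ ?_
    · intro a' y hy
      by_cases h : a' = a
      · subst h
        rw [prj_same D.int hy.2.2]
        exact hy
      · rw [prj_ne D.int hy.2.2 h]
        exact zero_mem _
    · rw [map_zero]; exact zero_mem _
    · intro y z hy hz
      rw [map_add]; exact add_mem hy hz
  refine ⟨fun b => ⨆ a, G b a, splits_of D.mono D.bot D.top ?_ ?_ ?_, ?_⟩
  · intro b
    exact iSup_le (fun a => inf_le_right.trans inf_le_left)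
  · intro b x hx hx'
    apply eq_zero_of_prj D.int
    intro a
    have h2 := hG b a x hx
    have h3 : prj D.int a x ∈ M (b - 1) ⊓ U a := ⟨D.hom _ _ _ hx', h2.2.2⟩
    exact (Submodule.mem_bot K).1 ((hq b a).disjoint.le_bot ⟨h3, h2.1⟩)
  · intro b x hx
    have h2 : x ∈ (⨆ a, G b a) ⊔ M (b - 1) := by
      apply mem_of_prj_mem D.int
      intro a
      have h3 : prj D.int a x ∈ (M (b - 1) ⊓ U a) ⊔ q b a := by
        rw [(hq b a).sup_eq_top]; trivial
      obtain ⟨y, hy, z, hz, hyz⟩ := Submodule.mem_sup.1 h3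
      have h4 : z ∈ G b a := by
        refine ⟨hz, ?_⟩
        have : z = prj D.int a x - y := by rw [← hyz]; abel
        rw [this]
        exact ⟨sub_mem (D.hom _ _ _ hx) (D.mono (by omega) hy.1), sub_mem (prj_mem D.int a x) hy.2⟩
      rw [← hyz]
      exact add_mem (Submodule.mem_sup_right hy.1)
        (Submodule.mem_sup_left (Submodule.mem_iSup_of_mem a h4))
    obtain ⟨y, hy, z, hz, hyz⟩ := Submodule.mem_sup.1 h2
    refine ⟨y, hy, ?_⟩
    rw [← hyz, add_sub_cancel_left]
    exact hz
  · intro b a x hx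
    exact Submodule.mem_iSup_of_mem a (hG b a x hx)

end Pool.Agent.W5h86.MW
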