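import Pool.Agent.Y163.MW.WN
import Pool.Agent.Y143.Mon
import Pool.Agent.W5h86.MW.Count

/-!
# Weight spaces of the Frobenius, and mw purity in terms of the weight spaces
-/

set_option autoImplicit false
set_option linter.unusedSectionVars false
set_option linter.unusedVariables false

open Module

namespace Pool.Agent.W5h86.MW

open Pool.Agent.Y143 (IsWeilNumber IsMonodromyFiltration IsMWPure)
open Pool.Agent.Y163.MW (weil_unique)

variable {Ω : Type*} [Field Ω] [CharZero Ω] {V : Type*} [AddCommGroup V] [Module Ω V]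
  {V' : Type*} [AddCommGroup V'] [Module Ω V'] {q : ℕ}

/-- The weight space: the sum of the generalized eigenspaces for the eigenvalues of weight `w`. -/
def ws (q : ℕ) (Φ : Module.End Ω V) (w : ℤ) : Submodule Ω V :=
  ⨆ α : {α : Ω // IsWeilNumber q w α}, Φ.maxGenEigenspace (α : Ω)

lemma mem_ws {Φ : Module.End Ω V} {w : ℤ} {α : Ω} (hα : IsWeilNumber q w α) {x : V}
    (hx : x ∈ Φ.maxGenEigenspace α) : x ∈ ws q Φ w :=
  Submodule.mem_iSup_of_mem (⟨α, hα⟩ : {α : Ω // IsWeilNumber q w α}) hx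

lemma gen_map {Φ : Module.End Ω V} {Φ' : Module.End Ω V'} {f : V →ₗ[Ω] V'} {c : Ω}
    (hf : ∀ x, Φ' (f x) = c • f (Φ x)) {α : Ω} {x : V} (hx : x ∈ Φ.maxGenEigenspace α) :
    f x ∈ Φ'.maxGenEigenspace (c * α) := by
  rw [Module.End.mem_maxGenEigenspace] at hx ⊢
  obtain ⟨k, hk⟩ := hx
  refine ⟨k, ?_⟩
  have h1 : ∀ (k : ℕ) (y : V), ((Φ' - (c * α) • (1 : Module.End Ω V')) ^ k) (f y) =
      c ^ k • f (((Φ - α • (1 : Module.End Ω V)) ^ k) y) := by
    intro k
    induction k with
    | zero => intro y; simp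
    | succ k ih =>
      intro y
      have e : (Φ' - (c * α) • (1 : Module.End Ω V')) (f y) =
          c • f ((Φ - α • (1 : Module.End Ω V)) y) := by
        simp only [LinearMap.sub_apply, LinearMap.smul_apply, Module.End.one_apply, hf, map_sub,
          map_smul, smul_sub, mul_smul]
      rw [pow_succ, Module.End.mul_apply, e, map_smul, ih, smul_smul, pow_succ' c,
        pow_succ (Φ - α • (1 : Module.End Ω V)), Module.End.mul_apply]
  rw [h1, hk, map_zero, smul_zero]

lemma ws_map (hq : q ≠ 0) {Φ : Module.End Ω V} {Φ' : Module.End Ω V'} {f : V →ₗ[Ω] V'} (k : ℤ)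
    (hf : ∀ x, Φ' (f x) = ((q : Ω) ^ k) • f (Φ x)) {w : ℤ} {x : V} (hx : x ∈ ws q Φ w) :
    f x ∈ ws q Φ' (w + 2 * k) := by
  refine Submodule.iSup_induction _ (motive := fun x => f x ∈ ws q Φ' (w + 2 * k)) hx ?_ ?_ ?_
  · rintro ⟨α, hα⟩ y hy
    exact mem_ws (hα.twist hq k) (gen_map hf hy)
  · rw [map_zero]; exact zero_mem _
  · intro y z hy hz
    rw [map_add]; exact add_mem hy hz

/-- All eigenvalues are Weil numbers of some integral weight. -/
def AllWeil (q : ℕ) (Φ : Module.End Ω V) : Prop :=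
  ∀ (α : Ω) (x : V), x ≠ 0 → Φ x = α • x → ∃ w : ℤ, IsWeilNumber q w α

lemma exists_eig_gen {Φ : Module.End Ω V} {P : Submodule Ω V} (hP : ∀ x ∈ P, Φ x ∈ P) {α : Ω}
    {x : V} (hx : x ∈ Φ.maxGenEigenspace α) (hxP : x ∈ P) (h0 : x ≠ 0) :
    ∃ y ∈ P, y ≠ 0 ∧ Φ y = α • y := by
  rw [Module.End.mem_maxGenEigenspace] at hx
  classical
  set k := Nat.find hx with hk
  have hk0 : ((Φ - α • (1 : Module.End Ω V)) ^ k) x = 0 := Nat.find_spec hx
  have hk1 : k ≠ 0 := by
    intro h
    rw [h] at hk0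
    exact h0 (by simpa using hk0)
  obtain ⟨j, hj⟩ := Nat.exists_eq_succ_of_ne_zero hk1
  have hmem : ∀ i : ℕ, ((Φ - α • (1 : Module.End Ω V)) ^ i) x ∈ P := by
    intro i
    induction i with
    | zero => simpa using hxP
    | succ i ih =>
      rw [pow_succ', Module.End.mul_apply, LinearMap.sub_apply, LinearMap.smul_apply,
        Module.End.one_apply]
      exact sub_mem (hP _ ih) (Submodule.smul_mem _ _ ih)
  refine ⟨_, hmem j, Nat.find_min hx (by rw [← hk]; omega), ?_⟩
  rw [← sub_eq_zero]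
  have := hk0
  rw [hj, Nat.succ_eq_add_one, pow_succ', Module.End.mul_apply, LinearMap.sub_apply,
    LinearMap.smul_apply, Module.End.one_apply] at this
  exact this

/-- Generalized eigenvectors for different eigenvalues. -/
lemma gen_disj {Φ : Module.End Ω V} {α β : Ω} (h : α ≠ β) {x : V}
    (hα : x ∈ Φ.maxGenEigenspace α) (hβ : x ∈ Φ.maxGenEigenspace β) : x = 0 :=
  (Submodule.mem_bot Ω).1 (((Φ.independent_maxGenEigenspace).pairwiseDisjoint h).le_bot ⟨hα, hβ⟩)

section Fin

variable [IsAlgClosed Ω] [Module.Finite Ω V]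

lemma exists_eig {Φ : Module.End Ω V} {P : Submodule Ω V} (hP : ∀ x ∈ P, Φ x ∈ P) (h0 : P ≠ ⊥) :
    ∃ y ∈ P, y ≠ 0 ∧ ∃ β : Ω, Φ y = β • y := by
  have : Nontrivial P := Submodule.nontrivial_iff_ne_bot.2 h0
  obtain ⟨β, hβ⟩ := Module.End.exists_eigenvalue (Φ.restrict hP)
  obtain ⟨⟨y, hy⟩, hy1, hy2⟩ := hβ.exists_hasEigenvector
  refine ⟨y, hy, fun h => hy2 (Subtype.ext h), β, ?_⟩
  exact congrArg Subtype.val (Module.End.mem_eigenspace_iff.1 hy1)

open Classical in
lemma gen_internal (Φ : Module.End Ω V) : DirectSum.IsInternal Φ.maxGenEigenspace := by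
  classical
  rw [DirectSum.isInternal_submodule_iff_iSupIndep_and_iSup_eq_top]
  exact ⟨Φ.independent_maxGenEigenspace, Module.End.iSup_maxGenEigenspace_eq_top Φ⟩

lemma gen_bot {Φ : Module.End Ω V} (h : AllWeil q Φ) {α : Ω}
    (hα : ¬ ∃ w : ℤ, IsWeilNumber q w α) : Φ.maxGenEigenspace α = ⊥ := by
  rw [Submodule.eq_bot_iff]
  intro x hx
  by_contra h0
  obtain ⟨y, -, hy, hyα⟩ := exists_eig_gen (P := ⊤) (fun _ _ => trivial) hx trivial h0
  exact hα (h α y hy hyα)

/-- The weight spaces form a grading. -/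
lemma ws_internal (hq : 1 < q) {Φ : Module.End Ω V} (h : AllWeil q Φ) :
    DirectSum.IsInternal (ws q Φ) := by
  classical
  let wt : Ω → ℤ := fun α => if h : ∃ w, IsWeilNumber q w α then h.choose else 0
  have hwt : ∀ α w, IsWeilNumber q w α → wt α = w := by
    intro α w hα
    have h' : ∃ w, IsWeilNumber q w α := ⟨w, hα⟩
    simp only [wt, dif_pos h']
    exact weil_unique hq h'.choose_spec hα
  let D := dia (gen_internal Φ) (fun α => ((wt α : ℤ) : Ω))
  rw [DirectSum.isInternal_submodule_iff_iSupIndep_and_iSup_eq_top]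
  constructor
  · have h1 : iSupIndep (fun w : ℤ => D.eigenspace (w : Ω)) :=
      (Module.End.eigenspaces_iSupIndep D).comp (f := fun w : ℤ => (w : Ω))
        (fun _ _ h => Int.cast_injective h)
    refine h1.mono fun w => ?_
    apply iSup_le
    rintro ⟨α, hα⟩ x hx
    rw [Module.End.mem_eigenspace_iff, dia_apply (gen_internal Φ) _ hx, hwt α w hα]
  · rw [eq_top_iff, ← Module.End.iSup_maxGenEigenspace_eq_top Φ]
    apply iSup_le
    intro α
    by_cases hα : ∃ w : ℤ, IsWeilNumber q w α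
    · obtain ⟨w, hw⟩ := hα
      exact le_trans (fun x hx => mem_ws hw hx) (le_iSup (ws q Φ) w)
    · rw [gen_bot h hα]; exact bot_le

lemma prj_ws_stable (hq : 1 < q) {Φ : Module.End Ω V} (h : AllWeil q Φ) {P : Submodule Ω V}
    (hP : ∀ x ∈ P, Φ x ∈ P) (w : ℤ) {x : V} (hx : x ∈ P) : prj (ws_internal hq h) w x ∈ P := by
  have h1 : P = ⨆ μ, P ⊓ Φ.maxGenEigenspace μ :=
    Submodule.eq_iSup_inf_genEigenspace ⊤ hP (Module.End.iSup_maxGenEigenspace_eq_top Φ)
  have h2 : x ∈ ⨆ μ, P ⊓ Φ.maxGenEigenspace μ := by rw [← h1]; exact hx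
  refine Submodule.iSup_induction _
    (motive := fun x => prj (ws_internal hq h) w x ∈ P) h2 ?_ ?_ ?_
  · rintro α y ⟨hy, hyα⟩
    by_cases hα : ∃ w : ℤ, IsWeilNumber q w α
    · obtain ⟨w', hw'⟩ := hα
      have h3 : y ∈ ws q Φ w' := mem_ws hw' hyα
      by_cases hw : w' = w
      · subst hw
        rw [prj_same _ h3]; exact hy
      · rw [prj_ne _ h3 hw]; exact zero_mem _
    · rw [gen_bot h hα] at hyα
      rw [(Submodule.mem_bot Ω).1 hyα, map_zero]
      exact zero_mem _
  · rw [map_zero]; exact zero_mem _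
  · intro y z hy hz
    rw [map_add]; exact add_mem hy hz

lemma ws_stable {Φ : Module.End Ω V} {w : ℤ} {x : V} (hx : x ∈ ws q Φ w) : Φ x ∈ ws q Φ w := by
  refine Submodule.iSup_induction _ (motive := fun x => Φ x ∈ ws q Φ w) hx ?_ ?_ ?_
  · rintro ⟨α, hα⟩ y hy
    exact mem_ws hα (Module.End.mapsTo_maxGenEigenspace_of_comm (Commute.refl Φ) α hy)
  · rw [map_zero]; exact zero_mem _
  · intro y z hy hz
    rw [map_add]; exact add_mem hy hz

/-- Eigenvalues on a weight space. -/
lemma ws_eig {Φ : Module.End Ω V} {w : ℤ} {β : Ω} {y : V} (hy : y ∈ ws q Φ w) (h0 : y ≠ 0)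
    (hβ : Φ y = β • y) : IsWeilNumber q w β := by
  classical
  by_contra hn
  have h1 : y ∈ Φ.maxGenEigenspace β :=
    Module.End.eigenspace_le_maxGenEigenspace (Module.End.mem_eigenspace_iff.2 hβ)
  have h2 : prj (gen_internal Φ) β y = 0 := by
    refine Submodule.iSup_induction _
      (motive := fun x => prj (gen_internal Φ) β x = 0) hy ?_ ?_ ?_
    · rintro ⟨α, hα⟩ z hz
      exact prj_ne _ hz (fun h => hn (h ▸ hα))
    · exact map_zero _
    · intro a b ha hb
      rw [map_add, ha, hb, add_zero]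
  rw [prj_same _ h1] at h2
  exact h0 h2

section Pure

variable {i : ℤ} {Φ N : Module.End Ω V}

/-- The least step of a filtration which contains a vector. -/
lemma exists_step {M : ℤ → Submodule Ω V} (mono : Monotone M) (bot : ∃ a, M a = ⊥)
    (top : ∃ a, M a = ⊤) {x : V} (hx : x ≠ 0) : ∃ b, x ∈ M b ∧ x ∉ M (b - 1) := by
  obtain ⟨a, ha⟩ := bot
  obtain ⟨c, hc⟩ := top
  by_contra hcon
  push Not at hcon
  have key : ∀ k : ℕ, x ∈ M (c - k) := by
    intro k
    induction k with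
    | zero => rw [Nat.cast_zero, sub_zero, hc]; trivial
    | succ k ih =>
      have := hcon _ ih
      rwa [show c - (k : ℤ) - 1 = c - ((k + 1 : ℕ) : ℤ) by push_cast; ring] at this
  have h1 : x ∈ M a := mono (by omega) (key (c - a).toNat)
  rw [ha] at h1
  exact hx ((Submodule.mem_bot Ω).1 h1)

lemma pure_allWeil (h : IsMWPure q i Φ N) : AllWeil q Φ := by
  obtain ⟨M, hM, hΦ, hw⟩ := h
  intro α x hx hxα
  obtain ⟨b, hb, hb'⟩ := exists_step hM.mono hM.bot hM.top hx
  refine ⟨b + i, hw b α x hb hb' ?_⟩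
  rw [hxα, sub_self]
  exact zero_mem _

/-- mw purity in terms of the weight spaces. -/
lemma pure_HL (hq : 1 < q) (hN : ∀ x, N (Φ x) = (q : Ω) • Φ (N x)) (h : IsMWPure q i Φ N) :
    ∀ a : ℕ, HLat (fun a => ws q Φ (i + a)) a N := by
  have hall := pure_allWeil h
  obtain ⟨M, hM, hΦ, hw⟩ := h
  have hq0 : (q : Ω) ≠ 0 := Nat.cast_ne_zero.2 (by omega)
  have hN' : ∀ x, Φ (N x) = ((q : Ω) ^ (-1 : ℤ)) • N (Φ x) := by
    intro x
    rw [hN, smul_smul, zpow_neg_one, inv_mul_cancel₀ hq0, one_smul]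
  have hmem : ∀ w x, x ∈ ws q Φ w → x ∈ M (w - i) := by
    intro w x hx
    refine Submodule.iSup_induction _ (motive := fun x => x ∈ M (w - i)) hx ?_ (zero_mem _)
      (fun _ _ h1 h2 => add_mem h1 h2)
    rintro ⟨α, hα⟩ y hy
    by_contra hcon
    have hy0 : y ≠ 0 := fun h => hcon (h ▸ zero_mem _)
    obtain ⟨b, hb, hb'⟩ := exists_step hM.mono hM.bot hM.top hy0
    have hlt : w - i < b := by
      by_contra hle
      exact hcon (hM.mono (by omega) hb)
    have hy' := (Module.End.mem_maxGenEigenspace _ _ _).1 hy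
    classical
    have hex : ∃ k : ℕ, ((Φ - α • (1 : Module.End Ω V)) ^ k) y ∈ M (b - 1) := by
      obtain ⟨k, hk⟩ := hy'
      exact ⟨k, by change ((Φ - α • (1 : Module.End Ω V)) ^ k) y = 0 at hk; rw [hk]; exact zero_mem _⟩
    set k := Nat.find hex with hk
    have hk0 : ((Φ - α • (1 : Module.End Ω V)) ^ k) y ∈ M (b - 1) := Nat.find_spec hex
    have hk1 : k ≠ 0 := by
      intro h
      rw [h] at hk0
      exact hb' (by simpa using hk0)
    obtain ⟨j, hj⟩ := Nat.exists_eq_succ_of_ne_zero hk1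
    have hmem : ∀ i : ℕ, ((Φ - α • (1 : Module.End Ω V)) ^ i) y ∈ M b := by
      intro i
      induction i with
      | zero => simpa using hb
      | succ i ih =>
        rw [pow_succ', Module.End.mul_apply, LinearMap.sub_apply, LinearMap.smul_apply,
          Module.End.one_apply]
        exact sub_mem (hΦ _ _ ih) (Submodule.smul_mem _ _ ih)
    have h1 : IsWeilNumber q (b + i) α := by
      refine hw b α _ (hmem j) (Nat.find_min hex (by rw [← hk]; omega)) ?_
      have := hk0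
      rw [hj, Nat.succ_eq_add_one, pow_succ', Module.End.mul_apply, LinearMap.sub_apply,
        LinearMap.smul_apply, Module.End.one_apply] at this
      exact this
    have h2 := weil_unique hq h1 hα
    omega
  have hdisj : ∀ w x, x ∈ ws q Φ w → x ∈ M (w - i - 1) → x = 0 := by
    intro w x hx hx'
    by_contra h0
    obtain ⟨y, hy, hy0, β, hβ⟩ := exists_eig (Φ := Φ) (P := ws q Φ w ⊓ M (w - i - 1))
      (fun z hz => ⟨ws_stable hz.1, hΦ _ _ hz.2⟩)
      (fun hb => h0 ((Submodule.mem_bot Ω).1 (hb ▸ ⟨hx, hx'⟩)))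
    have h1 := ws_eig hy.1 hy0 hβ
    obtain ⟨b, hb, hb'⟩ := exists_step hM.mono hM.bot hM.top hy0
    have h2 := hw b β y hb hb' (by rw [hβ, sub_self]; exact zero_mem _)
    have h3 := weil_unique hq h1 h2
    exact hb' (hM.mono (by omega) hy.2)
  intro a
  constructor
  · intro x hx h0
    change x ∈ ws q Φ (i + a) at hx
    have h1 := hmem _ _ hx
    rw [show i + (a : ℤ) - i = a by ring] at h1
    apply hdisj _ _ hx
    rw [show i + (a : ℤ) - i - 1 = a - 1 by ring]
    apply hM.inj a x h1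
    rw [h0]; exact zero_mem _
  · intro y hy
    change y ∈ ws q Φ (i + -a) at hy
    have h1 := hmem _ _ hy
    rw [show i + -(a : ℤ) - i = -a by ring] at h1
    obtain ⟨x, hx, hxy⟩ := hM.on.surj_exact a y h1
    have hI := ws_internal hq hall
    refine ⟨prj hI (i + a) x, prj_mem _ _ _, ?_⟩
    have hp : ∀ (k : ℕ) (w : ℤ), ∀ z ∈ ws q Φ w, (N ^ k) z ∈ ws q Φ (w + -2 * k) := by
      intro k
      induction k with
      | zero => intro w z hz; simpa using hz
      | succ k ih =>
        intro w z hz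
        rw [pow_succ', Module.End.mul_apply]
        have := ws_map (by omega : q ≠ 0) (f := N) (-1) hN' (ih w z hz)
        rwa [show w + -2 * (k : ℤ) + 2 * -1 = w + -2 * ((k + 1 : ℕ) : ℤ) by push_cast; ring] at this
    have h3 := prj_map hI hI (N ^ a) (s := fun w => w + -2 * a) (fun _ _ h => by
      simpa using h) (hp a) (i + a) x
    rw [← h3, hxy]
    have e : i + (a : ℤ) + -2 * a = i + -a := by ring
    have h4 : prj hI (i + (a : ℤ) + -2 * a) y = y := prj_same hI (by rw [e]; exact hy)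
    exact h4

end Pure

end Fin

end Pool.Agent.W5h86.MW
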